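import Pool.Agent.Helper79.BP.KitK1

/-!
PROJECT BP, bordism kit 3: the disjoint sum of two singular manifolds and the empty one.

`sum A B` lives in `ℝ^(A.κ ⊕ B.κ ⊕ Unit)`: the points `(x, 0, 0)`, `x ∈ A.X`, and `(0, y, 1)`, `y ∈ B.X`; the map is `A.f x` if the last coordinate is `< 1/2`
and `B.f y` otherwise. Continuity: on each of the two parts, which are separated by the last coordinate.
-/

set_option autoImplicit false

namespace Pool.Agent.Helper79.BP

open MvPolynomial Filter
open scoped ContDiff Topology

private theorem continuous_in1 {κ κ' : Type} : Continuous (in1 (κ := κ) (κ' := κ')) := by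
  refine continuous_pi fun i => ?_
  rcases i with i | i
  · exact continuous_apply i
  · exact continuous_const

private theorem continuous_in2 {κ κ' : Type} : Continuous (in2 (κ := κ) (κ' := κ')) := by
  refine continuous_pi fun i => ?_
  rcases i with i | i | i
  · exact continuous_const
  · exact continuous_apply i
  · exact continuous_const

section
variable {ι : Type} {V : Set (ι → ℝ)} {m : ℕ}

/-- The disjoint sum of two singular manifolds. -/
noncomputable def Sing.sum (A B : Sing V m) : Sing V m where
  κ := A.κ ⊕ B.κ ⊕ Unit
  fin := inferInstance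
  X := in1 '' A.X ∪ in2 '' B.X
  f := fun z => if z (Sum.inr (Sum.inr ())) < 1 / 2 then A.f (fun i => z (Sum.inl i))
    else B.f (fun j => z (Sum.inr (Sum.inl j)))
  compact := (A.compact.image continuous_in1).union (B.compact.image continuous_in2)
  submfd := isSubmfd_sum A.submfd B.submfd
  cont := by
    refine ContinuousOn.union_of_isClosed ?_ ?_ (A.compact.image continuous_in1).isClosed
      (B.compact.image continuous_in2).isClosed
    · have h : ContinuousOn (fun z : A.κ ⊕ B.κ ⊕ Unit → ℝ => A.f (fun i => z (Sum.inl i)))
          (in1 '' A.X) := by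
        refine A.cont.comp (continuous_pi fun i => continuous_apply _).continuousOn ?_
        rintro _ ⟨x, hx, rfl⟩
        exact hx
      refine h.congr ?_
      rintro _ ⟨x, hx, rfl⟩
      exact if_pos (by simp [in1])
    · have h : ContinuousOn (fun z : A.κ ⊕ B.κ ⊕ Unit → ℝ => B.f (fun j => z (Sum.inr (Sum.inl j))))
          (in2 '' B.X) := by
        refine B.cont.comp (continuous_pi fun i => continuous_apply _).continuousOn ?_
        rintro _ ⟨x, hx, rfl⟩
        exact hx
      refine h.congr ?_
      rintro _ ⟨x, hx, rfl⟩
      exact if_neg (by simp [in2]; norm_num)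
  maps := by
    rintro _ (⟨x, hx, rfl⟩ | ⟨x, hx, rfl⟩)
    · have h : (if (in1 (κ' := B.κ) x) (Sum.inr (Sum.inr ())) < 1 / 2 then
          A.f (fun i => in1 (κ' := B.κ) x (Sum.inl i))
          else B.f (fun j => in1 (κ' := B.κ) x (Sum.inr (Sum.inl j)))) = A.f x :=
        if_pos (by simp [in1])
      have h2 := A.maps hx
      rw [← h] at h2
      exact h2
    · have h : (if (in2 (κ := A.κ) x) (Sum.inr (Sum.inr ())) < 1 / 2 then
          A.f (fun i => in2 (κ := A.κ) x (Sum.inl i))
          else B.f (fun j => in2 (κ := A.κ) x (Sum.inr (Sum.inl j)))) = B.f x :=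
        if_neg (by simp [in2]; norm_num)
      have h2 := B.maps hx
      rw [← h] at h2
      exact h2

/-- The empty singular manifold. -/
def Sing.nil (V : Set (ι → ℝ)) (m : ℕ) : Sing V m where
  κ := Empty
  fin := inferInstance
  X := ∅
  f := fun _ _ => 0
  compact := isCompact_empty
  submfd := isSubmfd_empty m
  cont := continuousOn_empty _
  maps := fun _ hx => hx.elim

end

end Pool.Agent.Helper79.BP
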