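import Pool.Agent.Helper79.BP.KitB

/-!
PROJECT BP, kit: polynomial functions, nonsingular points and smooth submanifolds.
-/

set_option autoImplicit false

namespace Pool.Agent.Helper79.BP

open MvPolynomial Filter
open scoped ContDiff Topology

section
variable {ι : Type} [Fintype ι] {X : Set (ι → ℝ)} {x v : ι → ℝ}

theorem contDiff_eval (f : MvPolynomial ι ℝ) {n : WithTop ℕ∞} : ContDiff ℝ n (fun y : ι → ℝ => eval y f) := by
  induction f using MvPolynomial.induction_on with
  | C a => simpa using contDiff_const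
  | add p q hp hq => simpa using hp.add hq
  | mul_X p i hp => simpa using hp.mul (contDiff_apply ℝ ℝ i)

theorem hasFDerivAt_eval (f : MvPolynomial ι ℝ) (x : ι → ℝ) :
    HasFDerivAt (fun y : ι → ℝ => eval y f)
      (∑ j, eval x (pderiv j f) • (ContinuousLinearMap.proj j : (ι → ℝ) →L[ℝ] ℝ)) x := by
  classical
  induction f using MvPolynomial.induction_on with
  | C a => simpa using hasFDerivAt_const a x
  | add p q hp hq =>
    have h2 : (fun y : ι → ℝ => eval y (p + q)) = fun y => eval y p + eval y q := by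
      ext y
      simp
    rw [h2]
    refine (hp.add hq).congr_fderiv ?_
    ext v
    simp [add_mul, Finset.sum_add_distrib]
  | mul_X p i hp =>
    have hX : HasFDerivAt (fun y : ι → ℝ => y i) (ContinuousLinearMap.proj i : (ι → ℝ) →L[ℝ] ℝ) x :=
      (ContinuousLinearMap.proj i : (ι → ℝ) →L[ℝ] ℝ).hasFDerivAt
    have h2 : (fun y : ι → ℝ => eval y (p * X i)) = fun y => eval y p * y i := by
      ext y
      simp
    rw [h2]
    refine (hp.mul hX).congr_fderiv ?_
    have h3 : ∀ j, eval x (pderiv j (p * X i)) = x i * eval x (pderiv j p) + (if j = i then eval x p else 0) := by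
      intro j
      rw [pderiv_mul, map_add, map_mul, map_mul, eval_X, pderiv_X, Pi.single_apply]
      by_cases h : i = j
      · simp [h, mul_comm]
      · simp [h, Ne.symm h, mul_comm]
    ext v
    simp only [h3]
    simp [add_mul, Finset.sum_add_distrib, Finset.mul_sum, mul_assoc, add_comm]

theorem fderiv_eval (f : MvPolynomial ι ℝ) (x v : ι → ℝ) :
    fderiv ℝ (fun y : ι → ℝ => eval y f) x v = ∑ j, eval x (pderiv j f) * v j := by
  rw [(hasFDerivAt_eval f x).fderiv]
  simp

/-- The map given by finitely many polynomials. -/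
noncomputable def evm {c : ℕ} (f : Fin c → MvPolynomial ι ℝ) (y : ι → ℝ) : Fin c → ℝ := fun i => eval y (f i)

theorem contDiff_evm {c : ℕ} (f : Fin c → MvPolynomial ι ℝ) {n : WithTop ℕ∞} : ContDiff ℝ n (evm f) :=
  contDiff_pi.2 fun i => contDiff_eval (f i)

theorem fderiv_evm {c : ℕ} (f : Fin c → MvPolynomial ι ℝ) (x v : ι → ℝ) (i : Fin c) :
    fderiv ℝ (evm f) x v i = ∑ j, eval x (pderiv j (f i)) * v j := by
  have h := (hasFDerivAt_pi.2 fun i => hasFDerivAt_eval (f i) x : HasFDerivAt (evm f) _ x)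
  rw [h.fderiv]
  simp

/-- Independent gradients: the differential is onto. -/
theorem surjective_fderiv_evm {c : ℕ} (f : Fin c → MvPolynomial ι ℝ) (x : ι → ℝ)
    (h : LinearIndependent ℝ (fun i : Fin c => fun j : ι => eval x (pderiv j (f i)))) :
    Function.Surjective (fderiv ℝ (evm f) x) := by
  classical
  let A : Matrix (Fin c) ι ℝ := fun i j => eval x (pderiv j (f i))
  have hA : A.rank = c := by
    have : LinearIndependent ℝ A.row := h
    simpa using this.rank_matrix
  have h1 : LinearMap.range A.mulVecLin = ⊤ := by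
    apply Submodule.eq_top_of_finrank_eq
    rw [← Matrix.rank, hA]
    simp
  intro w
  obtain ⟨v, hv⟩ := LinearMap.range_eq_top.1 h1 w
  refine ⟨v, ?_⟩
  ext i
  rw [fderiv_evm]
  have := congrFun hv i
  rw [← this]
  rfl

/-- A nonsingular point gives a local description by a regular smooth map. -/
theorem NonsingAt.exists_local {d : ℕ} (h : NonsingAt d X x) :
    ∃ (c : ℕ) (g : (ι → ℝ) → (Fin c → ℝ)) (U : Set (ι → ℝ)), c + d = Fintype.card ι ∧
      IsOpen U ∧ x ∈ U ∧ ContDiffOn ℝ ∞ g U ∧ (∀ y ∈ U, y ∈ X ↔ g y = 0) ∧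
      Function.Surjective (fderiv ℝ g x) := by
  obtain ⟨_, c, f, U, hc, hf, hli, hU, hxU, hloc⟩ := h
  refine ⟨c, evm f, U, hc, hU, hxU, (contDiff_evm f).contDiffOn, ?_, surjective_fderiv_evm f x hli⟩
  intro y hy
  constructor
  · intro hyX
    ext i
    exact hf i y hyX
  · intro h0
    exact hloc y hy fun i => congrFun h0 i

/-- A nonsingular algebraic set is a smooth submanifold. -/
theorem isSubmfd_of_nonsing {d : ℕ} (h : ∀ x ∈ X, NonsingAt d X x) : IsSubmfd d X := fun x hx => (h x hx).exists_local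

theorem IsCNV.isSubmfd {d : ℕ} (h : IsCNV d X) : IsSubmfd d X := isSubmfd_of_nonsing h.2.2

/-- Algebraic sets are closed. -/
theorem IsAlg.isClosed (h : IsAlg X) : IsClosed X := by
  obtain ⟨S, rfl⟩ := h
  have : {x : ι → ℝ | ∀ f ∈ S, eval x f = 0} = ⋂ f ∈ S, {x | eval x f = 0} := by
    ext x
    simp
  rw [this]
  exact isClosed_biInter fun f _ => isClosed_eq (contDiff_eval f (n := 0)).continuous continuous_const

end

section
variable {ι : Type} {Z Y : Set (ι → ℝ)}

theorem subset_zcl : Z ⊆ zcl Z := fun _ hz _ hf => hf _ hz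

theorem isAlg_zcl : IsAlg (zcl Z) := ⟨{f | ∀ z ∈ Z, eval z f = 0}, rfl⟩

theorem zcl_subset (hY : IsAlg Y) (h : Z ⊆ Y) : zcl Z ⊆ Y := by
  obtain ⟨S, rfl⟩ := hY
  intro x hx f hf
  exact hx f fun z hz => h hz f hf

theorem zcl_mono (h : Z ⊆ Y) : zcl Z ⊆ zcl Y := zcl_subset isAlg_zcl (h.trans subset_zcl)

end

end Pool.Agent.Helper79.BP
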