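import Mathlib

/-!
MP_1cfd37_ag. Definitions for the statement `B_p`.

Real algebraic varieties are realised as algebraic subsets of `ℝ^ι`, `ι` a finite index set, and `ℝ^ι` is the type `ι → ℝ`.
Closed smooth manifolds are realised as compact smooth submanifolds of some `ℝ^κ`.
-/

set_option autoImplicit false

namespace Pool.Agent.Helper79.BP

open MvPolynomial
open scoped ContDiff

/-- `X` is an algebraic subset of `ℝ^ι`: the set of common zeros of a set of real polynomials. -/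
def IsAlg {ι : Type} (X : Set (ι → ℝ)) : Prop :=
  ∃ S : Set (MvPolynomial ι ℝ), X = {x | ∀ f ∈ S, eval x f = 0}

/-- The Zariski closure of `Z` in `ℝ^ι`. -/
def zcl {ι : Type} (Z : Set (ι → ℝ)) : Set (ι → ℝ) :=
  {x | ∀ f : MvPolynomial ι ℝ, (∀ z ∈ Z, eval z f = 0) → eval x f = 0}

/-- The algebraic set `X` is nonsingular in dimension `d` at `x` (Jacobian criterion): `x` lies in `X`, and there are
`c = card ι - d` polynomials which vanish on `X`, have linearly independent gradients at `x`, and whose common zeros near `x`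
all lie in `X`. -/
def NonsingAt {ι : Type} [Fintype ι] (d : ℕ) (X : Set (ι → ℝ)) (x : ι → ℝ) : Prop :=
  x ∈ X ∧ ∃ (c : ℕ) (f : Fin c → MvPolynomial ι ℝ) (U : Set (ι → ℝ)), c + d = Fintype.card ι ∧
    (∀ i, ∀ y ∈ X, eval y (f i) = 0) ∧
    LinearIndependent ℝ (fun i : Fin c => fun j : ι => eval x (pderiv j (f i))) ∧
    IsOpen U ∧ x ∈ U ∧ ∀ y ∈ U, (∀ i, eval y (f i) = 0) → y ∈ X

/-- `V` is a compact nonsingular real algebraic variety of pure dimension `n`, given as a subset of `ℝ^ι`. -/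
def IsCNV {ι : Type} [Fintype ι] (n : ℕ) (V : Set (ι → ℝ)) : Prop :=
  IsAlg V ∧ IsCompact V ∧ ∀ x ∈ V, NonsingAt n V x

/-- `M` is a smooth submanifold (without boundary) of `ℝ^ι` of dimension `m`: locally it is the zero set of a smooth map
to `ℝ^c`, `c = card ι - m`, whose derivative is surjective at the point. -/
def IsSubmfd {ι : Type} [Fintype ι] (m : ℕ) (M : Set (ι → ℝ)) : Prop :=
  ∀ x ∈ M, ∃ (c : ℕ) (g : (ι → ℝ) → (Fin c → ℝ)) (U : Set (ι → ℝ)), c + m = Fintype.card ι ∧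
    IsOpen U ∧ x ∈ U ∧ ContDiffOn ℝ ∞ g U ∧ (∀ y ∈ U, y ∈ M ↔ g y = 0) ∧
    Function.Surjective (fderiv ℝ g x)

/-- `v` is a tangent vector at `x` of the submanifold `X`: it is killed by the differential at `x` of every smooth
function which vanishes on `X`. -/
def Tan {ι : Type} [Fintype ι] (X : Set (ι → ℝ)) (x v : ι → ℝ) : Prop :=
  ∀ h : (ι → ℝ) → ℝ, ContDiff ℝ ∞ h → (∀ y ∈ X, h y = 0) → fderiv ℝ h x v = 0

/-- The normal bundle `T_x V / T_x M`, `x ∈ M`, of `M` in `V` is trivial of rank `p`: there are linear maps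
`L_x : ℝ^ι → ℝ^p`, continuous in `x ∈ M`, zero on `T_x M` and onto on `T_x V` (the codimension of `M` in `V` is `p`, so `L_x`
is an isomorphism from `T_x V / T_x M` onto `ℝ^p`). -/
def TrivNormal {ι : Type} [Fintype ι] (p : ℕ) (V M : Set (ι → ℝ)) : Prop :=
  ∃ L : (ι → ℝ) → ((ι → ℝ) →L[ℝ] (Fin p → ℝ)), ContinuousOn L M ∧
    ∀ x ∈ M, (∀ v, Tan M x v → L x v = 0) ∧ ∀ w : Fin p → ℝ, ∃ v, Tan V x v ∧ L x v = w

/-- A singular `m`-manifold of `V`: a closed smooth `m`-manifold `X`, realised as a compact submanifold of some `ℝ^κ`, with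
a continuous map `f : X → V`. -/
structure Sing {ι : Type} (V : Set (ι → ℝ)) (m : ℕ) : Type 1 where
  /-- the index set of the ambient space of `X` -/
  κ : Type
  /-- it is finite -/
  fin : Fintype κ
  /-- the manifold -/
  X : Set (κ → ℝ)
  /-- the map -/
  f : (κ → ℝ) → (ι → ℝ)
  compact : IsCompact X
  submfd : IsSubmfd m X
  cont : ContinuousOn f X
  maps : Set.MapsTo f X V

/-- `a` is a diffeomorphism of `X` onto `Y`: it is smooth, maps `X` to `Y`, and has a smooth inverse `b : Y → X`. -/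
def IsDiffeo {κ ν : Type} [Fintype κ] [Fintype ν] (a : (κ → ℝ) → (ν → ℝ)) (X : Set (κ → ℝ)) (Y : Set (ν → ℝ)) :
    Prop :=
  ContDiff ℝ ∞ a ∧ Set.MapsTo a X Y ∧ ∃ b : (ν → ℝ) → (κ → ℝ), ContDiff ℝ ∞ b ∧ Set.MapsTo b Y X ∧
    (∀ x ∈ X, b (a x) = x) ∧ ∀ y ∈ Y, a (b y) = y

/-- An (unoriented) bordism between the singular manifolds `A` and `B` of `V`: a smooth manifold `W ⊆ ℝ^ν` of dimension
`m + 1` and a smooth function `τ` with regular values `0` and `1` on `W`, such that `W ∩ {0 ≤ τ ≤ 1}` is compact (so it is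
a compact manifold with boundary `(W ∩ {τ = 0}) ⊔ (W ∩ {τ = 1})`), a continuous map `F` from `W ∩ {0 ≤ τ ≤ 1}` to `V`, and
identifications of the two parts of the boundary, with the restrictions of `F`, with `A` and `B`. -/
def Bord {ι : Type} {V : Set (ι → ℝ)} {m : ℕ} (A B : Sing V m) : Prop :=
  letI := A.fin
  letI := B.fin
  ∃ (ν : Type) (_ : Fintype ν) (W : Set (ν → ℝ)) (τ : (ν → ℝ) → ℝ) (F : (ν → ℝ) → (ι → ℝ)),
    IsSubmfd (m + 1) W ∧ ContDiff ℝ ∞ τ ∧
    (∀ x ∈ W, τ x = 0 ∨ τ x = 1 → ∃ v, Tan W x v ∧ fderiv ℝ τ x v ≠ 0) ∧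
    IsCompact {x ∈ W | 0 ≤ τ x ∧ τ x ≤ 1} ∧ ContinuousOn F {x ∈ W | 0 ≤ τ x ∧ τ x ≤ 1} ∧
    Set.MapsTo F {x ∈ W | 0 ≤ τ x ∧ τ x ≤ 1} V ∧
    (∃ a : (A.κ → ℝ) → (ν → ℝ), IsDiffeo a A.X {x ∈ W | τ x = 0} ∧ ∀ x ∈ A.X, F (a x) = A.f x) ∧
    ∃ b : (B.κ → ℝ) → (ν → ℝ), IsDiffeo b B.X {x ∈ W | τ x = 1} ∧ ∀ x ∈ B.X, F (b x) = B.f x

/-- `f` is a regular map from the algebraic set `X ⊆ ℝ^κ` to `ℝ^ι`. -/
def IsRegMap {κ ι : Type} (X : Set (κ → ℝ)) (f : (κ → ℝ) → (ι → ℝ)) : Prop :=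
  ∃ (P : ι → MvPolynomial κ ℝ) (Q : MvPolynomial κ ℝ), ∀ x ∈ X, eval x Q ≠ 0 ∧
    ∀ i, f x i = eval x (P i) / eval x Q

/-- The bordism class of `A` in `𝔑_m(V)` is algebraic: `A` is bordant to a regular map `N → V` from a compact nonsingular
real algebraic variety `N` of dimension `m`. Bordism is the equivalence relation generated by `Bord` (two singular manifolds
joined by a finite chain of bordisms are joined by one bordism, by gluing). -/
def AlgClass {ι : Type} {V : Set (ι → ℝ)} {m : ℕ} (A : Sing V m) : Prop :=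
  ∃ N : Sing V m, (letI := N.fin; IsCNV m N.X) ∧ IsRegMap N.X N.f ∧ Relation.EqvGen Bord A N

/-- The inclusion of a compact submanifold `M ⊆ V`. -/
def incl {ι : Type} [Fintype ι] (V M : Set (ι → ℝ)) (m : ℕ) (hc : IsCompact M) (hs : IsSubmfd m M) (hMV : M ⊆ V) :
    Sing V m :=
  ⟨ι, inferInstance, M, id, hc, hs, continuousOn_id, fun _ hx => hMV hx⟩

/-- `Z` is an NZ-subvariety of dimension `m`: it is Zariski open in its Zariski closure and it is the set of points where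
its Zariski closure is nonsingular in dimension `m`. -/
def IsNZ {ι : Type} [Fintype ι] (m : ℕ) (Z : Set (ι → ℝ)) : Prop :=
  IsAlg (zcl Z \ Z) ∧ ∀ x, x ∈ Z ↔ NonsingAt m (zcl Z) x

/-- The `m`-dimensional compact submanifold `M ⊆ V` is ε-isotopic to an NZ-subvariety of `V`: for every `r` and `ε` there is
a smooth family `φ_t`, `0 ≤ t ≤ 1`, of maps `ℝ^ι → ℝ^ι`, all of them `ε`-close to the identity together with their partial
derivatives of order at most `r`, with `φ_t(M) ⊆ V`, `φ_0 = id` on `M`, and `φ_1(M)` an NZ-subvariety. (As `M` is compact,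
the restrictions of such families to `M` are the smooth families of maps `M → V` close to the inclusion in the `C^r`
topology; for `r ≥ 1` and `ε < 1` each `φ_t` is a diffeomorphism of `ℝ^ι`, so `φ_t : M → V` is an isotopy of
embeddings.) -/
def EpsIsotopic {ι : Type} [Fintype ι] (m : ℕ) (V M : Set (ι → ℝ)) : Prop :=
  ∀ (r : ℕ) (ε : ℝ), 0 < ε → ∃ φ : ℝ × (ι → ℝ) → (ι → ℝ), ContDiff ℝ ∞ φ ∧
    (∀ t ∈ Set.Icc (0 : ℝ) 1, ∀ x, ∀ j ≤ r, ‖iteratedFDeriv ℝ j (fun y => φ (t, y) - y) x‖ ≤ ε) ∧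
    (∀ t ∈ Set.Icc (0 : ℝ) 1, ∀ x ∈ M, φ (t, x) ∈ V) ∧ (∀ x ∈ M, φ (0, x) = x) ∧
    IsNZ m ((fun x => φ (1, x)) '' M)

/-- The statement `B_p`. -/
def B (p : ℕ) : Prop :=
  ∀ (ι : Type) [Fintype ι] (m : ℕ) (V M : Set (ι → ℝ)), IsCNV (m + p) V →
    ∀ (hc : IsCompact M) (hs : IsSubmfd m M) (hMV : M ⊆ V), TrivNormal p V M →
      AlgClass (incl V M m hc hs hMV) → EpsIsotopic m V M

end Pool.Agent.Helper79.BP
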