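import Pool.Agent.Helper79.BP.KitK2

/-!
PROJECT BP, bordism kit 5: sums and unions. All three bordisms come from `bord_of_diffeo`.

`sum_comm_bord`: `(x, y, l) ↦ (y, x, 1 - l)`. `sum_nil_bord`: `(x, -, l) ↦ x`, inverse `x ↦ in1 x`.
`incl_union_bord`: let `χ` be a smooth function, `0` on `M` and `1` on `N` (disjoint compact sets; for instance `exists_contMDiff_zero_iff_one_iff_of_isClosed` or
`exists_contDiff_...`); the map `x ↦ ((1 - χ x) x, χ x • x, χ x)`, inverse `(x, y, l) ↦ x + y`.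
-/

set_option autoImplicit false

namespace Pool.Agent.Helper79.BP

open MvPolynomial Filter
open scoped ContDiff Topology

section
variable {ι : Type} {V : Set (ι → ℝ)} {m : ℕ}

private theorem sum_f_in1 (A B : Sing V m) (x : A.κ → ℝ) :
    (A.sum B).f (in1 (κ' := B.κ) x) = A.f x := by
  have h : (if (in1 (κ' := B.κ) x) (Sum.inr (Sum.inr ())) < 1 / 2 then
      A.f (fun i => in1 (κ' := B.κ) x (Sum.inl i))
      else B.f (fun j => in1 (κ' := B.κ) x (Sum.inr (Sum.inl j)))) = A.f x :=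
    if_pos (by simp [in1])
  exact h

private theorem sum_f_in2 (A B : Sing V m) (y : B.κ → ℝ) :
    (A.sum B).f (in2 (κ := A.κ) y) = B.f y := by
  have h : (if (in2 (κ := A.κ) y) (Sum.inr (Sum.inr ())) < 1 / 2 then
      A.f (fun i => in2 (κ := A.κ) y (Sum.inl i))
      else B.f (fun j => in2 (κ := A.κ) y (Sum.inr (Sum.inl j)))) = B.f y :=
    if_neg (by simp [in2]; norm_num)
  exact h

private theorem contDiff_in1 {κ κ' : Type} [Fintype κ] [Fintype κ'] :
    ContDiff ℝ ∞ (in1 (κ := κ) (κ' := κ')) := by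
  refine contDiff_pi.2 fun i => ?_
  rcases i with i | i
  · exact contDiff_apply ℝ ℝ i
  · exact contDiff_const

/-- Exchange of the two parts. -/
private def swp {κ κ' : Type} (z : κ ⊕ κ' ⊕ Unit → ℝ) : κ' ⊕ κ ⊕ Unit → ℝ :=
  Sum.elim (fun j => z (Sum.inr (Sum.inl j)))
    (Sum.elim (fun i => z (Sum.inl i)) (fun _ => 1 - z (Sum.inr (Sum.inr ()))))

private theorem swp_swp {κ κ' : Type} (z : κ ⊕ κ' ⊕ Unit → ℝ) : swp (swp z) = z := by
  funext i
  rcases i with i | i | i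
  · rfl
  · rfl
  · show 1 - (1 - z (Sum.inr (Sum.inr ()))) = z (Sum.inr (Sum.inr i))
    ring

private theorem swp_in1 {κ κ' : Type} (x : κ → ℝ) : swp (in1 (κ' := κ') x) = in2 x := by
  funext i
  rcases i with i | i | i
  · rfl
  · rfl
  · show 1 - (0 : ℝ) = 1
    ring

private theorem swp_in2 {κ κ' : Type} (y : κ' → ℝ) : swp (in2 (κ := κ) y) = in1 y := by
  funext i
  rcases i with i | i | i
  · rfl
  · rfl
  · show 1 - (1 : ℝ) = 0
    ring

private theorem contDiff_swp {κ κ' : Type} [Fintype κ] [Fintype κ'] :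
    ContDiff ℝ ∞ (swp (κ := κ) (κ' := κ')) := by
  refine contDiff_pi.2 fun i => ?_
  rcases i with i | i | i
  · exact contDiff_apply ℝ ℝ _
  · exact contDiff_apply ℝ ℝ _
  · exact contDiff_const.sub (contDiff_apply ℝ ℝ (Sum.inr (Sum.inr ()) : κ ⊕ κ' ⊕ Unit))

private theorem swp_maps (A B : Sing V m) :
    Set.MapsTo (swp (κ := A.κ) (κ' := B.κ)) (A.sum B).X (B.sum A).X := by
  rintro _ (⟨x, hx, rfl⟩ | ⟨y, hy, rfl⟩)
  · exact Or.inr ⟨x, hx, (swp_in1 x).symm⟩
  · exact Or.inl ⟨y, hy, (swp_in2 y).symm⟩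

theorem sum_comm_bord (A B : Sing V m) : Bord (A.sum B) (B.sum A) := by
  refine bord_of_diffeo (A.sum B) (B.sum A) (swp (κ := A.κ) (κ' := B.κ)) ?_ ?_
  · exact ⟨contDiff_swp, swp_maps A B, swp (κ := B.κ) (κ' := A.κ), contDiff_swp, swp_maps B A,
      fun x _ => swp_swp x, fun y _ => swp_swp y⟩
  · rintro _ (⟨x, hx, rfl⟩ | ⟨y, hy, rfl⟩)
    · rw [swp_in1]
      exact (sum_f_in1 A B x).trans (sum_f_in2 B A x).symm
    · rw [swp_in2]
      exact (sum_f_in2 A B y).trans (sum_f_in1 B A y).symm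

theorem sum_nil_bord (A : Sing V m) : Bord (A.sum (Sing.nil V m)) A := by
  refine bord_of_diffeo (A.sum (Sing.nil V m)) A
    (fun z : A.κ ⊕ Empty ⊕ Unit → ℝ => fun i => z (Sum.inl i)) ?_ ?_
  · refine ⟨contDiff_pi.2 fun i => contDiff_apply ℝ ℝ _, ?_, in1 (κ' := Empty), contDiff_in1, ?_,
      ?_, ?_⟩
    · rintro _ (⟨x, hx, rfl⟩ | ⟨y, hy, rfl⟩)
      · exact hx
      · exact hy.elim
    · intro x hx
      exact Or.inl ⟨x, hx, rfl⟩
    · rintro _ (⟨x, hx, rfl⟩ | ⟨y, hy, rfl⟩)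
      · rfl
      · exact hy.elim
    · intro x _
      rfl
  · rintro _ (⟨x, hx, rfl⟩ | ⟨y, hy, rfl⟩)
    · exact sum_f_in1 A (Sing.nil V m) x
    · exact hy.elim

/-- The union of two disjoint compact submanifolds of `V`. -/
theorem incl_union_bord {ι : Type} [Fintype ι] {V : Set (ι → ℝ)} {M N : Set (ι → ℝ)} (hMc : IsCompact M) (hNc : IsCompact N)
    (hM : IsSubmfd m M) (hN : IsSubmfd m N) (hMV : M ⊆ V) (hNV : N ⊆ V) (hd : Disjoint M N)
    (hUc : IsCompact (M ∪ N)) (hU : IsSubmfd m (M ∪ N)) (hUV : M ∪ N ⊆ V) :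
    Bord (incl V (M ∪ N) m hUc hU hUV) ((incl V M m hMc hM hMV).sum (incl V N m hNc hN hNV)) := by
  obtain ⟨χ, hχ0, hχ1, -⟩ := exists_contMDiffMap_zero_one_of_isClosed
    (modelWithCornersSelf ℝ (ι → ℝ)) (n := (⊤ : ℕ∞)) hMc.isClosed hNc.isClosed hd
  have hχ : ContDiff ℝ ∞ (fun x => χ x) := χ.contMDiff.contDiff
  have h0 : ∀ x ∈ M, χ x = 0 := fun x hx => hχ0 hx
  have h1 : ∀ x ∈ N, χ x = 1 := fun x hx => hχ1 hx
  let a : (ι → ℝ) → (ι ⊕ ι ⊕ Unit → ℝ) := fun x =>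
    Sum.elim (fun i => (1 - χ x) * x i) (Sum.elim (fun i => χ x * x i) (fun _ => χ x))
  have hac : ContDiff ℝ ∞ a := by
    refine contDiff_pi.2 fun i => ?_
    rcases i with i | i | i
    · exact (contDiff_const.sub hχ).mul (contDiff_apply ℝ ℝ i)
    · exact hχ.mul (contDiff_apply ℝ ℝ i)
    · exact hχ
  have haM : ∀ x ∈ M, a x = in1 x := by
    intro x hx
    funext i
    rcases i with i | i | i
    · show (1 - χ x) * x i = x i
      rw [h0 x hx]
      ring
    · show χ x * x i = 0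
      rw [h0 x hx]
      ring
    · exact h0 x hx
  have haN : ∀ x ∈ N, a x = in2 x := by
    intro x hx
    funext i
    rcases i with i | i | i
    · show (1 - χ x) * x i = 0
      rw [h1 x hx]
      ring
    · show χ x * x i = x i
      rw [h1 x hx]
      ring
    · exact h1 x hx
  let b : (ι ⊕ ι ⊕ Unit → ℝ) → (ι → ℝ) := fun z i => z (Sum.inl i) + z (Sum.inr (Sum.inl i))
  have hb1 : ∀ x : ι → ℝ, b (in1 x) = x := by
    intro x
    funext i
    show x i + 0 = x i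
    ring
  have hb2 : ∀ x : ι → ℝ, b (in2 x) = x := by
    intro x
    funext i
    show 0 + x i = x i
    ring
  have hbMN : ∀ z ∈ (in1 '' M ∪ in2 '' N : Set (ι ⊕ ι ⊕ Unit → ℝ)),
      b z ∈ M ∪ N ∧ a (b z) = z := by
    rintro _ (⟨x, hx, rfl⟩ | ⟨x, hx, rfl⟩)
    · rw [hb1]
      exact ⟨Or.inl hx, haM x hx⟩
    · rw [hb2]
      exact ⟨Or.inr hx, haN x hx⟩
  refine bord_of_diffeo (incl V (M ∪ N) m hUc hU hUV)
    ((incl V M m hMc hM hMV).sum (incl V N m hNc hN hNV)) a ?_ ?_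
  · refine ⟨hac, ?_, b, ?_, fun z hz => (hbMN z hz).1, ?_, fun z hz => (hbMN z hz).2⟩
    · rintro x (hx | hx)
      · rw [haM x hx]
        exact Or.inl ⟨x, hx, rfl⟩
      · rw [haN x hx]
        exact Or.inr ⟨x, hx, rfl⟩
    · exact contDiff_pi.2 fun i => (contDiff_apply ℝ ℝ _).add (contDiff_apply ℝ ℝ _)
    · rintro x (hx | hx)
      · rw [haM x hx, hb1]
      · rw [haN x hx, hb2]
  · rintro x (hx | hx)
    · rw [haM x hx]
      exact (sum_f_in1 (incl V M m hMc hM hMV) (incl V N m hNc hN hNV) x).symm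
    · rw [haN x hx]
      exact (sum_f_in2 (incl V M m hMc hM hMV) (incl V N m hNc hN hNV) x).symm

end

end Pool.Agent.Helper79.BP
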