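import Pool.Agent.Helper79.BP.KitK3
import Pool.Agent.Helper79.BP.KitK4

/-!
PROJECT BP, bordism kit 6: adding a common part (collection of the kit).
-/

set_option autoImplicit false

namespace Pool.Agent.Helper79.BP

open MvPolynomial Filter
open scoped ContDiff Topology

section
variable {ι : Type} {V : Set (ι → ℝ)} {m : ℕ}

theorem sum_eqv_left {A A' : Sing V m} (B : Sing V m) (h : Relation.EqvGen Bord A A') :
    Relation.EqvGen Bord (A.sum B) (A'.sum B) := by
  induction h with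
  | rel _ _ h => exact Relation.EqvGen.rel _ _ (sum_bord_left B h)
  | refl _ => exact Relation.EqvGen.refl _
  | symm _ _ _ ih => exact Relation.EqvGen.symm _ _ ih
  | trans _ _ _ _ _ ih1 ih2 => exact Relation.EqvGen.trans _ _ _ ih1 ih2

/-- A common part may be added. -/
theorem incl_union_eqv {ι : Type} [Fintype ι] {V : Set (ι → ℝ)} {M N N' : Set (ι → ℝ)} (hMc : IsCompact M)
    (hM : IsSubmfd m M) (hMV : M ⊆ V) (hNc : IsCompact N) (hN : IsSubmfd m N) (hNV : N ⊆ V)
    (hNc' : IsCompact N') (hN' : IsSubmfd m N') (hNV' : N' ⊆ V) (hd : Disjoint M N) (hd' : Disjoint M N')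
    (h : Relation.EqvGen Bord (incl V N m hNc hN hNV) (incl V N' m hNc' hN' hNV'))
    (hUc : IsCompact (M ∪ N)) (hU : IsSubmfd m (M ∪ N)) (hUV : M ∪ N ⊆ V)
    (hUc' : IsCompact (M ∪ N')) (hU' : IsSubmfd m (M ∪ N')) (hUV' : M ∪ N' ⊆ V) :
    Relation.EqvGen Bord (incl V (M ∪ N) m hUc hU hUV) (incl V (M ∪ N') m hUc' hU' hUV') := by
  have h1 := incl_union_bord hMc hNc hM hN hMV hNV hd hUc hU hUV
  have h2 := incl_union_bord hMc hNc' hM hN' hMV hNV' hd' hUc' hU' hUV'
  have h3 := sum_comm_bord (incl V M m hMc hM hMV) (incl V N m hNc hN hNV)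
  have h4 := sum_comm_bord (incl V M m hMc hM hMV) (incl V N' m hNc' hN' hNV')
  have h5 := sum_eqv_left (incl V M m hMc hM hMV) h
  exact Relation.EqvGen.trans _ _ _ (Relation.EqvGen.rel _ _ h1) (Relation.EqvGen.trans _ _ _ (Relation.EqvGen.rel _ _ h3)
    (Relation.EqvGen.trans _ _ _ h5 (Relation.EqvGen.trans _ _ _ (Relation.EqvGen.symm _ _ (Relation.EqvGen.rel _ _ h4))
      (Relation.EqvGen.symm _ _ (Relation.EqvGen.rel _ _ h2)))))

end

end Pool.Agent.Helper79.BP
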