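import Pool.Agent.Helper79.BP.KitC

/-!
PROJECT BP, kit: regular zero sets in a submanifold.
-/

set_option autoImplicit false

namespace Pool.Agent.Helper79.BP

open MvPolynomial Filter
open scoped ContDiff Topology

section
variable {ι : Type} [Fintype ι] {x v : ι → ℝ}

theorem contDiffOn_append {a b : ℕ} {U : Set (ι → ℝ)} {g : (ι → ℝ) → (Fin a → ℝ)} {h : (ι → ℝ) → (Fin b → ℝ)}
    (hg : ContDiffOn ℝ ∞ g U) (hh : ContDiffOn ℝ ∞ h U) :
    ContDiffOn ℝ ∞ (fun y => Fin.append (g y) (h y)) U := by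
  rw [contDiffOn_pi] at hg hh ⊢
  intro i
  refine Fin.addCases (fun j => ?_) (fun j => ?_) i
  · simpa using hg j
  · simpa using hh j

theorem fderiv_append {a b : ℕ} {g : (ι → ℝ) → (Fin a → ℝ)} {h : (ι → ℝ) → (Fin b → ℝ)}
    (hg : DifferentiableAt ℝ g x) (hh : DifferentiableAt ℝ h x) (v : ι → ℝ) :
    fderiv ℝ (fun y => Fin.append (g y) (h y)) x v = Fin.append (fderiv ℝ g x v) (fderiv ℝ h x v) := by
  have hd : DifferentiableAt ℝ (fun y => Fin.append (g y) (h y)) x := by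
    rw [differentiableAt_pi] at hg hh ⊢
    intro i
    refine Fin.addCases (fun j => ?_) (fun j => ?_) i
    · simpa using hg j
    · simpa using hh j
  ext i
  have h1 : fderiv ℝ (fun y => Fin.append (g y) (h y)) x v i = fderiv ℝ (fun y => Fin.append (g y) (h y) i) x v := by
    rw [fderiv_apply hd i]
    rfl
  rw [h1]
  refine Fin.addCases (fun j => ?_) (fun j => ?_) i
  · simp only [Fin.append_left]
    rw [fderiv_apply hg j]
    rfl
  · simp only [Fin.append_right]
    rw [fderiv_apply hh j]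
    rfl

/-- The set of zeros in `V` of a map to `ℝ^p` whose differential is onto on the tangent spaces of `V`. -/
theorem IsSubmfd.zeros {m p : ℕ} {V : Set (ι → ℝ)} (hV : IsSubmfd (m + p) V) {O : Set (ι → ℝ)} (hO : IsOpen O)
    {g : (ι → ℝ) → (Fin p → ℝ)} (hg : ContDiffOn ℝ ∞ g O)
    (hs : ∀ x ∈ V, x ∈ O → g x = 0 → ∀ w, ∃ v, Tan V x v ∧ fderiv ℝ g x v = w) :
    IsSubmfd m {x | x ∈ V ∧ x ∈ O ∧ g x = 0} := by
  rintro x ⟨hxV, hxO, hx0⟩
  obtain ⟨c, h, U, hc, hU, hxU, hh, h0, hsu⟩ := hV x hxV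
  have hgd : DifferentiableAt ℝ g x := (hg.contDiffAt (hO.mem_nhds hxO)).differentiableAt (by norm_num)
  have hhd : DifferentiableAt ℝ h x := (hh.contDiffAt (hU.mem_nhds hxU)).differentiableAt (by norm_num)
  refine ⟨c + p, fun y => Fin.append (h y) (g y), U ∩ O, by omega, hU.inter hO, ⟨hxU, hxO⟩,
    contDiffOn_append (hh.mono Set.inter_subset_left) (hg.mono Set.inter_subset_right), ?_, ?_⟩
  · rintro y ⟨hyU, hyO⟩
    constructor
    · rintro ⟨h1, _, h3⟩
      show Fin.append (h y) (g y) = 0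
      rw [(h0 y hyU).1 h1, h3]
      ext i
      refine Fin.addCases (fun j => ?_) (fun j => ?_) i <;> simp
    · intro h1
      refine ⟨(h0 y hyU).2 ?_, hyO, ?_⟩
      · ext j
        have := congrFun h1 (Fin.castAdd p j)
        simpa using this
      · ext j
        have := congrFun h1 (Fin.natAdd c j)
        simpa using this
  · intro w
    obtain ⟨v0, hv0⟩ := hsu (fun j => w (Fin.castAdd p j))
    obtain ⟨v1, hv1, hv1'⟩ := hs x hxV hxO hx0 ((fun j => w (Fin.natAdd c j)) - fderiv ℝ g x v0)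
    refine ⟨v0 + v1, ?_⟩
    rw [fderiv_append hhd hgd, map_add, map_add, hv0, hv1', (tan_iff hU hxU hh h0 hxV hsu).1 hv1]
    ext i
    refine Fin.addCases (fun j => ?_) (fun j => ?_) i <;> simp

/-- The tangent vectors of a regular zero set in `V`. -/
theorem tan_zeros_iff {m p : ℕ} {V : Set (ι → ℝ)} (hV : IsSubmfd (m + p) V) {O : Set (ι → ℝ)} (hO : IsOpen O)
    {g : (ι → ℝ) → (Fin p → ℝ)} (hg : ContDiffOn ℝ ∞ g O)
    (hs : ∀ x ∈ V, x ∈ O → g x = 0 → ∀ w, ∃ v, Tan V x v ∧ fderiv ℝ g x v = w)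
    (hxV : x ∈ V) (hxO : x ∈ O) (hx0 : g x = 0) :
    Tan {x | x ∈ V ∧ x ∈ O ∧ g x = 0} x v ↔ Tan V x v ∧ fderiv ℝ g x v = 0 := by
  constructor
  · intro h
    exact ⟨h.mono fun y hy => hy.1, h.ker hO hxO hg fun y _ hyX => hyX.2.2⟩
  · rintro ⟨h1, h2⟩
    obtain ⟨c, h, U, hc, hU, hxU, hh, h0, hsu⟩ := hV x hxV
    have hgd : DifferentiableAt ℝ g x := (hg.contDiffAt (hO.mem_nhds hxO)).differentiableAt (by norm_num)
    have hhd : DifferentiableAt ℝ h x := (hh.contDiffAt (hU.mem_nhds hxU)).differentiableAt (by norm_num)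
    have hxUO : x ∈ U ∩ O := ⟨hxU, hxO⟩
    have hxm : x ∈ {x | x ∈ V ∧ x ∈ O ∧ g x = 0} := ⟨hxV, hxO, hx0⟩
    refine (tan_iff (g := fun y => Fin.append (h y) (g y)) (hU.inter hO) hxUO
      (contDiffOn_append (hh.mono Set.inter_subset_left) (hg.mono Set.inter_subset_right))
      ?_ hxm ?_).2 ?_
    · rintro y ⟨hyU, hyO⟩
      constructor
      · rintro ⟨h1, _, h3⟩
        show Fin.append (h y) (g y) = 0
        rw [(h0 y hyU).1 h1, h3]
        ext i
        refine Fin.addCases (fun j => ?_) (fun j => ?_) i <;> simp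
      · intro h1
        refine ⟨(h0 y hyU).2 ?_, hyO, ?_⟩
        · ext j
          have := congrFun h1 (Fin.castAdd p j)
          simpa using this
        · ext j
          have := congrFun h1 (Fin.natAdd c j)
          simpa using this
    · intro w
      obtain ⟨v0, hv0⟩ := hsu (fun j => w (Fin.castAdd p j))
      obtain ⟨v1, hv1, hv1'⟩ := hs x hxV hxO hx0 ((fun j => w (Fin.natAdd c j)) - fderiv ℝ g x v0)
      refine ⟨v0 + v1, ?_⟩
      rw [fderiv_append hhd hgd, map_add, map_add, hv0, hv1', (tan_iff hU hxU hh h0 hxV hsu).1 hv1]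
      ext i
      refine Fin.addCases (fun j => ?_) (fun j => ?_) i <;> simp
    · rw [fderiv_append hhd hgd, (tan_iff hU hxU hh h0 hxV hsu).1 h1, h2]
      ext i
      refine Fin.addCases (fun j => ?_) (fun j => ?_) i <;> simp

end

end Pool.Agent.Helper79.BP
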