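import Pool.Agent.Helper79.BP.KitH2

/-!
PROJECT BP, bordism kit 1: homotopic singular manifolds are bordant.

PROOF. `W = prd A.X univ ⊆ ℝ^(A.κ ⊕ Unit)` (`IsSubmfd.prod`, `isSubmfd_univ`), `τ z = z (inr ())`, `F z = H (τ z) (z ∘ inl)`. `τ` is a linear function and
the vector `(0, 1)` is tangent to `W` (curve `t ↦ z + t (0, 1)`, `tan_of_curve`), so every value is regular. `{z ∈ W | 0 ≤ τ z ≤ 1}` is compact (`A.X` is
compact, `isCompact_prd` with `{s | 0 ≤ s () ≤ 1}`). The part `τ = 0` is identified with `A.X` by `x ↦ (x, 0)`, inverse `z ↦ z ∘ inl`; the part `τ = 1`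
with `B.X` by `y ↦ (b y, 1)`, inverse `z ↦ a (z ∘ inl)`, where `b` is the smooth inverse of `a`.
-/

set_option autoImplicit false

namespace Pool.Agent.Helper79.BP

open MvPolynomial Filter
open scoped ContDiff Topology

attribute [instance] Sing.fin

theorem bord_of_homotopy {ι : Type} {V : Set (ι → ℝ)} {m : ℕ} (A B : Sing V m) (a : (A.κ → ℝ) → (B.κ → ℝ))
    (ha : IsDiffeo a A.X B.X) (H : ℝ → (A.κ → ℝ) → (ι → ℝ))
    (hH : ContinuousOn (fun z : ℝ × (A.κ → ℝ) => H z.1 z.2) (Set.Icc 0 1 ×ˢ A.X))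
    (hHV : ∀ t ∈ Set.Icc (0 : ℝ) 1, ∀ x ∈ A.X, H t x ∈ V) (h0 : ∀ x ∈ A.X, H 0 x = A.f x)
    (h1 : ∀ x ∈ A.X, H 1 x = B.f (a x)) : Bord A B := by
  obtain ⟨hac, ham, b, hbc, hbm, hba, hab⟩ := ha
  have hWS : IsSubmfd (m + 1) (prd A.X (Set.univ : Set (Unit → ℝ))) := by
    have h := IsSubmfd.prod A.submfd (isSubmfd_univ (κ := Unit))
    simpa using h
  have hlin : ContDiff ℝ ∞ (fun z : A.κ ⊕ Unit → ℝ => fun i : A.κ => z (Sum.inl i)) :=
    contDiff_pi.2 fun i => contDiff_apply ℝ ℝ (Sum.inl i)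
  have hset : {x : A.κ ⊕ Unit → ℝ | x ∈ prd A.X (Set.univ : Set (Unit → ℝ)) ∧
      0 ≤ x (Sum.inr ()) ∧ x (Sum.inr ()) ≤ 1} =
      prd A.X (Set.Icc (fun _ : Unit => (0 : ℝ)) (fun _ => 1)) := by
    ext z
    constructor
    · rintro ⟨⟨hz, _⟩, h0, h1⟩
      exact ⟨hz, fun _ => h0, fun _ => h1⟩
    · rintro ⟨hz, h0, h1⟩
      exact ⟨⟨hz, trivial⟩, h0 (), h1 ()⟩
  refine ⟨A.κ ⊕ Unit, inferInstance, prd A.X Set.univ, fun z => z (Sum.inr ()),
    fun z => H (z (Sum.inr ())) (fun i => z (Sum.inl i)), hWS, contDiff_apply ℝ ℝ _, ?_, ?_, ?_,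
    ?_, ?_, ?_⟩
  · intro z hz _
    refine ⟨Sum.elim (fun _ => 0) (fun _ => 1), ?_, ?_⟩
    · refine tan_of_curve (γ := fun t => z + t • Sum.elim (fun _ => (0 : ℝ)) (fun _ => 1)) ?_
        (by simp) (Filter.Eventually.of_forall fun t => ?_)
      · have h := ((hasDerivAt_id (0 : ℝ)).smul_const
          (Sum.elim (fun _ => (0 : ℝ)) (fun _ => 1) : A.κ ⊕ Unit → ℝ)).const_add z
        simpa using h
      · refine ⟨?_, trivial⟩
        have hz1 := hz.1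
        have he : (fun i => (z + t • (Sum.elim (fun _ => (0 : ℝ)) (fun _ => 1) :
            A.κ ⊕ Unit → ℝ)) (Sum.inl i)) = fun i => z (Sum.inl i) := by
          ext i
          simp
        rw [he]
        exact hz1
    · have he : fderiv ℝ (fun z : A.κ ⊕ Unit → ℝ => z (Sum.inr ())) z =
          ContinuousLinearMap.proj (Sum.inr ()) :=
        (ContinuousLinearMap.proj (R := ℝ) (φ := fun _ : A.κ ⊕ Unit => ℝ)
          (Sum.inr ())).hasFDerivAt.fderiv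
      rw [he]
      simp
  · rw [hset]
    exact isCompact_prd A.compact isCompact_Icc
  · refine hH.comp (f := fun z : A.κ ⊕ Unit → ℝ => (z (Sum.inr ()), fun i : A.κ => z (Sum.inl i)))
      ?_ ?_
    · exact ((continuous_apply (Sum.inr ())).prodMk hlin.continuous).continuousOn
    · rintro z ⟨hz, h0, h1⟩
      exact ⟨⟨h0, h1⟩, hz.1⟩
  · rintro z ⟨hz, h0, h1⟩
    exact hHV _ ⟨h0, h1⟩ _ hz.1
  · refine ⟨fun x => Sum.elim x (fun _ => 0), ⟨?_, ?_, fun z i => z (Sum.inl i), hlin, ?_, ?_, ?_⟩,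
      ?_⟩
    · refine contDiff_pi.2 fun i => ?_
      rcases i with i | i
      · exact contDiff_apply ℝ ℝ i
      · exact contDiff_const
    · intro x hx
      exact ⟨⟨hx, trivial⟩, rfl⟩
    · rintro z ⟨hz, _⟩
      exact hz.1
    · intro x _
      rfl
    · rintro z ⟨_, hz⟩
      ext i
      rcases i with i | i
      · rfl
      · exact hz.symm
    · intro x hx
      exact h0 x hx
  · refine ⟨fun y => Sum.elim (b y) (fun _ => 1), ⟨?_, ?_, fun z => a fun i => z (Sum.inl i),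
      hac.comp hlin, ?_, ?_, ?_⟩, ?_⟩
    · refine contDiff_pi.2 fun i => ?_
      rcases i with i | i
      · exact (contDiff_pi.1 hbc) i
      · exact contDiff_const
    · intro y hy
      exact ⟨⟨hbm hy, trivial⟩, rfl⟩
    · rintro z ⟨hz, _⟩
      exact ham hz.1
    · intro y hy
      exact hab y hy
    · rintro z ⟨hz, hz1⟩
      ext i
      rcases i with i | i
      · exact congrFun (hba _ hz.1) i
      · exact hz1.symm
    · intro y hy
      change H 1 (b y) = B.f y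
      rw [h1 _ (hbm hy), hab y hy]

theorem bord_of_diffeo {ι : Type} {V : Set (ι → ℝ)} {m : ℕ} (A B : Sing V m) (a : (A.κ → ℝ) → (B.κ → ℝ))
    (ha : IsDiffeo a A.X B.X) (h1 : ∀ x ∈ A.X, A.f x = B.f (a x)) : Bord A B :=
  bord_of_homotopy A B a ha (fun _ x => A.f x) (A.cont.comp continuousOn_snd fun _ hz => hz.2)
    (fun _ _ _ hx => A.maps hx) (fun _ _ => rfl) h1

theorem isDiffeo_id {κ : Type} [Fintype κ] (X : Set (κ → ℝ)) : IsDiffeo id X X :=
  ⟨contDiff_id, fun _ hx => hx, id, contDiff_id, fun _ hx => hx, fun _ _ => rfl, fun _ _ => rfl⟩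

theorem IsDiffeo.symm {κ ν : Type} [Fintype κ] [Fintype ν] {a : (κ → ℝ) → (ν → ℝ)} {X : Set (κ → ℝ)}
    {Y : Set (ν → ℝ)} (h : IsDiffeo a X Y) : ∃ b : (ν → ℝ) → (κ → ℝ), IsDiffeo b Y X ∧ (∀ x ∈ X, b (a x) = x) ∧
      ∀ y ∈ Y, a (b y) = y := by
  obtain ⟨ha, hm, b, hb, hm', h1, h2⟩ := h
  exact ⟨b, ⟨hb, hm', a, ha, hm, h2, h1⟩, h1, h2⟩

theorem IsDiffeo.trans {κ ν μ : Type} [Fintype κ] [Fintype ν] [Fintype μ] {a : (κ → ℝ) → (ν → ℝ)}
    {a' : (ν → ℝ) → (μ → ℝ)} {X : Set (κ → ℝ)} {Y : Set (ν → ℝ)} {Z : Set (μ → ℝ)} (h : IsDiffeo a X Y)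
    (h' : IsDiffeo a' Y Z) : IsDiffeo (a' ∘ a) X Z := by
  obtain ⟨ha, hm, b, hb, hm', h1, h2⟩ := h
  obtain ⟨ha2, hmm, b2, hb2, hmm', h12, h22⟩ := h'
  refine ⟨ha2.comp ha, hmm.comp hm, b ∘ b2, hb.comp hb2, hm'.comp hmm', ?_, ?_⟩
  · intro x hx
    simp only [Function.comp_apply]
    rw [h12 _ (hm hx), h1 x hx]
  · intro z hz
    simp only [Function.comp_apply]
    rw [h2 _ (hmm' hz), h22 z hz]

end Pool.Agent.Helper79.BP
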