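import Pool.Agent.Helper79.BP.Stat

/-!
PROJECT BP, kit: tangent vectors. Elementary properties of `Tan`.
-/

set_option autoImplicit false

namespace Pool.Agent.Helper79.BP

open MvPolynomial Filter
open scoped ContDiff Topology

section
variable {ι : Type} [Fintype ι] {X Y : Set (ι → ℝ)} {x v w : ι → ℝ}

theorem Tan.zero : Tan X x 0 := fun _ _ _ => map_zero _

theorem Tan.add (hv : Tan X x v) (hw : Tan X x w) : Tan X x (v + w) := fun h hh h0 => by
  rw [map_add, hv h hh h0, hw h hh h0, add_zero]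

theorem Tan.smul (c : ℝ) (hv : Tan X x v) : Tan X x (c • v) := fun h hh h0 => by
  rw [map_smul, hv h hh h0, smul_zero]

/-- The tangent space as a submodule. -/
def tsp (X : Set (ι → ℝ)) (x : ι → ℝ) : Submodule ℝ (ι → ℝ) where
  carrier := {v | Tan X x v}
  add_mem' := fun ha hb => Tan.add ha hb
  zero_mem' := Tan.zero
  smul_mem' := fun c _ hb => Tan.smul c hb

theorem mem_tsp : v ∈ tsp X x ↔ Tan X x v := Iff.rfl

theorem Tan.mono (h : X ⊆ Y) (hv : Tan X x v) : Tan Y x v := fun g hg h0 => hv g hg fun y hy => h0 y (h hy)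

/-- The velocity of a curve in `X` is a tangent vector. -/
theorem tan_of_curve {γ : ℝ → ι → ℝ} (hγ : HasDerivAt γ v 0) (h0 : γ 0 = x) (hX : ∀ᶠ t in 𝓝 0, γ t ∈ X) :
    Tan X x v := by
  intro h hh hz
  have h1 : HasFDerivAt h (fderiv ℝ h x) (γ 0) := by
    rw [h0]
    exact (hh.differentiable (by norm_num) x).hasFDerivAt
  have h2 : HasDerivAt (h ∘ γ) (fderiv ℝ h x v) 0 := h1.comp_hasDerivAt (0 : ℝ) hγ
  have h3 : (h ∘ γ) =ᶠ[𝓝 0] fun _ => (0 : ℝ) := by
    filter_upwards [hX] with t ht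
    exact hz _ ht
  exact h2.unique ((hasDerivAt_const (0 : ℝ) (0 : ℝ)).congr_of_eventuallyEq h3)

/-- A map which is smooth near `x` and vanishes on `X` near `x` kills the tangent vectors. -/
theorem Tan.ker {E : Type*} [NormedAddCommGroup E] [NormedSpace ℝ E] {U : Set (ι → ℝ)} (hU : IsOpen U) (hx : x ∈ U)
    {g : (ι → ℝ) → E} (hg : ContDiffOn ℝ ∞ g U) (h0 : ∀ y ∈ U, y ∈ X → g y = 0) (hv : Tan X x v) :
    fderiv ℝ g x v = 0 := by
  have hmem : U ∈ 𝓝 x := hU.mem_nhds hx
  obtain ⟨χ, hsup, -, hχ, -, hχ1⟩ := exists_contDiff_tsupport_subset (n := ⊤) hmem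
  have hgd : DifferentiableAt ℝ g x := (hg.contDiffAt hmem).differentiableAt (by norm_num)
  have hχd : DifferentiableAt ℝ χ x := hχ.differentiable (by norm_num) x
  -- products with the cut-off function are smooth
  have key : ∀ (L : E →L[ℝ] ℝ) (n : ℕ), 0 < n → L (fderiv ℝ g x v) + n * (fderiv ℝ χ x v * L (g x)) = 0 := by
    intro L n hn
    have hsm : ContDiff ℝ ∞ (fun y => χ y ^ n * L (g y)) := by
      rw [contDiff_iff_contDiffAt]
      intro y
      by_cases hy : y ∈ U
      · exact (hχ.contDiffAt.pow n).mul (L.contDiff.contDiffAt.comp y (hg.contDiffAt (hU.mem_nhds hy)))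
      · have hy' : y ∉ tsupport χ := fun h => hy (hsup h)
        have h1 : (fun z => χ z ^ n * L (g z)) =ᶠ[𝓝 y] fun _ => (0 : ℝ) := by
          filter_upwards [notMem_tsupport_iff_eventuallyEq.1 hy'] with z hz
          rw [hz]
          simp [hn.ne']
        exact contDiffAt_const.congr_of_eventuallyEq h1
    have hvan : ∀ y ∈ X, χ y ^ n * L (g y) = 0 := by
      intro y hy
      by_cases hyU : y ∈ U
      · rw [h0 y hyU hy, map_zero, mul_zero]
      · have : χ y = 0 := by
          by_contra hne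
          exact hyU (hsup (subset_tsupport _ hne))
        rw [this, zero_pow hn.ne', zero_mul]
    have h2 := hv _ hsm hvan
    have h3 : HasFDerivAt (fun y => χ y ^ n * L (g y))
        (χ x ^ n • (L.comp (fderiv ℝ g x)) + L (g x) • ((n * χ x ^ (n - 1)) • fderiv ℝ χ x)) x := by
      have ha : HasFDerivAt (fun y => χ y ^ n) ((n * χ x ^ (n - 1)) • fderiv ℝ χ x) x := by
        have := hχd.hasFDerivAt.pow n
        simpa [nsmul_eq_mul] using this
      have hb : HasFDerivAt (fun y => L (g y)) (L.comp (fderiv ℝ g x)) x :=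
        L.hasFDerivAt.comp x hgd.hasFDerivAt
      exact ha.mul hb
    rw [h3.fderiv] at h2
    simp only [ContinuousLinearMap.add_apply, ContinuousLinearMap.smul_apply, ContinuousLinearMap.comp_apply, hχ1,
      one_pow, smul_eq_mul, one_mul, mul_one] at h2
    rw [← h2]
    ring
  have hall : ∀ L : E →L[ℝ] ℝ, L (fderiv ℝ g x v) = 0 := by
    intro L
    have h1 := key L 1 (by norm_num)
    have h2 := key L 2 (by norm_num)
    push_cast at h1 h2
    linarith
  exact NormedSpace.eq_zero_of_forall_dual_eq_zero ℝ hall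

/-- Smooth maps send tangent vectors to tangent vectors. -/
theorem Tan.map {κ : Type} [Fintype κ] {U : Set (ι → ℝ)} (hU : IsOpen U) (hx : x ∈ U) {Z : Set (κ → ℝ)}
    {g : (ι → ℝ) → (κ → ℝ)} (hg : ContDiffOn ℝ ∞ g U) (h0 : ∀ y ∈ U, y ∈ X → g y ∈ Z) (hv : Tan X x v) :
    Tan Z (g x) (fderiv ℝ g x v) := by
  intro h hh hz
  have h1 : fderiv ℝ (h ∘ g) x v = 0 := by
    refine Tan.ker hU hx (hh.comp_contDiffOn hg) (fun y hy hyX => ?_) hv
    exact hz _ (h0 y hy hyX)
  rw [fderiv_comp x (hh.differentiable (by norm_num) _)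
    ((hg.contDiffAt (hU.mem_nhds hx)).differentiableAt (by norm_num))] at h1
  exact h1

/-- Tangent vectors only depend on the germ of `X`. -/
theorem Tan.germ {U : Set (ι → ℝ)} (hU : IsOpen U) (hx : x ∈ U) (h0 : ∀ y ∈ U, y ∈ X → y ∈ Y) (hv : Tan X x v) :
    Tan Y x v := by
  have h := Tan.map hU hx (Z := Y) (g := id) contDiffOn_id h0 hv
  simpa using h

end

end Pool.Agent.Helper79.BP
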