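import Pool.Agent.Helper79.BP.KitA

/-!
PROJECT BP, kit: tangent vectors of a regular zero set are the kernel of the differential.
-/

set_option autoImplicit false

namespace Pool.Agent.Helper79.BP

open MvPolynomial Filter
open scoped ContDiff Topology

section
variable {ι : Type} [Fintype ι] {X : Set (ι → ℝ)} {x v : ι → ℝ}

/-- Through a regular point of `g = 0` there is a curve in `g = 0` with a given velocity in the kernel. -/
theorem exists_curve {E : Type*} [NormedAddCommGroup E] [NormedSpace ℝ E] [FiniteDimensional ℝ E]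
    {g : (ι → ℝ) → E} (hg : ContDiffAt ℝ ∞ g x) (h0 : g x = 0)
    (hs : Function.Surjective (fderiv ℝ g x)) (hv : fderiv ℝ g x v = 0) :
    ∃ γ : ℝ → ι → ℝ, HasDerivAt γ v 0 ∧ γ 0 = x ∧ ∀ᶠ t in 𝓝 0, g (γ t) = 0 := by
  have hf : HasStrictFDerivAt g (fderiv ℝ g x) x := hg.hasStrictFDerivAt (by norm_num)
  have hr : (fderiv ℝ g x).range = ⊤ := LinearMap.range_eq_top.2 hs
  let φ := hf.implicitFunction g (fderiv ℝ g x) hr (g x)
  let k : (fderiv ℝ g x).ker := ⟨v, hv⟩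
  have h1 : HasStrictFDerivAt φ (fderiv ℝ g x).ker.subtypeL 0 := hf.to_implicitFunction hr
  have hφ0 : φ 0 = x := by
    have := (hf.eq_implicitFunction hr).self_of_nhds
    simpa [φ] using this
  have hl : HasDerivAt (fun t : ℝ => t • k) k 0 := by
    simpa using (hasDerivAt_id (0 : ℝ)).smul_const k
  refine ⟨fun t => φ (t • k), ?_, by simp [hφ0], ?_⟩
  · have h2 : HasFDerivAt φ (fderiv ℝ g x).ker.subtypeL ((0 : ℝ) • k) := by
      rw [zero_smul]
      exact h1.hasFDerivAt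
    have h5 := h2.comp_hasDerivAt (0 : ℝ) hl
    exact h5
  · have h3 := hf.map_implicitFunction_eq hr
    have h4 : Tendsto (fun t : ℝ => (g x, t • k)) (𝓝 0) (𝓝 (g x, 0)) := by
      refine Tendsto.prodMk_nhds tendsto_const_nhds ?_
      have := hl.continuousAt.tendsto
      simpa using this
    filter_upwards [h4.eventually h3] with t ht
    rw [← h0]
    exact ht

/-- Tangent vectors of a regular zero set. -/
theorem tan_iff {E : Type*} [NormedAddCommGroup E] [NormedSpace ℝ E] [FiniteDimensional ℝ E] {U : Set (ι → ℝ)}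
    (hU : IsOpen U) (hx : x ∈ U) {g : (ι → ℝ) → E} (hg : ContDiffOn ℝ ∞ g U)
    (h0 : ∀ y ∈ U, y ∈ X ↔ g y = 0) (hxX : x ∈ X) (hs : Function.Surjective (fderiv ℝ g x)) :
    Tan X x v ↔ fderiv ℝ g x v = 0 := by
  refine ⟨fun h => h.ker hU hx hg fun y hy hyX => (h0 y hy).1 hyX, fun h => ?_⟩
  obtain ⟨γ, h1, h2, h3⟩ := exists_curve (hg.contDiffAt (hU.mem_nhds hx)) ((h0 x hx).1 hxX) hs h
  refine tan_of_curve h1 h2 ?_
  have h4 : ∀ᶠ t in 𝓝 (0 : ℝ), γ t ∈ U := by
    have := h1.continuousAt.tendsto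
    rw [h2] at this
    exact this.eventually (hU.mem_nhds hx)
  filter_upwards [h3, h4] with t ht ht'
  exact (h0 _ ht').2 ht

/-- The dimension of the tangent space of a submanifold. -/
theorem IsSubmfd.finrank_tsp {m : ℕ} (hX : IsSubmfd m X) (hx : x ∈ X) : Module.finrank ℝ (tsp X x) = m := by
  obtain ⟨c, g, U, hc, hU, hxU, hg, h0, hs⟩ := hX x hx
  have h1 : tsp X x = LinearMap.ker (fderiv ℝ g x : (ι → ℝ) →ₗ[ℝ] (Fin c → ℝ)) := by
    ext v
    exact tan_iff hU hxU hg h0 hx hs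
  rw [h1]
  have h2 := LinearMap.finrank_range_add_finrank_ker (fderiv ℝ g x : (ι → ℝ) →ₗ[ℝ] (Fin c → ℝ))
  rw [LinearMap.range_eq_top.2 hs, finrank_top] at h2
  simp only [Module.finrank_fintype_fun_eq_card, Fintype.card_fin] at h2
  omega

/-- A submanifold may be restricted to an open set. -/
theorem IsSubmfd.inter {m : ℕ} (hX : IsSubmfd m X) {O : Set (ι → ℝ)} (hO : IsOpen O) : IsSubmfd m (X ∩ O) := by
  rintro x ⟨hx, hxO⟩
  obtain ⟨c, g, U, hc, hU, hxU, hg, h0, hs⟩ := hX x hx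
  refine ⟨c, g, U ∩ O, hc, hU.inter hO, ⟨hxU, hxO⟩, hg.mono Set.inter_subset_left, ?_, hs⟩
  rintro y ⟨hy, hyO⟩
  rw [← h0 y hy]
  exact ⟨fun h => h.1, fun h => ⟨h, hyO⟩⟩

/-- Being a submanifold is a local property. -/
theorem isSubmfd_of_local {m : ℕ} (h : ∀ x ∈ X, ∃ O : Set (ι → ℝ), IsOpen O ∧ x ∈ O ∧ IsSubmfd m (X ∩ O)) :
    IsSubmfd m X := by
  intro x hx
  obtain ⟨O, hO, hxO, hm⟩ := h x hx
  obtain ⟨c, g, U, hc, hU, hxU, hg, h0, hs⟩ := hm x ⟨hx, hxO⟩
  refine ⟨c, g, U ∩ O, hc, hU.inter hO, ⟨hxU, hxO⟩, hg.mono Set.inter_subset_left, ?_, hs⟩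
  rintro y ⟨hy, hyO⟩
  rw [← h0 y hy]
  exact ⟨fun h => ⟨h, hyO⟩, fun h => h.1⟩

/-- The empty set. -/
theorem isSubmfd_empty (m : ℕ) : IsSubmfd m (∅ : Set (ι → ℝ)) := fun _ hx => hx.elim

/-- The union of two submanifolds of the same dimension, each relatively open. -/
theorem IsSubmfd.union {m : ℕ} {Y : Set (ι → ℝ)} (hX : IsSubmfd m X) (hY : IsSubmfd m Y) {O P : Set (ι → ℝ)}
    (hO : IsOpen O) (hP : IsOpen P) (hXO : X ⊆ O) (hYP : Y ⊆ P) (hYO : Disjoint Y O) (hXP : Disjoint X P) :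
    IsSubmfd m (X ∪ Y) := by
  refine isSubmfd_of_local fun x hx => ?_
  rcases hx with hx | hx
  · refine ⟨O, hO, hXO hx, ?_⟩
    have : (X ∪ Y) ∩ O = X ∩ O := by
      ext y
      constructor
      · rintro ⟨h | h, h'⟩
        · exact ⟨h, h'⟩
        · exact (Set.disjoint_left.1 hYO h h').elim
      · rintro ⟨h, h'⟩
        exact ⟨Or.inl h, h'⟩
    rw [this]
    exact hX.inter hO
  · refine ⟨P, hP, hYP hx, ?_⟩
    have : (X ∪ Y) ∩ P = Y ∩ P := by
      ext y
      constructor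
      · rintro ⟨h | h, h'⟩
        · exact (Set.disjoint_left.1 hXP h h').elim
        · exact ⟨h, h'⟩
      · rintro ⟨h, h'⟩
        exact ⟨Or.inr h, h'⟩
    rw [this]
    exact hY.inter hP

/-- Two disjoint compact submanifolds. -/
theorem IsSubmfd.union_compact {m : ℕ} {Y : Set (ι → ℝ)} (hX : IsSubmfd m X) (hY : IsSubmfd m Y)
    (hXc : IsCompact X) (hYc : IsCompact Y) (h : Disjoint X Y) : IsSubmfd m (X ∪ Y) := by
  obtain ⟨O, P, hO, hP, hXO, hYP, hOP⟩ := SeparatedNhds.of_isCompact_isCompact hXc hYc h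
  exact hX.union hY hO hP hXO hYP (Set.disjoint_of_subset_left hYP hOP.symm) (Set.disjoint_of_subset_left hXO hOP)

end

end Pool.Agent.Helper79.BP
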