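import Pool.Agent.Helper79.BP.KitD

/-!
PROJECT BP, kit: two submanifolds of the same dimension, one contained in the other, agree locally.

PROOF. Near `x`: `A = {a = 0}`, `B = {b = 0}` (`a`, `b` to `ℝ^c`, the same `c`), and `ker db ⊆ ker da` (`Tan.mono`), both of dimension `m`, so both are
the same space `K`. Let `π : ℝ^ι → K` be a continuous linear projection. `(a, π)` and `(b, π) : ℝ^ι → ℝ^c × K` have bijective strict derivatives at `x`
(`HasStrictFDerivAt`, `ContinuousLinearEquiv.ofBijective`). So `(a, π)` is injective on a neighbourhood `N` of `x`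
(`HasStrictFDerivAt.toOpenPartialHomeomorph`), and `(b, π)` maps neighbourhoods of `x` to neighbourhoods of `(0, π x)` (`map_nhds_eq_of_equiv`).
For `y ∈ A` near `x`: `(0, π y)` is near `(0, π x)`, so there is `z ∈ N`, near `x`, with `b z = 0`, `π z = π y`; then `z ∈ B ⊆ A`, `a z = 0 = a y`,
so `z = y` by injectivity, and `y ∈ B`.
-/

set_option autoImplicit false

namespace Pool.Agent.Helper79.BP

open MvPolynomial Filter
open scoped ContDiff Topology

/-- A surjective linear map together with a projection to its kernel is an isomorphism. -/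
private theorem exists_equiv {E F : Type*} [NormedAddCommGroup E] [NormedSpace ℝ E] [CompleteSpace E]
    [NormedAddCommGroup F] [NormedSpace ℝ F] [CompleteSpace F] (d : E →L[ℝ] F) (hs : Function.Surjective d)
    (K : Submodule ℝ E) [CompleteSpace K] (hK : K = LinearMap.ker (d : E →ₗ[ℝ] F)) (π : E →L[ℝ] K)
    (hπ : ∀ k : K, π k = k) : ∃ e : E ≃L[ℝ] (F × K), (e : E →L[ℝ] (F × K)) = d.prod π := by
  have hinj : LinearMap.ker ((d.prod π : E →L[ℝ] (F × K)) : E →ₗ[ℝ] (F × K)) = ⊥ := by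
    rw [LinearMap.ker_eq_bot']
    intro v hv
    have h1 : d v = 0 := congrArg Prod.fst hv
    have h2 : π v = 0 := congrArg Prod.snd hv
    have h3 : v ∈ K := by
      rw [hK]
      exact h1
    have h4 := hπ ⟨v, h3⟩
    have h5 : π v = ⟨v, h3⟩ := h4
    rw [h2] at h5
    exact (congrArg Subtype.val h5).symm
  have hsurj : LinearMap.range ((d.prod π : E →L[ℝ] (F × K)) : E →ₗ[ℝ] (F × K)) = ⊤ := by
    rw [LinearMap.range_eq_top]
    rintro ⟨w, k⟩
    obtain ⟨u, hu⟩ := hs w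
    refine ⟨u + ((k - π u : K) : E), ?_⟩
    have h0 : ∀ v ∈ K, d v = 0 := by
      intro v hv
      rw [hK] at hv
      exact hv
    have h1 : d ((k - π u : K) : E) = 0 := h0 _ (k - π u).2
    show (d (u + ((k - π u : K) : E)), π (u + ((k - π u : K) : E))) = (w, k)
    rw [map_add, map_add, h1, hπ, hu, add_zero]
    simp
  refine ⟨ContinuousLinearEquiv.ofBijective (d.prod π) hinj hsurj, ?_⟩
  exact ContinuousLinearEquiv.coe_ofBijective _ _ _

theorem IsSubmfd.local_eq {ι : Type} [Fintype ι] {m : ℕ} {A B : Set (ι → ℝ)} (hA : IsSubmfd m A) (hB : IsSubmfd m B)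
    (hBA : B ⊆ A) {x : ι → ℝ} (hx : x ∈ B) : ∃ U : Set (ι → ℝ), IsOpen U ∧ x ∈ U ∧ ∀ y ∈ U, y ∈ A → y ∈ B := by
  have hxA : x ∈ A := hBA hx
  have hfa := hA.finrank_tsp hxA
  have hfb := hB.finrank_tsp hx
  obtain ⟨c, a, UA, hc, hUA, hxUA, ha, ha0, has⟩ := hA x hxA
  obtain ⟨c', b, UB, hc', hUB, hxUB, hb, hb0, hbs⟩ := hB x hx
  obtain rfl : c = c' := by omega
  have hle : tsp B x ≤ tsp A x := fun v hv => Tan.mono hBA hv
  have heq : tsp B x = tsp A x := Submodule.eq_of_le_of_finrank_eq hle (by rw [hfa, hfb])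
  have hKA : tsp A x = LinearMap.ker (fderiv ℝ a x : (ι → ℝ) →ₗ[ℝ] (Fin c → ℝ)) := by
    ext v
    exact tan_iff hUA hxUA ha ha0 hxA has
  have hKB : tsp A x = LinearMap.ker (fderiv ℝ b x : (ι → ℝ) →ₗ[ℝ] (Fin c → ℝ)) := by
    rw [← heq]
    ext v
    exact tan_iff hUB hxUB hb hb0 hx hbs
  obtain ⟨p, hp⟩ := LinearMap.exists_leftInverse_of_injective (tsp A x).subtype (Submodule.ker_subtype _)
  let π : (ι → ℝ) →L[ℝ] (tsp A x) := LinearMap.toContinuousLinearMap p
  have hπ : ∀ k : tsp A x, π k = k := fun k => LinearMap.congr_fun hp k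
  obtain ⟨ea, hea⟩ := exists_equiv (fderiv ℝ a x) has (tsp A x) hKA π hπ
  obtain ⟨eb, heb⟩ := exists_equiv (fderiv ℝ b x) hbs (tsp A x) hKB π hπ
  have hda : HasStrictFDerivAt (fun y => (a y, π y)) (ea : (ι → ℝ) →L[ℝ] ((Fin c → ℝ) × (tsp A x))) x := by
    rw [hea]
    exact ((ha.contDiffAt (hUA.mem_nhds hxUA)).hasStrictFDerivAt (by norm_num)).prodMk π.hasStrictFDerivAt
  have hdb : HasStrictFDerivAt (fun y => (b y, π y)) (eb : (ι → ℝ) →L[ℝ] ((Fin c → ℝ) × (tsp A x))) x := by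
    rw [heb]
    exact ((hb.contDiffAt (hUB.mem_nhds hxUB)).hasStrictFDerivAt (by norm_num)).prodMk π.hasStrictFDerivAt
  let H := hda.toOpenPartialHomeomorph (fun y => (a y, π y))
  have hHx : x ∈ H.source := hda.mem_toOpenPartialHomeomorph_source
  have hHinj : Set.InjOn (fun y => (a y, π y)) H.source := by
    have := H.injOn
    simpa [H] using this
  have hN : H.source ∩ UA ∩ UB ∈ 𝓝 x :=
    Filter.inter_mem (Filter.inter_mem (H.open_source.mem_nhds hHx) (hUA.mem_nhds hxUA)) (hUB.mem_nhds hxUB)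
  have hbx : b x = 0 := (hb0 x hxUB).1 hx
  have hmap := hdb.map_nhds_eq_of_equiv
  have himg : (fun y => (b y, π y)) '' (H.source ∩ UA ∩ UB) ∈ 𝓝 ((0 : Fin c → ℝ), π x) := by
    have := Filter.image_mem_map (m := fun y => (b y, π y)) hN
    rw [hmap] at this
    simpa [hbx] using this
  have hcont : Tendsto (fun y => ((0 : Fin c → ℝ), π y)) (𝓝 x) (𝓝 ((0 : Fin c → ℝ), π x)) :=
    tendsto_const_nhds.prodMk_nhds π.continuous.continuousAt
  have hev : ∀ᶠ y in 𝓝 x, ((0 : Fin c → ℝ), π y) ∈ (fun y => (b y, π y)) '' (H.source ∩ UA ∩ UB) ∧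
      y ∈ H.source ∩ UA ∩ UB := (hcont.eventually himg).and hN
  obtain ⟨U, hU1, hU2, hU3⟩ := mem_nhds_iff.1 hev
  refine ⟨U, hU2, hU3, fun y hy hyA => ?_⟩
  obtain ⟨⟨z, ⟨⟨hz1, hz2⟩, hz3⟩, hz4⟩, ⟨hy1, hy2⟩, hy3⟩ := hU1 hy
  have h1 : b z = 0 := congrArg Prod.fst hz4
  have h2 : π z = π y := congrArg Prod.snd hz4
  have h3 : z ∈ B := (hb0 z hz3).2 h1
  have h4 : a z = 0 := (ha0 z hz2).1 (hBA h3)
  have h5 : a y = 0 := (ha0 y hy2).1 hyA
  have h6 : z = y := hHinj hz1 hy1 (by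
    show (a z, π z) = (a y, π y)
    rw [h2, h4, h5])
  rw [← h6]
  exact h3

end Pool.Agent.Helper79.BP
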