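import Pool.Agent.Helper79.BP.KitD

/-!
PROJECT BP, kit: products.

`IsSubmfd.prod`: product of two submanifolds in `ℝ^(κ ⊕ ν)`; local equations: `z ↦ Fin.append (g (z ∘ inl)) (h (z ∘ inr))` (`contDiffOn_append`, `fderiv_append`,
chain rule with the restriction maps, which are continuous linear). `tan_prd_iff`: `tan_iff` for these equations.
-/

set_option autoImplicit false

namespace Pool.Agent.Helper79.BP

open MvPolynomial Filter
open scoped ContDiff Topology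

/-- The product of two subsets, in `ℝ^(κ ⊕ ν)`. -/
def prd {κ ν : Type} (X : Set (κ → ℝ)) (Y : Set (ν → ℝ)) : Set (κ ⊕ ν → ℝ) :=
  {z | (fun i => z (Sum.inl i)) ∈ X ∧ (fun j => z (Sum.inr j)) ∈ Y}

/-- Restriction to the first factor. -/
noncomputable def prdL (κ ν : Type) [Fintype κ] [Fintype ν] : (κ ⊕ ν → ℝ) →L[ℝ] (κ → ℝ) :=
  ContinuousLinearMap.pi fun i => ContinuousLinearMap.proj (Sum.inl i)

/-- Restriction to the second factor. -/
noncomputable def prdR (κ ν : Type) [Fintype κ] [Fintype ν] : (κ ⊕ ν → ℝ) →L[ℝ] (ν → ℝ) :=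
  ContinuousLinearMap.pi fun j => ContinuousLinearMap.proj (Sum.inr j)

theorem prdL_apply {κ ν : Type} [Fintype κ] [Fintype ν] (z : κ ⊕ ν → ℝ) :
    prdL κ ν z = fun i => z (Sum.inl i) := rfl

theorem prdR_apply {κ ν : Type} [Fintype κ] [Fintype ν] (z : κ ⊕ ν → ℝ) :
    prdR κ ν z = fun j => z (Sum.inr j) := rfl

/-- The local equations of a product. -/
theorem prd_local {κ ν : Type} [Fintype κ] [Fintype ν] {X : Set (κ → ℝ)} {Y : Set (ν → ℝ)} {z : κ ⊕ ν → ℝ}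
    {c d : ℕ} {g : (κ → ℝ) → (Fin c → ℝ)} {h : (ν → ℝ) → (Fin d → ℝ)} {U : Set (κ → ℝ)} {W : Set (ν → ℝ)}
    (hU : IsOpen U) (hW : IsOpen W) (hzU : (fun i => z (Sum.inl i)) ∈ U) (hzW : (fun j => z (Sum.inr j)) ∈ W)
    (hg : ContDiffOn ℝ ∞ g U) (hh : ContDiffOn ℝ ∞ h W) (hgX : ∀ y ∈ U, y ∈ X ↔ g y = 0)
    (hhY : ∀ y ∈ W, y ∈ Y ↔ h y = 0)
    (hgs : Function.Surjective (fderiv ℝ g (fun i => z (Sum.inl i))))
    (hhs : Function.Surjective (fderiv ℝ h (fun j => z (Sum.inr j)))) :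
    IsOpen (prd U W) ∧ z ∈ prd U W ∧
      ContDiffOn ℝ ∞ (fun y : κ ⊕ ν → ℝ => Fin.append (g (prdL κ ν y)) (h (prdR κ ν y))) (prd U W) ∧
      (∀ y ∈ prd U W, y ∈ prd X Y ↔
        (fun y : κ ⊕ ν → ℝ => Fin.append (g (prdL κ ν y)) (h (prdR κ ν y))) y = 0) ∧
      (∀ v, fderiv ℝ (fun y : κ ⊕ ν → ℝ => Fin.append (g (prdL κ ν y)) (h (prdR κ ν y))) z v =
        Fin.append (fderiv ℝ g (fun i => z (Sum.inl i)) (fun i => v (Sum.inl i)))
          (fderiv ℝ h (fun j => z (Sum.inr j)) (fun j => v (Sum.inr j)))) ∧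
      Function.Surjective
        (fderiv ℝ (fun y : κ ⊕ ν → ℝ => Fin.append (g (prdL κ ν y)) (h (prdR κ ν y))) z) := by
  have hgd : DifferentiableAt ℝ g (prdL κ ν z) := (hg.contDiffAt (hU.mem_nhds hzU)).differentiableAt (by norm_num)
  have hhd : DifferentiableAt ℝ h (prdR κ ν z) := (hh.contDiffAt (hW.mem_nhds hzW)).differentiableAt (by norm_num)
  have hgc : HasFDerivAt (fun y => g (prdL κ ν y)) ((fderiv ℝ g (prdL κ ν z)).comp (prdL κ ν)) z :=
    hgd.hasFDerivAt.comp z (prdL κ ν).hasFDerivAt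
  have hhc : HasFDerivAt (fun y => h (prdR κ ν y)) ((fderiv ℝ h (prdR κ ν z)).comp (prdR κ ν)) z :=
    hhd.hasFDerivAt.comp z (prdR κ ν).hasFDerivAt
  have hfd : ∀ v, fderiv ℝ (fun y : κ ⊕ ν → ℝ => Fin.append (g (prdL κ ν y)) (h (prdR κ ν y))) z v =
        Fin.append (fderiv ℝ g (fun i => z (Sum.inl i)) (fun i => v (Sum.inl i)))
          (fderiv ℝ h (fun j => z (Sum.inr j)) (fun j => v (Sum.inr j))) := by
    intro v
    rw [fderiv_append hgc.differentiableAt hhc.differentiableAt, hgc.fderiv, hhc.fderiv]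
    rfl
  refine ⟨?_, ⟨hzU, hzW⟩, ?_, ?_, hfd, ?_⟩
  · exact (hU.preimage (prdL κ ν).continuous).inter (hW.preimage (prdR κ ν).continuous)
  · refine contDiffOn_append ?_ ?_
    · exact hg.comp (prdL κ ν).contDiff.contDiffOn fun y hy => hy.1
    · exact hh.comp (prdR κ ν).contDiff.contDiffOn fun y hy => hy.2
  · rintro y ⟨hyU, hyW⟩
    constructor
    · rintro ⟨h1, h2⟩
      show Fin.append (g (prdL κ ν y)) (h (prdR κ ν y)) = 0
      rw [prdL_apply, prdR_apply, (hgX _ hyU).1 h1, (hhY _ hyW).1 h2]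
      ext i
      refine Fin.addCases (fun j => ?_) (fun j => ?_) i <;> simp
    · intro h1
      refine ⟨(hgX _ hyU).2 ?_, (hhY _ hyW).2 ?_⟩
      · ext j
        have := congrFun h1 (Fin.castAdd d j)
        simpa [prdL_apply] using this
      · ext j
        have := congrFun h1 (Fin.natAdd c j)
        simpa [prdR_apply] using this
  · intro w
    obtain ⟨v0, hv0⟩ := hgs (fun j => w (Fin.castAdd d j))
    obtain ⟨v1, hv1⟩ := hhs (fun j => w (Fin.natAdd c j))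
    refine ⟨Sum.elim v0 v1, ?_⟩
    rw [hfd]
    have e0 : (fun i => (Sum.elim v0 v1 : κ ⊕ ν → ℝ) (Sum.inl i)) = v0 := rfl
    have e1 : (fun i => (Sum.elim v0 v1 : κ ⊕ ν → ℝ) (Sum.inr i)) = v1 := rfl
    rw [e0, e1, hv0, hv1]
    ext i
    refine Fin.addCases (fun j => ?_) (fun j => ?_) i <;> simp

theorem IsSubmfd.prod {κ ν : Type} [Fintype κ] [Fintype ν] {m n : ℕ} {X : Set (κ → ℝ)} {Y : Set (ν → ℝ)}
    (hX : IsSubmfd m X) (hY : IsSubmfd n Y) : IsSubmfd (m + n) (prd X Y) := by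
  rintro z ⟨hzX, hzY⟩
  obtain ⟨c, g, U, hc, hU, hxU, hg, h0, hs⟩ := hX _ hzX
  obtain ⟨d, h, W, hd, hW, hyW, hh, k0, ks⟩ := hY _ hzY
  obtain ⟨h1, h2, h3, h4, h5, h6⟩ := prd_local hU hW hxU hyW hg hh h0 k0 hs ks
  refine ⟨c + d, _, _, ?_, h1, h2, h3, h4, h6⟩
  rw [Fintype.card_sum]
  omega

/-- Tangent vectors of a product. -/
theorem tan_prd_iff {κ ν : Type} [Fintype κ] [Fintype ν] {m n : ℕ} {X : Set (κ → ℝ)} {Y : Set (ν → ℝ)}
    (hX : IsSubmfd m X) (hY : IsSubmfd n Y) {z v : κ ⊕ ν → ℝ} (hz : z ∈ prd X Y) :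
    Tan (prd X Y) z v ↔ Tan X (fun i => z (Sum.inl i)) (fun i => v (Sum.inl i)) ∧
      Tan Y (fun j => z (Sum.inr j)) (fun j => v (Sum.inr j)) := by
  have hz' := hz
  obtain ⟨hzX, hzY⟩ := hz'
  obtain ⟨c, g, U, hc, hU, hxU, hg, h0, hs⟩ := hX _ hzX
  obtain ⟨d, h, W, hd, hW, hyW, hh, k0, ks⟩ := hY _ hzY
  obtain ⟨h1, h2, h3, h4, h5, h6⟩ := prd_local hU hW hxU hyW hg hh h0 k0 hs ks
  rw [tan_iff h1 h2 h3 h4 hz h6, tan_iff hU hxU hg h0 hzX hs, tan_iff hW hyW hh k0 hzY ks, h5]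
  constructor
  · intro h7
    constructor
    · ext j
      have := congrFun h7 (Fin.castAdd d j)
      simpa using this
    · ext j
      have := congrFun h7 (Fin.natAdd c j)
      simpa using this
  · rintro ⟨h7, h8⟩
    rw [h7, h8]
    ext i
    refine Fin.addCases (fun j => ?_) (fun j => ?_) i <;> simp

theorem isCompact_prd {κ ν : Type} {X : Set (κ → ℝ)} {Y : Set (ν → ℝ)} (hX : IsCompact X)
    (hY : IsCompact Y) : IsCompact (prd X Y) := by
  have h1 : Continuous (fun q : (κ → ℝ) × (ν → ℝ) => (Sum.elim q.1 q.2 : κ ⊕ ν → ℝ)) := by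
    refine continuous_pi fun i => ?_
    rcases i with i | i
    · exact (continuous_apply i).comp continuous_fst
    · exact (continuous_apply i).comp continuous_snd
  have h2 : prd X Y = (fun q : (κ → ℝ) × (ν → ℝ) => (Sum.elim q.1 q.2 : κ ⊕ ν → ℝ)) '' (X ×ˢ Y) := by
    ext z
    constructor
    · rintro ⟨hx, hy⟩
      refine ⟨(fun i => z (Sum.inl i), fun j => z (Sum.inr j)), ⟨hx, hy⟩, ?_⟩
      ext i
      rcases i with i | i <;> rfl
    · rintro ⟨⟨x, y⟩, ⟨hx, hy⟩, rfl⟩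
      exact ⟨hx, hy⟩
  rw [h2]
  exact (hX.prod hY).image h1

/-- The whole space. -/
theorem isSubmfd_univ {κ : Type} [Fintype κ] : IsSubmfd (Fintype.card κ) (Set.univ : Set (κ → ℝ)) := by
  intro x _
  refine ⟨0, fun _ => 0, Set.univ, by simp, isOpen_univ, trivial, contDiffOn_const, ?_, ?_⟩
  · intro y _
    simp
  · intro w
    exact ⟨0, Subsingleton.elim _ _⟩

end Pool.Agent.Helper79.BP
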