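import Pool.Agent.Helper79.BP.KitP

/-!
PROJECT BP, kit: images of compact submanifolds (embeddings, quotients by finite groups).

`IsSubmfd.image`: `X` compact submanifold, `Q` smooth near `X`, `dQ` injective on the tangent spaces, and any two points `x, y ∈ X` of the same fibre of
`Q` are exchanged by a self map `g` of `X`, continuous on `X`, with `Q ∘ g = Q` on `X` (for instance the group element; for an injective `Q` take `g = id`).
PROOF (`isSubmfd_of_param`). Let `z = Q x`, `x ∈ X`, and `P` a parametrisation of `X` at `x` (`exists_param`). `Q ∘ P` parametrises `Q '' X` at `z`: smooth near `0`, the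
derivative is injective (`tan_iff_of_param`), and `map Q (𝓝[X] x) = 𝓝[Q '' X] z`: `≤` is continuity. `≥`: let `O` be a neighbourhood of `x` in `X`; every
`y ∈ X` has a neighbourhood `O_y` in `X` and a neighbourhood `N_y` of `z` such that `y' ∈ O_y`, `Q y' ∈ N_y` imply `Q y' ∈ Q '' O` (if `Q y = z` take
`g` with `g y = x` and `O_y = g⁻¹ O`; if `Q y ≠ z` separate `Q y` from `z`). Take a finite subcover of `X` and `N` the intersection of the `N_y`.
-/

set_option autoImplicit false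

namespace Pool.Agent.Helper79.BP

open MvPolynomial Filter
open scoped ContDiff Topology

private theorem map_nhdsWithin_image {κ ν : Type} [Fintype κ] [Fintype ν] {X : Set (κ → ℝ)} (hXc : IsCompact X)
    {Q : (κ → ℝ) → (ν → ℝ)} (hQc : ContinuousOn Q X)
    (hfib : ∀ x ∈ X, ∀ y ∈ X, Q x = Q y → ∃ g : (κ → ℝ) → (κ → ℝ), ContinuousOn g X ∧ Set.MapsTo g X X ∧
      g y = x ∧ ∀ z ∈ X, Q (g z) = Q z) {x : κ → ℝ} (hx : x ∈ X) : map Q (𝓝[X] x) = 𝓝[Q '' X] (Q x) := by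
  refine le_antisymm (hQc x hx).tendsto_nhdsWithin_image ?_
  intro s hs
  rw [mem_map] at hs
  have key : ∃ N ∈ 𝓝 (Q x), ∀ y ∈ X, Q y ∈ N → Q y ∈ s := by
    refine hXc.induction_on (p := fun K => ∃ N ∈ 𝓝 (Q x), ∀ y ∈ K, Q y ∈ N → Q y ∈ s) ?_ ?_ ?_ ?_
    · exact ⟨Set.univ, univ_mem, fun y hy => absurd hy (Set.notMem_empty y)⟩
    · rintro K L hKL ⟨N, hN, h⟩
      exact ⟨N, hN, fun y hy => h y (hKL hy)⟩
    · rintro K L ⟨N, hN, h⟩ ⟨N', hN', h'⟩
      refine ⟨N ∩ N', inter_mem hN hN', ?_⟩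
      rintro y (hy | hy) hyN
      · exact h y hy hyN.1
      · exact h' y hy hyN.2
    · intro y hy
      by_cases hxy : Q x = Q y
      · obtain ⟨g, hg, hgX, hgy, hgQ⟩ := hfib x hx y hy hxy
        have ht : Tendsto g (𝓝[X] y) (𝓝[X] x) := by
          have h := (hg y hy).tendsto_nhdsWithin hgX
          rwa [hgy] at h
        refine ⟨X ∩ g ⁻¹' (Q ⁻¹' s), inter_mem self_mem_nhdsWithin (ht hs), Set.univ, univ_mem, ?_⟩
        rintro y' ⟨hy', hgs⟩ _
        have h : Q (g y') ∈ s := hgs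
        rwa [hgQ y' hy'] at h
      · obtain ⟨A, B, hA, hB, hyA, hxB, hAB⟩ := t2_separation (Ne.symm hxy)
        refine ⟨Q ⁻¹' A, (hQc y hy) (hA.mem_nhds hyA), B, hB.mem_nhds hxB, ?_⟩
        intro y' hy' hyB
        exact absurd hyB (Set.disjoint_left.1 hAB hy')
  obtain ⟨N, hN, h⟩ := key
  refine mem_nhdsWithin_iff_exists_mem_nhds_inter.2 ⟨N, hN, ?_⟩
  rintro w ⟨hw, y, hy, rfl⟩
  exact h y hy hw

theorem IsSubmfd.image {κ ν : Type} [Fintype κ] [Fintype ν] {m : ℕ} {X : Set (κ → ℝ)} (hX : IsSubmfd m X)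
    (hXc : IsCompact X) {U : Set (κ → ℝ)} (hU : IsOpen U) (hXU : X ⊆ U) {Q : (κ → ℝ) → (ν → ℝ)}
    (hQ : ContDiffOn ℝ ∞ Q U) (himm : ∀ x ∈ X, ∀ v, Tan X x v → fderiv ℝ Q x v = 0 → v = 0)
    (hfib : ∀ x ∈ X, ∀ y ∈ X, Q x = Q y → ∃ g : (κ → ℝ) → (κ → ℝ), ContinuousOn g X ∧ Set.MapsTo g X X ∧
      g y = x ∧ ∀ z ∈ X, Q (g z) = Q z) : IsSubmfd m (Q '' X) := by
  refine isSubmfd_of_param ?_
  rintro _ ⟨x, hx, rfl⟩
  obtain ⟨P, hP⟩ := hX.exists_param hx
  have hP' := hP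
  obtain ⟨⟨O, hO, h0, hPO⟩, hP0, hinj, hmap⟩ := hP'
  have hO' : IsOpen (O ∩ P ⁻¹' U) := hPO.continuousOn.isOpen_inter_preimage hO hU
  have h0' : (0 : Fin m → ℝ) ∈ O ∩ P ⁻¹' U := ⟨h0, by
    change P 0 ∈ U
    rw [hP0]
    exact hXU hx⟩
  refine ⟨fun u => Q (P u), ⟨O ∩ P ⁻¹' U, hO', h0', hQ.comp (hPO.mono Set.inter_subset_left)
    (fun u hu => hu.2)⟩, congrArg Q hP0, ?_, ?_⟩
  · have hdP : DifferentiableAt ℝ P 0 := (hPO.contDiffAt (hO.mem_nhds h0)).differentiableAt (by simp)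
    have hdQ : DifferentiableAt ℝ Q (P 0) := by
      rw [hP0]
      exact (hQ.contDiffAt (hU.mem_nhds (hXU hx))).differentiableAt (by simp)
    have hd : fderiv ℝ (fun u => Q (P u)) 0 = (fderiv ℝ Q (P 0)).comp (fderiv ℝ P 0) :=
      fderiv_comp 0 hdQ hdP
    rw [hd]
    refine (injective_iff_map_eq_zero _).2 fun u hu => ?_
    rw [ContinuousLinearMap.comp_apply, hP0] at hu
    have hT : Tan X x (fderiv ℝ P 0 u) := (tan_iff_of_param hP hx).2 ⟨u, rfl⟩
    have h1 := himm x hx _ hT hu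
    exact (injective_iff_map_eq_zero _).1 hinj u h1
  · have h1 : map (fun u => Q (P u)) (𝓝 0) = map Q (map P (𝓝 0)) := (Filter.map_map).symm
    rw [h1, hmap]
    exact map_nhdsWithin_image hXc (hQ.continuousOn.mono hXU) hfib hx

end Pool.Agent.Helper79.BP
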