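import Pool.Agent.Helper79.BP.KitJ

/-!
PROJECT BP, bordism kit 2: affine images, and the disjoint union of two submanifolds in `ℝ^(κ ⊕ κ' ⊕ Unit)`.

`affine_image`. PROOF. At `y = L x + c`: let `g, U` be the local equations of `X` at `x`. `R` is onto, `L` injective. Let `K = ker R`, of dimension `card ν - card κ` (`R ∘ L = id`), and
`e : K ≃ ℝ^b`. The map `y ↦ Fin.append (g (R (y - c))) (e ((y - c) - L (R (y - c))))` is smooth on the open set `{R (y - c) ∈ U}`, vanishes exactly on the image of `X` there,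
and its differential is onto: `(a, b)` is the image of `L v + e⁻¹ b` where `dg v = a`.
`in1`, `in2` are affine; the sum: `IsSubmfd.union` with the open sets `{z (inr (inr ())) < 1/2}`, `{z (inr (inr ())) > 1/2}`.
-/

set_option autoImplicit false

namespace Pool.Agent.Helper79.BP

open MvPolynomial Filter
open scoped ContDiff Topology

/-- The image of a submanifold under an injective affine map `x ↦ L x + c` with a linear left inverse `R` of `L`. -/
theorem IsSubmfd.affine_image {κ ν : Type} [Fintype κ] [Fintype ν] {m : ℕ} {X : Set (κ → ℝ)} (hX : IsSubmfd m X)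
    (L : (κ → ℝ) →ₗ[ℝ] (ν → ℝ)) (R : (ν → ℝ) →ₗ[ℝ] (κ → ℝ)) (hR : ∀ x, R (L x) = x) (c : ν → ℝ) :
    IsSubmfd m ((fun x => L x + c) '' X) := by
  rintro y0 ⟨x, hx, rfl⟩
  obtain ⟨c', g, U, hc', hU, hxU, hg, hg0, hgs⟩ := hX x hx
  have hRs : Function.Surjective R := fun x => ⟨L x, hR x⟩
  -- the kernel
  obtain ⟨b, hb⟩ : ∃ b, b = Module.finrank ℝ (LinearMap.ker R) := ⟨_, rfl⟩
  have hdim : Fintype.card κ + b = Fintype.card ν := by
    have h1 := LinearMap.finrank_range_add_finrank_ker R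
    rw [LinearMap.range_eq_top.2 hRs, finrank_top, Module.finrank_fintype_fun_eq_card,
      Module.finrank_fintype_fun_eq_card, ← hb] at h1
    exact h1
  let e : LinearMap.ker R ≃ₗ[ℝ] (Fin b → ℝ) := (Module.finBasisOfFinrankEq ℝ _ hb.symm).equivFun
  let q0 : (ν → ℝ) →ₗ[ℝ] (ν → ℝ) := LinearMap.id - L ∘ₗ R
  have hq : ∀ v, q0 v ∈ LinearMap.ker R := by
    intro v
    rw [LinearMap.mem_ker]
    show R (v - L (R v)) = 0
    rw [map_sub, hR, sub_self]
  let q : (ν → ℝ) →ₗ[ℝ] LinearMap.ker R := q0.codRestrict _ hq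
  have hqv : ∀ v, ((q v : LinearMap.ker R) : ν → ℝ) = v - L (R v) := fun v => rfl
  let E : (ν → ℝ) →L[ℝ] (Fin b → ℝ) := LinearMap.toContinuousLinearMap (e.toLinearMap ∘ₗ q)
  have hE : ∀ v, E v = e (q v) := fun v => rfl
  have hE0 : ∀ v, E v = 0 ↔ v = L (R v) := by
    intro v
    rw [hE, LinearEquiv.map_eq_zero_iff]
    rw [← Submodule.coe_eq_zero, hqv, sub_eq_zero]
  let Rc : (ν → ℝ) →L[ℝ] (κ → ℝ) := LinearMap.toContinuousLinearMap R
  have hRc : ∀ v, Rc v = R v := fun v => rfl
  have hopen : IsOpen {y : ν → ℝ | Rc (y - c) ∈ U} :=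
    hU.preimage (Rc.continuous.comp (continuous_id.sub continuous_const))
  have haff : ContDiff ℝ ∞ (fun y : ν → ℝ => Rc (y - c)) :=
    Rc.contDiff.comp (contDiff_id.sub contDiff_const)
  have haffE : ContDiff ℝ ∞ (fun y : ν → ℝ => E (y - c)) :=
    E.contDiff.comp (contDiff_id.sub contDiff_const)
  have hmem : Rc (L x + c - c) = x := by
    rw [add_sub_cancel_right, hRc, hR]
  have hg1 : ContDiffOn ℝ ∞ (fun y => g (Rc (y - c))) {y : ν → ℝ | Rc (y - c) ∈ U} :=
    hg.comp haff.contDiffOn fun y hy => hy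
  refine ⟨c' + b, fun y => Fin.append (g (Rc (y - c))) (E (y - c)), {y | Rc (y - c) ∈ U}, by omega,
    hopen, ?_, contDiffOn_append hg1 haffE.contDiffOn, ?_, ?_⟩
  · show Rc (L x + c - c) ∈ U
    rw [hmem]
    exact hxU
  · intro y hy
    have happ : Fin.append (g (Rc (y - c))) (E (y - c)) = 0 ↔ g (Rc (y - c)) = 0 ∧ E (y - c) = 0 := by
      constructor
      · intro h
        refine ⟨?_, ?_⟩
        · ext j
          have := congrFun h (Fin.castAdd b j)
          simpa using this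
        · ext j
          have := congrFun h (Fin.natAdd c' j)
          simpa using this
      · rintro ⟨h1, h2⟩
        rw [h1, h2]
        ext i
        refine Fin.addCases (fun j => ?_) (fun j => ?_) i <;> simp
    rw [happ, hE0, ← hg0 _ hy]
    constructor
    · rintro ⟨z, hz, rfl⟩
      have h1 : Rc (L z + c - c) = z := by
        rw [add_sub_cancel_right, hRc, hR]
      refine ⟨?_, ?_⟩
      · show Rc (L z + c - c) ∈ X
        rw [h1]
        exact hz
      · show L z + c - c = L (R (L z + c - c))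
        rw [add_sub_cancel_right, hR]
    · rintro ⟨h1, h2⟩
      refine ⟨Rc (y - c), h1, ?_⟩
      show L (Rc (y - c)) + c = y
      rw [hRc, ← h2, sub_add_cancel]
  · show Function.Surjective (fderiv ℝ (fun y => Fin.append (g (Rc (y - c))) (E (y - c))) (L x + c))
    have hgd : DifferentiableAt ℝ g x := (hg.contDiffAt (hU.mem_nhds hxU)).differentiableAt (by norm_num)
    have hd1 : HasFDerivAt (fun y : ν → ℝ => Rc (y - c)) Rc (L x + c) := by
      have h := Rc.hasFDerivAt (x := L x + c - c)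
      exact h.comp (L x + c) ((hasFDerivAt_id (L x + c)).sub_const c)
    have hd2 : HasFDerivAt (fun y : ν → ℝ => E (y - c)) E (L x + c) := by
      have h := E.hasFDerivAt (x := L x + c - c)
      exact h.comp (L x + c) ((hasFDerivAt_id (L x + c)).sub_const c)
    have hd3 : HasFDerivAt (fun y : ν → ℝ => g (Rc (y - c))) ((fderiv ℝ g x).comp Rc) (L x + c) := by
      have h : HasFDerivAt g (fderiv ℝ g x) (Rc (L x + c - c)) := by
        rw [hmem]
        exact hgd.hasFDerivAt
      exact h.comp (L x + c) hd1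
    intro w
    obtain ⟨v0, hv0⟩ := hgs (fun j => w (Fin.castAdd b j))
    let kk : LinearMap.ker R := e.symm (fun j => w (Fin.natAdd c' j))
    have hkk : R (kk : ν → ℝ) = 0 := kk.2
    refine ⟨L v0 + kk, ?_⟩
    rw [fderiv_append hd3.differentiableAt hd2.differentiableAt, hd3.fderiv, hd2.fderiv]
    have h1 : (fderiv ℝ g x).comp Rc (L v0 + kk) = fun j => w (Fin.castAdd b j) := by
      rw [ContinuousLinearMap.comp_apply, hRc, map_add, hR, hkk, add_zero, hv0]
    have h2 : E (L v0 + kk) = fun j => w (Fin.natAdd c' j) := by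
      have h3 : q (L v0 + kk) = kk := by
        apply Subtype.ext
        rw [hqv, map_add, hR, hkk, add_zero, add_sub_cancel_left]
      rw [hE, h3]
      exact e.apply_symm_apply _
    rw [h1, h2]
    ext i
    refine Fin.addCases (fun j => ?_) (fun j => ?_) i <;> simp

section
variable {m : ℕ}

/-- First inclusion. -/
def in1 {κ κ' : Type} (x : κ → ℝ) : κ ⊕ κ' ⊕ Unit → ℝ := Sum.elim x (fun _ => 0)

/-- Second inclusion. -/
def in2 {κ κ' : Type} (y : κ' → ℝ) : κ ⊕ κ' ⊕ Unit → ℝ := Sum.elim (fun _ => 0) (Sum.elim y (fun _ => 1))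

theorem isSubmfd_in1 {κ κ' : Type} [Fintype κ] [Fintype κ'] {X : Set (κ → ℝ)} (hX : IsSubmfd m X) :
    IsSubmfd m (in1 (κ' := κ') '' X) := by
  let L : (κ → ℝ) →ₗ[ℝ] (κ ⊕ κ' ⊕ Unit → ℝ) :=
    { toFun := fun x => Sum.elim x (fun _ => 0)
      map_add' := by
        intro x y
        ext i
        rcases i with i | i <;> simp
      map_smul' := by
        intro a x
        ext i
        rcases i with i | i <;> simp }
  let R : (κ ⊕ κ' ⊕ Unit → ℝ) →ₗ[ℝ] (κ → ℝ) := LinearMap.funLeft ℝ ℝ Sum.inl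
  have h := hX.affine_image L R (fun x => rfl) 0
  have he : (fun x => L x + 0) = in1 (κ' := κ') := by
    funext x
    rw [add_zero]
    rfl
  rw [he] at h
  exact h

theorem isSubmfd_in2 {κ κ' : Type} [Fintype κ] [Fintype κ'] {X : Set (κ' → ℝ)} (hX : IsSubmfd m X) :
    IsSubmfd m (in2 (κ := κ) '' X) := by
  let L : (κ' → ℝ) →ₗ[ℝ] (κ ⊕ κ' ⊕ Unit → ℝ) :=
    { toFun := fun y => Sum.elim (fun _ => 0) (Sum.elim y (fun _ => 0))
      map_add' := by
        intro x y
        ext i
        rcases i with i | i | i <;> simp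
      map_smul' := by
        intro a x
        ext i
        rcases i with i | i | i <;> simp }
  let R : (κ ⊕ κ' ⊕ Unit → ℝ) →ₗ[ℝ] (κ' → ℝ) := LinearMap.funLeft ℝ ℝ (fun i => Sum.inr (Sum.inl i))
  have h := hX.affine_image L R (fun x => rfl) (Sum.elim (fun _ => 0) (Sum.elim (fun _ => 0) (fun _ => 1)))
  have he : (fun x => L x + Sum.elim (fun _ => 0) (Sum.elim (fun _ => 0) (fun _ => 1))) = in2 (κ := κ) := by
    funext x i
    rcases i with i | i | i
    · show (0 : ℝ) + 0 = 0
      simp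
    · show x i + 0 = x i
      simp
    · show (0 : ℝ) + 1 = 1
      simp
  rw [he] at h
  exact h

theorem isSubmfd_sum {κ κ' : Type} [Fintype κ] [Fintype κ'] {X : Set (κ → ℝ)} {Y : Set (κ' → ℝ)} (hX : IsSubmfd m X)
    (hY : IsSubmfd m Y) : IsSubmfd m (in1 '' X ∪ in2 '' Y : Set (κ ⊕ κ' ⊕ Unit → ℝ)) := by
  have hc : Continuous fun z : κ ⊕ κ' ⊕ Unit → ℝ => z (Sum.inr (Sum.inr ())) := continuous_apply _
  refine (isSubmfd_in1 hX).union (isSubmfd_in2 hY) (O := {z | z (Sum.inr (Sum.inr ())) < 1 / 2})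
    (P := {z | 1 / 2 < z (Sum.inr (Sum.inr ()))}) (isOpen_lt hc continuous_const)
    (isOpen_lt continuous_const hc) ?_ ?_ ?_ ?_
  · rintro _ ⟨x, _, rfl⟩
    show (0 : ℝ) < 1 / 2
    norm_num
  · rintro _ ⟨x, _, rfl⟩
    show (1 / 2 : ℝ) < 1
    norm_num
  · rw [Set.disjoint_left]
    rintro _ ⟨x, _, rfl⟩ h
    have h' : (1 : ℝ) < 1 / 2 := h
    norm_num at h'
  · rw [Set.disjoint_left]
    rintro _ ⟨x, _, rfl⟩ h
    have h' : (1 / 2 : ℝ) < 0 := h
    norm_num at h'

end

end Pool.Agent.Helper79.BP
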