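import Pool.Agent.Helper79.BP.KitK2

/-!
PROJECT BP, bordism kit 4: adding a constant summand to a bordism.

PROOF. Let `(ν, W, τ, F)` be a bordism from `A` to `A'`, and `Y = B.X`. In `ℝ^(ν ⊕ (B.κ ⊕ Unit) ⊕ Unit)` with coordinates `(w, y, s, l)` take
`W' = in1 '' W ∪ in2 '' (prd Y univ)` (`isSubmfd_sum`, `IsSubmfd.prod`, `isSubmfd_univ`), i.e. the points `(w, 0, 0, 0)`, `w ∈ W`, and `(0, y, s, 1)`, `y ∈ Y`;
`τ' = (1 - l) τ(w) + l s`, `F' = F(w)` if `l < 1/2`, `B.f y` otherwise. Regular values: at `(w, 0, 0, 0)` take `in1 v` with `v` tangent to `W`, `dτ v ≠ 0` (it is tangent to `W'`: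
`Tan.map` for the smooth map `in1`); at `(0, y, s, 1)` the direction of `s`.
Identification of `(A.sum B).X` with `τ' = c`: `(x, y, l) ↦ ((1 - l) a(x), y, c l, l)`, inverse `(w, y, s, l) ↦ ((1 - l) a⁻¹(w), y, l)`.
-/

set_option autoImplicit false

namespace Pool.Agent.Helper79.BP

open MvPolynomial Filter
open scoped ContDiff Topology

section
variable {ι : Type} {V : Set (ι → ℝ)} {m : ℕ}

namespace K3

section
variable {ν μ : Type}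

/-- The set `W'`. -/
def WW (W : Set (ν → ℝ)) (Y : Set (μ → ℝ)) : Set (ν ⊕ (μ ⊕ Unit) ⊕ Unit → ℝ) :=
  in1 '' W ∪ in2 '' (prd Y (Set.univ : Set (Unit → ℝ)))

/-- The function `τ'`. -/
def tt (τ : (ν → ℝ) → ℝ) (z : ν ⊕ (μ ⊕ Unit) ⊕ Unit → ℝ) : ℝ :=
  (1 - z (Sum.inr (Sum.inr ()))) * τ (fun i => z (Sum.inl i)) +
    z (Sum.inr (Sum.inr ())) * z (Sum.inr (Sum.inl (Sum.inr ())))

/-- The map `F'`. -/
noncomputable def FF (F : (ν → ℝ) → (ι → ℝ)) (f : (μ → ℝ) → (ι → ℝ)) (z : ν ⊕ (μ ⊕ Unit) ⊕ Unit → ℝ) : ι → ℝ :=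
  if z (Sum.inr (Sum.inr ())) < 1 / 2 then F (fun i => z (Sum.inl i))
    else f (fun j => z (Sum.inr (Sum.inl (Sum.inl j))))

/-- The point `(0, y, s, 1)`. -/
def pt (y : μ → ℝ) (s : ℝ) : ν ⊕ (μ ⊕ Unit) ⊕ Unit → ℝ :=
  Sum.elim (fun _ => 0) (Sum.elim (Sum.elim y (fun _ => s)) (fun _ => 1))

theorem in2_eq (q : μ ⊕ Unit → ℝ) :
    (in2 q : ν ⊕ (μ ⊕ Unit) ⊕ Unit → ℝ) = pt (fun j => q (Sum.inl j)) (q (Sum.inr ())) := by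
  ext i
  rcases i with i | (i | i) | i <;> rfl

theorem mem_WW {W : Set (ν → ℝ)} {Y : Set (μ → ℝ)} {z : ν ⊕ (μ ⊕ Unit) ⊕ Unit → ℝ} :
    z ∈ WW W Y ↔ (∃ w ∈ W, z = in1 w) ∨ ∃ y ∈ Y, ∃ s : ℝ, z = pt y s := by
  constructor
  · rintro (⟨w, hw, rfl⟩ | ⟨q, hq, rfl⟩)
    · exact Or.inl ⟨w, hw, rfl⟩
    · exact Or.inr ⟨_, hq.1, _, in2_eq q⟩
  · rintro (⟨w, hw, rfl⟩ | ⟨y, hy, s, rfl⟩)
    · exact Or.inl ⟨w, hw, rfl⟩
    · refine Or.inr ⟨Sum.elim y (fun _ => s), ⟨?_, Set.mem_univ _⟩, ?_⟩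
      · exact hy
      · rw [in2_eq]
        rfl

theorem tt_in1 (τ : (ν → ℝ) → ℝ) (w : ν → ℝ) : tt (μ := μ) τ (in1 w) = τ w := by
  simp [tt, in1]

theorem tt_pt (τ : (ν → ℝ) → ℝ) (y : μ → ℝ) (s : ℝ) : tt τ (pt y s) = s := by
  simp [tt, pt]

theorem FF_in1 (F : (ν → ℝ) → (ι → ℝ)) (f : (μ → ℝ) → (ι → ℝ)) (w : ν → ℝ) : FF F f (in1 w) = F w := by
  simp [FF, in1]

theorem FF_pt (F : (ν → ℝ) → (ι → ℝ)) (f : (μ → ℝ) → (ι → ℝ)) (y : μ → ℝ) (s : ℝ) : FF F f (pt y s) = f y := by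
  have h : ¬ ((1 : ℝ) < 1 / 2) := by norm_num
  simp only [FF, pt, Sum.elim_inr, Sum.elim_inl]
  rw [if_neg h]

variable [Fintype ν] [Fintype μ]

theorem contDiff_tt {τ : (ν → ℝ) → ℝ} (hτ : ContDiff ℝ ∞ τ) : ContDiff ℝ ∞ (tt (μ := μ) τ) := by
  unfold tt
  refine ContDiff.add ?_ ?_
  · refine (contDiff_const.sub (contDiff_apply ℝ ℝ _)).mul ?_
    exact hτ.comp (contDiff_pi.2 fun i => contDiff_apply ℝ ℝ _)
  · exact (contDiff_apply ℝ ℝ _).mul (contDiff_apply ℝ ℝ _)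

theorem isSubmfd_WW {W : Set (ν → ℝ)} {Y : Set (μ → ℝ)} (hW : IsSubmfd (m + 1) W) (hY : IsSubmfd m Y) :
    IsSubmfd (m + 1) (WW W Y) := by
  refine isSubmfd_sum hW ?_
  have h := hY.prod (isSubmfd_univ (κ := Unit))
  simpa using h

theorem contDiff_in1 : ContDiff ℝ ∞ (in1 : (ν → ℝ) → (ν ⊕ (μ ⊕ Unit) ⊕ Unit → ℝ)) := by
  rw [contDiff_pi]
  rintro (i | (i | i) | i)
  · exact contDiff_apply ℝ ℝ i
  · exact contDiff_const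
  · exact contDiff_const
  · exact contDiff_const

theorem continuous_pt : Continuous (fun p : (μ → ℝ) × ℝ => (pt p.1 p.2 : ν ⊕ (μ ⊕ Unit) ⊕ Unit → ℝ)) := by
  rw [continuous_pi_iff]
  rintro (i | (i | i) | i)
  · exact continuous_const
  · exact (continuous_apply i).comp continuous_fst
  · exact continuous_snd
  · exact continuous_const

theorem reg {W : Set (ν → ℝ)} {Y : Set (μ → ℝ)} {τ : (ν → ℝ) → ℝ} (hτ : ContDiff ℝ ∞ τ)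
    (h : ∀ x ∈ W, τ x = 0 ∨ τ x = 1 → ∃ v, Tan W x v ∧ fderiv ℝ τ x v ≠ 0)
    (z : ν ⊕ (μ ⊕ Unit) ⊕ Unit → ℝ) (hz : z ∈ WW W Y) (h01 : tt τ z = 0 ∨ tt τ z = 1) :
    ∃ v, Tan (WW W Y) z v ∧ fderiv ℝ (tt τ) z v ≠ 0 := by
  rcases mem_WW.1 hz with ⟨w, hw, rfl⟩ | ⟨y, hy, s, rfl⟩
  · rw [tt_in1] at h01
    obtain ⟨v, hv, hv'⟩ := h w hw h01
    refine ⟨fderiv ℝ (in1 : (ν → ℝ) → (ν ⊕ (μ ⊕ Unit) ⊕ Unit → ℝ)) w v, ?_, ?_⟩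
    · exact Tan.map isOpen_univ (Set.mem_univ _) contDiff_in1.contDiffOn (fun y _ hy => Or.inl ⟨y, hy, rfl⟩) hv
    · have h1 : fderiv ℝ (tt (μ := μ) τ ∘ in1) w v =
          fderiv ℝ (tt τ) (in1 w) (fderiv ℝ (in1 : (ν → ℝ) → (ν ⊕ (μ ⊕ Unit) ⊕ Unit → ℝ)) w v) := by
        rw [fderiv_comp w ((contDiff_tt hτ).differentiable (by norm_num) _)
          (contDiff_in1.differentiable (by norm_num) _)]
        rfl
      rw [← h1]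
      have h2 : (tt (μ := μ) τ ∘ in1) = τ := by
        ext w
        exact tt_in1 τ w
      rw [h2]
      exact hv'
  · have hd : HasDerivAt (fun t : ℝ => (pt y (s + t) : ν ⊕ (μ ⊕ Unit) ⊕ Unit → ℝ))
        (Sum.elim (fun _ => 0) (Sum.elim (Sum.elim (fun _ => 0) (fun _ => 1)) (fun _ => 0))) 0 := by
      rw [hasDerivAt_pi]
      rintro (i | (i | i) | i)
      · exact hasDerivAt_const _ _
      · exact hasDerivAt_const _ _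
      · simpa [pt] using (hasDerivAt_id (0 : ℝ)).const_add s
      · exact hasDerivAt_const _ _
    refine ⟨_, tan_of_curve hd (by simp) (Filter.Eventually.of_forall fun t => mem_WW.2 (Or.inr ⟨y, hy, _, rfl⟩)), ?_⟩
    have h3 : HasDerivAt (tt τ ∘ fun t : ℝ => (pt y (s + t) : ν ⊕ (μ ⊕ Unit) ⊕ Unit → ℝ))
        (fderiv ℝ (tt τ) (pt y s)
          (Sum.elim (fun _ => 0) (Sum.elim (Sum.elim (fun _ => 0) (fun _ => 1)) (fun _ => 0)))) 0 := by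
      refine HasFDerivAt.comp_hasDerivAt (0 : ℝ) ?_ hd
      have := ((contDiff_tt (μ := μ) hτ).differentiable (by norm_num) (pt y s)).hasFDerivAt
      simpa using this
    have h4 : (tt τ ∘ fun t : ℝ => (pt y (s + t) : ν ⊕ (μ ⊕ Unit) ⊕ Unit → ℝ)) = fun t => s + t := by
      ext t
      exact tt_pt τ y (s + t)
    rw [h4] at h3
    have h5 : HasDerivAt (fun t : ℝ => s + t) 1 0 := (hasDerivAt_id (0 : ℝ)).const_add s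
    rw [h3.unique h5]
    norm_num

/-- The part `0 ≤ τ' ≤ 1` is the union of two compact sets. -/
theorem slab_eq (W : Set (ν → ℝ)) (Y : Set (μ → ℝ)) (τ : (ν → ℝ) → ℝ) :
    {z ∈ WW W Y | 0 ≤ tt τ z ∧ tt τ z ≤ 1} =
      in1 '' {x ∈ W | 0 ≤ τ x ∧ τ x ≤ 1} ∪
        (fun p : (μ → ℝ) × ℝ => (pt p.1 p.2 : ν ⊕ (μ ⊕ Unit) ⊕ Unit → ℝ)) '' (Y ×ˢ Set.Icc 0 1) := by
  ext z
  constructor
  · rintro ⟨hz, h0, h1⟩
    rcases mem_WW.1 hz with ⟨w, hw, rfl⟩ | ⟨y, hy, s, rfl⟩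
    · rw [tt_in1] at h0 h1
      exact Or.inl ⟨w, ⟨hw, h0, h1⟩, rfl⟩
    · rw [tt_pt] at h0 h1
      exact Or.inr ⟨(y, s), ⟨hy, h0, h1⟩, rfl⟩
  · rintro (⟨w, ⟨hw, h0, h1⟩, rfl⟩ | ⟨⟨y, s⟩, ⟨hy, h0, h1⟩, rfl⟩)
    · refine ⟨mem_WW.2 (Or.inl ⟨w, hw, rfl⟩), ?_, ?_⟩ <;> rw [tt_in1] <;> assumption
    · refine ⟨mem_WW.2 (Or.inr ⟨y, hy, s, rfl⟩), ?_, ?_⟩ <;> simp only [tt_pt] <;> assumption

/-- Continuity of `F'`. -/
theorem cont_FF {S : Set (ν → ℝ)} {Y : Set (μ → ℝ)} {F : (ν → ℝ) → (ι → ℝ)} {f : (μ → ℝ) → (ι → ℝ)}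
    (hF : ContinuousOn F S) (hf : ContinuousOn f Y) :
    ContinuousOn (FF F f) (in1 '' S ∪
        (fun p : (μ → ℝ) × ℝ => (pt p.1 p.2 : ν ⊕ (μ ⊕ Unit) ⊕ Unit → ℝ)) '' (Y ×ˢ Set.Icc 0 1)) := by
  have hl : Continuous (fun z : ν ⊕ (μ ⊕ Unit) ⊕ Unit → ℝ => z (Sum.inr (Sum.inr ()))) := continuous_apply _
  intro z hz
  rcases hz with ⟨w, hw, rfl⟩ | ⟨⟨y, s⟩, ⟨hy, hs⟩, rfl⟩
  · -- near `in1 w` the last coordinate is `< 1/2`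
    have hO : IsOpen {z : ν ⊕ (μ ⊕ Unit) ⊕ Unit → ℝ | z (Sum.inr (Sum.inr ())) < 1 / 2} :=
      isOpen_lt hl continuous_const
    have hwO : (in1 w : ν ⊕ (μ ⊕ Unit) ⊕ Unit → ℝ) ∈
        {z : ν ⊕ (μ ⊕ Unit) ⊕ Unit → ℝ | z (Sum.inr (Sum.inr ())) < 1 / 2} := by
      show (0 : ℝ) < 1 / 2
      norm_num
    rw [← continuousWithinAt_inter (hO.mem_nhds hwO)]
    have h1 : ContinuousWithinAt (fun z : ν ⊕ (μ ⊕ Unit) ⊕ Unit → ℝ => F (fun i => z (Sum.inl i)))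
        ((in1 '' S ∪ (fun p : (μ → ℝ) × ℝ => (pt p.1 p.2 : ν ⊕ (μ ⊕ Unit) ⊕ Unit → ℝ)) '' (Y ×ˢ Set.Icc 0 1)) ∩
          {z : ν ⊕ (μ ⊕ Unit) ⊕ Unit → ℝ | z (Sum.inr (Sum.inr ())) < 1 / 2}) (in1 w) := by
      have h2 : ContinuousWithinAt (fun z : ν ⊕ (μ ⊕ Unit) ⊕ Unit → ℝ => (fun i => z (Sum.inl i)))
        ((in1 '' S ∪ (fun p : (μ → ℝ) × ℝ => (pt p.1 p.2 : ν ⊕ (μ ⊕ Unit) ⊕ Unit → ℝ)) '' (Y ×ˢ Set.Icc 0 1)) ∩
          {z : ν ⊕ (μ ⊕ Unit) ⊕ Unit → ℝ | z (Sum.inr (Sum.inr ())) < 1 / 2}) (in1 w) :=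
        (continuous_pi fun i => continuous_apply _).continuousWithinAt
      refine ContinuousWithinAt.comp (t := S) (g := F) (hF w hw) h2 ?_
      rintro z ⟨⟨w', hw', rfl⟩ | ⟨⟨y, s⟩, ⟨hy, hs⟩, rfl⟩, hz2⟩
      · exact hw'
      · exfalso
        have : (1 : ℝ) < 1 / 2 := hz2
        norm_num at this
    refine h1.congr (fun z hz => ?_) ?_
    · exact if_pos hz.2
    · exact if_pos hwO
  · -- near `pt y s` the last coordinate is `> 1/2`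
    have hO : IsOpen {z : ν ⊕ (μ ⊕ Unit) ⊕ Unit → ℝ | 1 / 2 < z (Sum.inr (Sum.inr ()))} :=
      isOpen_lt continuous_const hl
    have hwO : (pt y s : ν ⊕ (μ ⊕ Unit) ⊕ Unit → ℝ) ∈
        {z : ν ⊕ (μ ⊕ Unit) ⊕ Unit → ℝ | 1 / 2 < z (Sum.inr (Sum.inr ()))} := by
      show (1 / 2 : ℝ) < 1
      norm_num
    rw [← continuousWithinAt_inter (hO.mem_nhds hwO)]
    have h1 : ContinuousWithinAt
        (fun z : ν ⊕ (μ ⊕ Unit) ⊕ Unit → ℝ => f (fun j => z (Sum.inr (Sum.inl (Sum.inl j)))))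
        ((in1 '' S ∪ (fun p : (μ → ℝ) × ℝ => (pt p.1 p.2 : ν ⊕ (μ ⊕ Unit) ⊕ Unit → ℝ)) '' (Y ×ˢ Set.Icc 0 1)) ∩
          {z : ν ⊕ (μ ⊕ Unit) ⊕ Unit → ℝ | 1 / 2 < z (Sum.inr (Sum.inr ()))}) (pt y s) := by
      have h2 : ContinuousWithinAt
        (fun z : ν ⊕ (μ ⊕ Unit) ⊕ Unit → ℝ => (fun j => z (Sum.inr (Sum.inl (Sum.inl j)))))
        ((in1 '' S ∪ (fun p : (μ → ℝ) × ℝ => (pt p.1 p.2 : ν ⊕ (μ ⊕ Unit) ⊕ Unit → ℝ)) '' (Y ×ˢ Set.Icc 0 1)) ∩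
          {z : ν ⊕ (μ ⊕ Unit) ⊕ Unit → ℝ | 1 / 2 < z (Sum.inr (Sum.inr ()))}) (pt y s) :=
        (continuous_pi fun i => continuous_apply _).continuousWithinAt
      refine ContinuousWithinAt.comp (t := Y) (g := f) (hf y hy) h2 ?_
      rintro z ⟨⟨w', hw', rfl⟩ | ⟨⟨y', s'⟩, ⟨hy', hs'⟩, rfl⟩, hz2⟩
      · exfalso
        have : (1 / 2 : ℝ) < 0 := hz2
        norm_num at this
      · exact hy'
    refine h1.congr (fun z hz => ?_) ?_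
    · exact if_neg (not_lt.2 (le_of_lt hz.2))
    · exact if_neg (not_lt.2 (le_of_lt hwO))

/-- The identification of a level. -/
def aa {κ : Type} (a : (κ → ℝ) → (ν → ℝ)) (c : ℝ) (z : κ ⊕ μ ⊕ Unit → ℝ) : ν ⊕ (μ ⊕ Unit) ⊕ Unit → ℝ :=
  Sum.elim (fun i => (1 - z (Sum.inr (Sum.inr ()))) * a (fun k => z (Sum.inl k)) i)
    (Sum.elim (Sum.elim (fun j => z (Sum.inr (Sum.inl j))) (fun _ => c * z (Sum.inr (Sum.inr ()))))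
      (fun _ => z (Sum.inr (Sum.inr ()))))

/-- Its inverse. -/
def bb {κ : Type} (b : (ν → ℝ) → (κ → ℝ)) (z : ν ⊕ (μ ⊕ Unit) ⊕ Unit → ℝ) : κ ⊕ μ ⊕ Unit → ℝ :=
  Sum.elim (fun i => (1 - z (Sum.inr (Sum.inr ()))) * b (fun k => z (Sum.inl k)) i)
    (Sum.elim (fun j => z (Sum.inr (Sum.inl (Sum.inl j)))) (fun _ => z (Sum.inr (Sum.inr ()))))

theorem aa_in1 {κ : Type} (a : (κ → ℝ) → (ν → ℝ)) (c : ℝ) (x : κ → ℝ) : aa (μ := μ) a c (in1 x) = in1 (a x) := by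
  ext i
  rcases i with i | (i | i) | i <;> simp [aa, in1]

theorem aa_in2 {κ : Type} (a : (κ → ℝ) → (ν → ℝ)) (c : ℝ) (y : μ → ℝ) : aa (μ := μ) a c (in2 y) = pt y c := by
  ext i
  rcases i with i | (i | i) | i <;> simp [aa, in2, pt]

theorem bb_in1 {κ : Type} (b : (ν → ℝ) → (κ → ℝ)) (w : ν → ℝ) : bb (μ := μ) b (in1 w) = in1 (b w) := by
  ext i
  rcases i with i | i | i <;> simp [bb, in1]

theorem bb_pt {κ : Type} (b : (ν → ℝ) → (κ → ℝ)) (y : μ → ℝ) (s : ℝ) : bb (μ := μ) b (pt y s) = in2 y := by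
  ext i
  rcases i with i | i | i <;> simp [bb, in2, pt]

theorem contDiff_aa {κ : Type} [Fintype κ] {a : (κ → ℝ) → (ν → ℝ)} (ha : ContDiff ℝ ∞ a) (c : ℝ) :
    ContDiff ℝ ∞ (aa (μ := μ) a c) := by
  rw [contDiff_pi]
  rintro (i | (i | i) | i)
  · refine (contDiff_const.sub (contDiff_apply ℝ ℝ _)).mul ?_
    exact (contDiff_pi.1 ha i).comp (contDiff_pi.2 fun i => contDiff_apply ℝ ℝ _)
  · exact contDiff_apply ℝ ℝ _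
  · exact contDiff_const.mul (contDiff_apply ℝ ℝ _)
  · exact contDiff_apply ℝ ℝ _

theorem contDiff_bb {κ : Type} [Fintype κ] {b : (ν → ℝ) → (κ → ℝ)} (hb : ContDiff ℝ ∞ b) :
    ContDiff ℝ ∞ (bb (μ := μ) b) := by
  rw [contDiff_pi]
  rintro (i | i | i)
  · refine (contDiff_const.sub (contDiff_apply ℝ ℝ _)).mul ?_
    exact (contDiff_pi.1 hb i).comp (contDiff_pi.2 fun i => contDiff_apply ℝ ℝ _)
  · exact contDiff_apply ℝ ℝ _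
  · exact contDiff_apply ℝ ℝ _

theorem level {κ : Type} [Fintype κ] {X : Set (κ → ℝ)} {W : Set (ν → ℝ)} {Y : Set (μ → ℝ)} {τ : (ν → ℝ) → ℝ}
    {a : (κ → ℝ) → (ν → ℝ)} {c : ℝ} (ha : IsDiffeo a X {x ∈ W | τ x = c}) :
    IsDiffeo (aa a c) (in1 '' X ∪ in2 '' Y) {z ∈ WW W Y | tt τ z = c} := by
  obtain ⟨h1, h2, b, h3, h4, h5, h6⟩ := ha
  refine ⟨contDiff_aa h1 c, ?_, bb b, contDiff_bb h3, ?_, ?_, ?_⟩
  · rintro z (⟨x, hx, rfl⟩ | ⟨y, hy, rfl⟩)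
    · rw [aa_in1]
      refine ⟨mem_WW.2 (Or.inl ⟨a x, (h2 hx).1, rfl⟩), ?_⟩
      rw [tt_in1]
      exact (h2 hx).2
    · rw [aa_in2]
      refine ⟨mem_WW.2 (Or.inr ⟨y, hy, c, rfl⟩), ?_⟩
      rw [tt_pt]
  · rintro z ⟨hz, hc⟩
    rcases mem_WW.1 hz with ⟨w, hw, rfl⟩ | ⟨y, hy, s, rfl⟩
    · rw [tt_in1] at hc
      rw [bb_in1]
      exact Or.inl ⟨_, h4 ⟨hw, hc⟩, rfl⟩
    · rw [bb_pt]
      exact Or.inr ⟨y, hy, rfl⟩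
  · rintro z (⟨x, hx, rfl⟩ | ⟨y, hy, rfl⟩)
    · rw [aa_in1, bb_in1, h5 x hx]
    · rw [aa_in2, bb_pt]
  · rintro z ⟨hz, hc⟩
    rcases mem_WW.1 hz with ⟨w, hw, rfl⟩ | ⟨y, hy, s, rfl⟩
    · rw [tt_in1] at hc
      rw [bb_in1, aa_in1, h6 w ⟨hw, hc⟩]
    · rw [tt_pt] at hc
      rw [bb_pt, aa_in2, hc]

end

end K3

open K3 in
theorem sum_bord_left {A A' : Sing V m} (B : Sing V m) (h : Bord A A') : Bord (A.sum B) (A'.sum B) := by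
  obtain ⟨ν, hν, W, τ, F, hW, hτ, hreg, hc, hF, hFV, ⟨a, ha, haf⟩, b, hb, hbf⟩ := h
  have hcompact : IsCompact {z ∈ WW W B.X | 0 ≤ tt τ z ∧ tt τ z ≤ 1} := by
    rw [slab_eq]
    exact (hc.image contDiff_in1.continuous).union ((B.compact.prod isCompact_Icc).image continuous_pt)
  have hcont : ContinuousOn (FF F B.f) {z ∈ WW W B.X | 0 ≤ tt τ z ∧ tt τ z ≤ 1} := by
    rw [slab_eq]
    exact cont_FF hF B.cont
  have hmaps : Set.MapsTo (FF F B.f) {z ∈ WW W B.X | 0 ≤ tt τ z ∧ tt τ z ≤ 1} V := by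
    rw [slab_eq]
    rintro z (⟨w, hw, rfl⟩ | ⟨⟨y, s⟩, ⟨hy, hs⟩, rfl⟩)
    · rw [FF_in1]
      exact hFV hw
    · rw [FF_pt]
      exact B.maps hy
  have hval : ∀ (C : Sing V m) (c : ℝ) (a : (C.κ → ℝ) → (ν → ℝ)), (∀ x ∈ C.X, F (a x) = C.f x) →
      ∀ z ∈ (C.sum B).X, FF F B.f (aa a c z) = (C.sum B).f z := by
    rintro C c a haf z (⟨x, hx, rfl⟩ | ⟨y, hy, rfl⟩)
    · rw [aa_in1, FF_in1, haf x hx]
      symm
      exact if_pos (by show (0 : ℝ) < 1 / 2; norm_num)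
    · rw [aa_in2, FF_pt]
      symm
      exact if_neg (by show ¬ (1 : ℝ) < 1 / 2; norm_num)
  exact ⟨ν ⊕ (B.κ ⊕ Unit) ⊕ Unit, inferInstance, WW W B.X, tt τ, FF F B.f, isSubmfd_WW hW B.submfd, contDiff_tt hτ,
    fun z hz h01 => reg hτ hreg z hz h01, hcompact, hcont, hmaps, ⟨aa a 0, level ha, hval A 0 a haf⟩,
    aa b 1, level hb, hval A' 1 b hbf⟩

end

end Pool.Agent.Helper79.BP
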