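import Pool.Agent.Helper79.BP.KitP0

/-!
PROJECT BP, kit: a set with local parametrisations is a submanifold.

`isSubmfd_of_param`. PROOF. Let `z ∈ X` and `P` as in the hypothesis (smooth on the open set `O ∋ 0`, `P 0 = z`, `dP_0` injective, `map P (𝓝 0) = 𝓝[X] z`).
`m ≤ card ι`; choose a linear map `A : ℝ^c → ℝ^ι`, `c = card ι - m`, injective, with image complementary to the image of `dP_0`. `Φ(u, w) = P u + A w` is
smooth on `O × ℝ^c`, with bijective derivative at `(0, 0)`; `H` its local homeomorphism, with inverse `C^∞` on a neighbourhood `V` of `z` (the derivative of `Φ` stays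
bijective near `(0, 0)`, and `OpenPartialHomeomorph.contDiffAt_symm` at each point; for `n = ∞` smoothness at one point is not enough). Put
`g = snd ∘ H.symm` on `V` (shrink `V` so that `H.symm V ⊆ O' × ℝ^c`, where `O' ⊆ O` is a neighbourhood of `0` with `P O' ⊆ X`, and so that every `y ∈ X ∩ V` is `P u` with
`u` so small that `(u, 0)` is in the source of `H`, which is possible by the hypothesis on `map P`). If `y ∈ X ∩ V`: `y = P u = Φ(u, 0)`, `H.symm y = (u, 0)`, `g y = 0`. If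
`y ∈ V`, `g y = 0`: `H.symm y = (u, 0)`, `y = Φ(u, 0) = P u ∈ X`. `dg_z` is onto because `g (Φ(0, w)) = w`.

`tan_iff_of_param`. PROOF. `⊇`: the curve `t ↦ P (t u)` lies in `X` near `t = 0` (`tan_of_curve`). `⊆`: both spaces have dimension `m` (`isSubmfd_of_param` is about all points; but
one point is enough: prove first the local version `∃ c g U ...` at `x` and use `tan_iff`), or: `Tan X x v` is killed by `g` above, and `ker dg_z = im dP_0` by
`g ∘ Φ = snd`.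
-/

set_option autoImplicit false

namespace Pool.Agent.Helper79.BP

open MvPolynomial Filter
open scoped ContDiff Topology

/-- The local version: a parametrisation at `x` gives a local equation at `x`, with the expected kernel. -/
theorem IsParam.exists_local {ι : Type} [Fintype ι] {m : ℕ} {X : Set (ι → ℝ)} {x : ι → ℝ} {P : (Fin m → ℝ) → (ι → ℝ)}
    (hP : IsParam m X x P) : ∃ (c : ℕ) (g : (ι → ℝ) → (Fin c → ℝ)) (U : Set (ι → ℝ)), c + m = Fintype.card ι ∧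
    IsOpen U ∧ x ∈ U ∧ ContDiffOn ℝ ∞ g U ∧ (∀ y ∈ U, y ∈ X ↔ g y = 0) ∧
    Function.Surjective (fderiv ℝ g x) ∧ ∀ v, fderiv ℝ g x v = 0 ↔ ∃ u, fderiv ℝ P 0 u = v := by
  obtain ⟨⟨O, hO, h0O, hPO⟩, hP0, hinj, hmap⟩ := hP
  -- a complement of the image of `dP_0`
  obtain ⟨W, hW⟩ := Submodule.exists_isCompl (LinearMap.range (fderiv ℝ P 0 : (Fin m → ℝ) →ₗ[ℝ] (ι → ℝ)))
  have hrk : Module.finrank ℝ (LinearMap.range (fderiv ℝ P 0 : (Fin m → ℝ) →ₗ[ℝ] (ι → ℝ))) = m := by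
    rw [LinearMap.finrank_range_of_inj (f := (fderiv ℝ P 0 : (Fin m → ℝ) →ₗ[ℝ] (ι → ℝ))) hinj]
    simp
  have hdim : Module.finrank ℝ W + m = Fintype.card ι := by
    have h1 := Submodule.finrank_add_eq_of_isCompl hW
    rw [hrk, Module.finrank_fintype_fun_eq_card] at h1
    omega
  let eW : (Fin (Module.finrank ℝ W) → ℝ) ≃ₗ[ℝ] W := LinearEquiv.ofFinrankEq _ _ (by simp)
  let A : (Fin (Module.finrank ℝ W) → ℝ) →L[ℝ] (ι → ℝ) :=
    LinearMap.toContinuousLinearMap (W.subtype ∘ₗ (eW : (Fin (Module.finrank ℝ W) → ℝ) →ₗ[ℝ] W))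
  have hA : ∀ w, A w = (eW w : ι → ℝ) := fun w => rfl
  have hcop : ∀ p, ((fderiv ℝ P 0).coprod A) p = fderiv ℝ P 0 p.1 + A p.2 := fun p => by
    simp [ContinuousLinearMap.coprod_apply]
  have hinj2 : Function.Injective ((fderiv ℝ P 0).coprod A) := by
    rw [injective_iff_map_eq_zero]
    rintro ⟨u, w⟩ huw
    rw [hcop] at huw
    have h1 : fderiv ℝ P 0 u ∈ LinearMap.range (fderiv ℝ P 0 : (Fin m → ℝ) →ₗ[ℝ] (ι → ℝ)) := ⟨u, rfl⟩
    have h2 : fderiv ℝ P 0 u ∈ W := by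
      have : fderiv ℝ P 0 u = -(eW w : ι → ℝ) := by
        rw [← hA]
        exact eq_neg_of_add_eq_zero_left huw
      rw [this]
      exact W.neg_mem (eW w).2
    have h3 : fderiv ℝ P 0 u = 0 := (Submodule.disjoint_def.1 hW.disjoint) _ h1 h2
    have h4 : u = 0 := hinj (by rw [h3, map_zero])
    have h5 : A w = 0 := by simpa [h3] using huw
    have h6 : eW w = 0 := Subtype.ext (by rw [← hA, h5]; rfl)
    have h7 : w = 0 := eW.map_eq_zero_iff.1 h6
    rw [h4, h7]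
    rfl
  have hfr : Module.finrank ℝ ((Fin m → ℝ) × (Fin (Module.finrank ℝ W) → ℝ)) = Module.finrank ℝ (ι → ℝ) := by
    rw [Module.finrank_prod, Module.finrank_fintype_fun_eq_card, Module.finrank_fintype_fun_eq_card,
      Module.finrank_fintype_fun_eq_card, Fintype.card_fin, Fintype.card_fin]
    omega
  let Φ' : ((Fin m → ℝ) × (Fin (Module.finrank ℝ W) → ℝ)) ≃L[ℝ] (ι → ℝ) :=
    (LinearEquiv.ofInjectiveOfFinrankEq
      (((fderiv ℝ P 0).coprod A : ((Fin m → ℝ) × (Fin (Module.finrank ℝ W) → ℝ)) →L[ℝ] (ι → ℝ)) :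
        ((Fin m → ℝ) × (Fin (Module.finrank ℝ W) → ℝ)) →ₗ[ℝ] (ι → ℝ)) hinj2 hfr).toContinuousLinearEquiv
  have hΦ' : (Φ' : ((Fin m → ℝ) × (Fin (Module.finrank ℝ W) → ℝ)) →L[ℝ] (ι → ℝ)) = (fderiv ℝ P 0).coprod A :=
    ContinuousLinearMap.ext fun _ => rfl
  -- the map `Φ`
  let Φ : ((Fin m → ℝ) × (Fin (Module.finrank ℝ W) → ℝ)) → (ι → ℝ) := fun p => P p.1 + A p.2
  have hΦd : ∀ p : (Fin m → ℝ) × (Fin (Module.finrank ℝ W) → ℝ), p.1 ∈ O →
      HasFDerivAt Φ ((fderiv ℝ P p.1).coprod A) p := by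
    intro p hp
    have h1 : HasFDerivAt P (fderiv ℝ P p.1) p.1 :=
      ((hPO.contDiffAt (hO.mem_nhds hp)).differentiableAt (by norm_num)).hasFDerivAt
    have h2 := (h1.comp p (hasFDerivAt_fst (𝕜 := ℝ))).add (A.hasFDerivAt.comp p (hasFDerivAt_snd (𝕜 := ℝ)))
    refine h2.congr_fderiv ?_
    ext v <;> simp
  have hΦc : ∀ p : (Fin m → ℝ) × (Fin (Module.finrank ℝ W) → ℝ), p.1 ∈ O → ContDiffAt ℝ ∞ Φ p := by
    intro p hp
    have h1 : ContDiffAt ℝ ∞ P p.1 := hPO.contDiffAt (hO.mem_nhds hp)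
    exact (h1.comp p contDiffAt_fst).add (A.contDiff.contDiffAt.comp p contDiffAt_snd)
  have hd0 : HasFDerivAt Φ (Φ' : ((Fin m → ℝ) × (Fin (Module.finrank ℝ W) → ℝ)) →L[ℝ] (ι → ℝ)) (0, 0) := by
    rw [hΦ']
    exact hΦd (0, 0) h0O
  let H := (hΦc (0, 0) h0O).toOpenPartialHomeomorph Φ hd0 (by norm_num)
  have hHc : ∀ p, H p = Φ p := fun p => rfl
  have hH0 : ((0, 0) : (Fin m → ℝ) × (Fin (Module.finrank ℝ W) → ℝ)) ∈ H.source :=
    ContDiffAt.mem_toOpenPartialHomeomorph_source _ _ _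
  have hΦ0 : Φ (0, 0) = x := by
    show P 0 + A 0 = x
    rw [map_zero, add_zero, hP0]
  have hΦu : ∀ u, Φ (u, 0) = P u := fun u => by
    show P u + A 0 = P u
    rw [map_zero, add_zero]
  -- the good neighbourhood of the origin
  have hn1 : ∀ᶠ p in 𝓝 ((0, 0) : (Fin m → ℝ) × (Fin (Module.finrank ℝ W) → ℝ)), p ∈ H.source :=
    H.open_source.mem_nhds hH0
  have hfst : Tendsto (fun p : (Fin m → ℝ) × (Fin (Module.finrank ℝ W) → ℝ) => p.1) (𝓝 (0, 0)) (𝓝 0) :=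
    continuous_fst.tendsto' _ _ rfl
  have hn2 : ∀ᶠ p in 𝓝 ((0, 0) : (Fin m → ℝ) × (Fin (Module.finrank ℝ W) → ℝ)), p.1 ∈ O :=
    hfst.eventually (hO.mem_nhds h0O)
  have hn3 : ∀ᶠ p in 𝓝 ((0, 0) : (Fin m → ℝ) × (Fin (Module.finrank ℝ W) → ℝ)), P p.1 ∈ X := by
    have h1 : X ∈ map P (𝓝 0) := by
      rw [hmap]
      exact self_mem_nhdsWithin
    have h2 : ∀ᶠ u in 𝓝 (0 : Fin m → ℝ), P u ∈ X := h1
    exact hfst.eventually h2
  have hn4 : ∀ᶠ p in 𝓝 ((0, 0) : (Fin m → ℝ) × (Fin (Module.finrank ℝ W) → ℝ)),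
      ∃ e : ((Fin m → ℝ) × (Fin (Module.finrank ℝ W) → ℝ)) ≃L[ℝ] (ι → ℝ),
        (e : ((Fin m → ℝ) × (Fin (Module.finrank ℝ W) → ℝ)) →L[ℝ] (ι → ℝ)) = (fderiv ℝ P p.1).coprod A := by
    have hcont : ContinuousAt (fderiv ℝ P) 0 :=
      (hPO.continuousOn_fderiv_of_isOpen hO (by norm_num)).continuousAt (hO.mem_nhds h0O)
    have h2 : Tendsto (fun p : (Fin m → ℝ) × (Fin (Module.finrank ℝ W) → ℝ) => (fderiv ℝ P p.1).coprod A)
        (𝓝 (0, 0)) (𝓝 (Φ' : ((Fin m → ℝ) × (Fin (Module.finrank ℝ W) → ℝ)) →L[ℝ] (ι → ℝ))) := by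
      rw [hΦ']
      have h3 : Tendsto (fun p : (Fin m → ℝ) × (Fin (Module.finrank ℝ W) → ℝ) => fderiv ℝ P p.1)
          (𝓝 (0, 0)) (𝓝 (fderiv ℝ P 0)) := hcont.tendsto.comp hfst
      have h4 : (fun p : (Fin m → ℝ) × (Fin (Module.finrank ℝ W) → ℝ) => (fderiv ℝ P p.1).coprod A) =
          fun p => (fderiv ℝ P p.1).comp (ContinuousLinearMap.fst ℝ (Fin m → ℝ) (Fin (Module.finrank ℝ W) → ℝ)) +
            A.comp (ContinuousLinearMap.snd ℝ (Fin m → ℝ) (Fin (Module.finrank ℝ W) → ℝ)) := by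
        ext p v <;> simp
      have h5 : (fderiv ℝ P 0).coprod A =
          (fderiv ℝ P 0).comp (ContinuousLinearMap.fst ℝ (Fin m → ℝ) (Fin (Module.finrank ℝ W) → ℝ)) +
            A.comp (ContinuousLinearMap.snd ℝ (Fin m → ℝ) (Fin (Module.finrank ℝ W) → ℝ)) := by
        ext v <;> simp
      rw [h4, h5]
      have h6 : Continuous (fun T : (Fin m → ℝ) →L[ℝ] (ι → ℝ) =>
          T.comp (ContinuousLinearMap.fst ℝ (Fin m → ℝ) (Fin (Module.finrank ℝ W) → ℝ))) :=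
        continuous_id.clm_comp continuous_const
      exact ((h6.tendsto _).comp h3).add tendsto_const_nhds
    filter_upwards [h2.eventually (ContinuousLinearEquiv.nhds Φ')] with p hp
    obtain ⟨e, he⟩ := hp
    exact ⟨e, he⟩
  obtain ⟨N, hN, hNo, h0N⟩ := mem_nhds_iff.1 ((hn1.and hn2).and (hn3.and hn4))
  -- all points of `X` near `x` come from `N`
  have hV : P '' {u | (u, (0 : Fin (Module.finrank ℝ W) → ℝ)) ∈ N} ∈ 𝓝[X] x := by
    rw [← hmap]
    have h1 : {u | (u, (0 : Fin (Module.finrank ℝ W) → ℝ)) ∈ N} ∈ 𝓝 (0 : Fin m → ℝ) := by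
      have h2 : Tendsto (fun u : Fin m → ℝ => (u, (0 : Fin (Module.finrank ℝ W) → ℝ))) (𝓝 0) (𝓝 (0, 0)) :=
        (Continuous.prodMk_left _).tendsto' _ _ rfl
      exact h2.eventually (hNo.mem_nhds h0N)
    exact image_mem_map h1
  obtain ⟨V, hVo, hxV, hVX⟩ := mem_nhdsWithin.1 hV
  have hxt : x ∈ H.target := by
    rw [← hΦ0]
    exact H.map_source hH0
  have hsx : H.symm x = (0, 0) := by
    rw [← hΦ0]
    exact H.left_inv hH0
  have hsymm : HasFDerivAt H.symm (Φ'.symm : (ι → ℝ) →L[ℝ] ((Fin m → ℝ) × (Fin (Module.finrank ℝ W) → ℝ))) x := by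
    refine H.hasFDerivAt_symm hxt ?_
    rw [hsx]
    exact hd0
  have hgd : HasFDerivAt (fun y => (H.symm y).2)
      ((ContinuousLinearMap.snd ℝ (Fin m → ℝ) (Fin (Module.finrank ℝ W) → ℝ)).comp
        (Φ'.symm : (ι → ℝ) →L[ℝ] ((Fin m → ℝ) × (Fin (Module.finrank ℝ W) → ℝ)))) x :=
    (hasFDerivAt_snd (𝕜 := ℝ)).comp x hsymm
  refine ⟨Module.finrank ℝ W, fun y => (H.symm y).2, (H.target ∩ H.symm ⁻¹' N) ∩ V, hdim,
    (H.isOpen_inter_preimage_symm hNo).inter hVo, ⟨⟨hxt, ?_⟩, hxV⟩, ?_, ?_, ?_, ?_⟩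
  · show H.symm x ∈ N
    rw [hsx]
    exact h0N
  · rintro y ⟨⟨hyt, hyN⟩, _⟩
    obtain ⟨⟨-, h2⟩, -, e, he⟩ := hN hyN
    refine ContDiffAt.contDiffWithinAt ?_
    have h3 : ContDiffAt ℝ ∞ H.symm y := by
      refine H.contDiffAt_symm (f₀' := e) hyt ?_ (hΦc _ h2)
      rw [he]
      exact hΦd _ h2
    exact contDiffAt_snd.comp y h3
  · rintro y ⟨⟨hyt, hyN⟩, hyV⟩
    constructor
    · intro hyX
      obtain ⟨u, huN, hu⟩ := hVX ⟨hyV, hyX⟩
      have h1 : (u, (0 : Fin (Module.finrank ℝ W) → ℝ)) ∈ H.source := (hN huN).1.1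
      have h2 : H (u, 0) = y := by
        rw [hHc, hΦu, hu]
      show (H.symm y).2 = 0
      rw [← h2, H.left_inv h1]
    · intro h0
      have h1 : (H.symm y).2 = 0 := h0
      have h2 : H (H.symm y) = y := H.right_inv hyt
      have h3 : H.symm y = ((H.symm y).1, 0) := Prod.ext rfl h1
      have h4 : P (H.symm y).1 = y := by
        rw [← hΦu, ← h3, ← hHc, h2]
      rw [← h4]
      exact (hN hyN).2.1
  · rw [hgd.fderiv]
    intro w
    refine ⟨Φ' (0, w), ?_⟩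
    simp
  · intro v
    rw [hgd.fderiv]
    constructor
    · intro h
      have h1 : (Φ'.symm v).2 = 0 := h
      refine ⟨(Φ'.symm v).1, ?_⟩
      have h2 : Φ' (Φ'.symm v) = v := Φ'.apply_symm_apply v
      have h3 : Φ' (Φ'.symm v) = ((fderiv ℝ P 0).coprod A) (Φ'.symm v) := by
        rw [← hΦ']
        rfl
      rw [hcop, h1, map_zero, add_zero, h2] at h3
      exact h3.symm
    · rintro ⟨u, rfl⟩
      have h3 : Φ' (u, 0) = fderiv ℝ P 0 u := by
        have h4 : Φ' (u, 0) = ((fderiv ℝ P 0).coprod A) (u, 0) := by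
          rw [← hΦ']
          rfl
        rw [h4, hcop]
        simp
      show (Φ'.symm (fderiv ℝ P 0 u)).2 = 0
      rw [← h3, Φ'.symm_apply_apply]

theorem isSubmfd_of_param {ι : Type} [Fintype ι] {m : ℕ} {X : Set (ι → ℝ)}
    (h : ∀ x ∈ X, ∃ P : (Fin m → ℝ) → (ι → ℝ), IsParam m X x P) : IsSubmfd m X := by
  intro x hx
  obtain ⟨P, hP⟩ := h x hx
  obtain ⟨c, g, U, h1, h2, h3, h4, h5, h6, _⟩ := hP.exists_local
  exact ⟨c, g, U, h1, h2, h3, h4, h5, h6⟩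

/-- The tangent vectors are the velocities of the parametrisation. -/
theorem tan_iff_of_param {ι : Type} [Fintype ι] {m : ℕ} {X : Set (ι → ℝ)} {x v : ι → ℝ} {P : (Fin m → ℝ) → (ι → ℝ)}
    (hP : IsParam m X x P) (hx : x ∈ X) : Tan X x v ↔ ∃ u, fderiv ℝ P 0 u = v := by
  obtain ⟨c, g, U, h1, h2, h3, h4, h5, h6, h7⟩ := hP.exists_local
  rw [tan_iff h2 h3 h4 h5 hx h6, h7]

end Pool.Agent.Helper79.BP
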