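import Pool.Agent.Helper79.BP.KitD

/-!
PROJECT BP, kit: local parametrisations of submanifolds: the definition.
-/

set_option autoImplicit false

namespace Pool.Agent.Helper79.BP

open MvPolynomial Filter
open scoped ContDiff Topology

/-- `P` parametrises `X` near `x = P 0`. -/
def IsParam {ι : Type} [Fintype ι] (m : ℕ) (X : Set (ι → ℝ)) (x : ι → ℝ) (P : (Fin m → ℝ) → (ι → ℝ)) : Prop :=
  (∃ O : Set (Fin m → ℝ), IsOpen O ∧ (0 : Fin m → ℝ) ∈ O ∧ ContDiffOn ℝ ∞ P O) ∧ P 0 = x ∧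
    Function.Injective (fderiv ℝ P 0) ∧ map P (𝓝 0) = 𝓝[X] x

end Pool.Agent.Helper79.BP
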