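import Pool.Agent.Helper79.BP.KitP0

/-!
PROJECT BP, kit: every submanifold has local parametrisations.

PROOF. Near `x`: `X = {g = 0}`, `g` smooth on the open set `U`, to `ℝ^c`, `dg_x` onto, `K = ker dg_x` of dimension `m` (finrank). Let
`π : ℝ^ι → K` be a continuous linear projection and `e : K ≃ ℝ^m` a linear isomorphism. `Φ = (g, e π (· - x)) : ℝ^ι → ℝ^c × ℝ^m` is smooth on `U`, with
bijective strict derivative at `x`; let `H` be the local homeomorphism (`HasStrictFDerivAt.toOpenPartialHomeomorph` or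
`ContDiffAt.toOpenPartialHomeomorph`). The derivative of `Φ` is still bijective near `x` (the invertible maps are open:
`ContinuousLinearEquiv.nhds`, continuity of `fderiv`), so `H.symm` is `C^∞` on a neighbourhood of `Φ x = (0, 0)` (`OpenPartialHomeomorph.contDiffAt_symm` at each
point). Put `P u = H.symm (0, u)` near `0`. Then `P 0 = x`, `Φ (P u) = (0, u)`, so `dP_0` is injective, and `map P (𝓝 0) = 𝓝[X] x`: for `y ∈ X` near
`x`, `Φ y = (0, u)` with `u = e π (y - x)` and `y = P u`. (For `O` a neighbourhood of `0`: the set of `y ∈ X` near `x` with `e π (y - x) ∈ O` lies in `P '' O`.)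

The general remark on local inverses (smooth on a whole neighbourhood, not only at one point) is worth an auxiliary lemma.
-/

set_option autoImplicit false

namespace Pool.Agent.Helper79.BP

open MvPolynomial Filter
open scoped ContDiff Topology

/-- The local inverse is smooth on a whole neighbourhood. -/
theorem localInverse_contDiffOn {E F : Type*} [NormedAddCommGroup E] [NormedSpace ℝ E] [CompleteSpace E]
    [NormedAddCommGroup F] [NormedSpace ℝ F] {Φ : E → F} {U : Set E} (hU : IsOpen U) {x : E} (hx : x ∈ U)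
    (hΦ : ContDiffOn ℝ ∞ Φ U) {Θ : E ≃L[ℝ] F} (hd : HasFDerivAt Φ (Θ : E →L[ℝ] F) x) :
    ∃ (H : OpenPartialHomeomorph E F) (W : Set F), (H : E → F) = Φ ∧ x ∈ H.source ∧ IsOpen W ∧ Φ x ∈ W ∧
      W ⊆ H.target ∧ (∀ z ∈ W, H.symm z ∈ U) ∧ ∀ z ∈ W, ContDiffAt ℝ ∞ H.symm z := by
  have hΦx : ContDiffAt ℝ ∞ Φ x := hΦ.contDiffAt (hU.mem_nhds hx)
  let H : OpenPartialHomeomorph E F := hΦx.toOpenPartialHomeomorph Φ hd (by simp)
  have hH : (H : E → F) = Φ := hΦx.toOpenPartialHomeomorph_coe hd (by simp)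
  have hxs : x ∈ H.source := hΦx.mem_toOpenPartialHomeomorph_source hd (by simp)
  have hN : IsOpen (U ∩ (fderiv ℝ Φ) ⁻¹' (Set.range ((↑) : (E ≃L[ℝ] F) → E →L[ℝ] F))) :=
    (hΦ.continuousOn_fderiv_of_isOpen hU (by simp)).isOpen_inter_preimage hU ContinuousLinearEquiv.isOpen
  refine ⟨H, H.target ∩ H.symm ⁻¹' (U ∩ (fderiv ℝ Φ) ⁻¹' (Set.range ((↑) : (E ≃L[ℝ] F) → E →L[ℝ] F))), hH, hxs,
    H.isOpen_inter_preimage_symm hN, ?_, Set.inter_subset_left, ?_, ?_⟩
  · have h1 : Φ x ∈ H.target := by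
      rw [← hH]
      exact H.map_source hxs
    have h2 : H.symm (Φ x) = x := by
      rw [← hH]
      exact H.left_inv hxs
    refine ⟨h1, ?_⟩
    show H.symm (Φ x) ∈ U ∩ (fderiv ℝ Φ) ⁻¹' (Set.range ((↑) : (E ≃L[ℝ] F) → E →L[ℝ] F))
    rw [h2]
    exact ⟨hx, Θ, hd.fderiv.symm⟩
  · rintro z ⟨-, hz, -⟩
    exact hz
  · rintro z ⟨hz, hzU, Θ', hΘ'⟩
    have h1 : ContDiffAt ℝ ∞ Φ (H.symm z) := hΦ.contDiffAt (hU.mem_nhds hzU)
    refine H.contDiffAt_symm (f₀' := Θ') hz ?_ ?_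
    · rw [hH, hΘ']
      exact (h1.differentiableAt (by simp)).hasFDerivAt
    · rw [hH]
      exact h1

theorem IsSubmfd.exists_param {ι : Type} [Fintype ι] {m : ℕ} {X : Set (ι → ℝ)} (hX : IsSubmfd m X) {x : ι → ℝ}
    (hx : x ∈ X) : ∃ P : (Fin m → ℝ) → (ι → ℝ), IsParam m X x P := by
  obtain ⟨c, g, U, hc, hU, hxU, hg, h0, hs⟩ := hX x hx
  have hmem : U ∈ 𝓝 x := hU.mem_nhds hxU
  have hgx : g x = 0 := (h0 x hxU).1 hx
  set A : (ι → ℝ) →L[ℝ] (Fin c → ℝ) := fderiv ℝ g x with hA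
  let K : Submodule ℝ (ι → ℝ) := LinearMap.ker (A : (ι → ℝ) →ₗ[ℝ] (Fin c → ℝ))
  have hK : Module.finrank ℝ K = m := by
    have h2 := LinearMap.finrank_range_add_finrank_ker (A : (ι → ℝ) →ₗ[ℝ] (Fin c → ℝ))
    rw [LinearMap.range_eq_top.2 hs, finrank_top] at h2
    simp only [Module.finrank_fintype_fun_eq_card, Fintype.card_fin] at h2
    change Module.finrank ℝ (LinearMap.ker (A : (ι → ℝ) →ₗ[ℝ] (Fin c → ℝ))) = m
    omega
  let e : K ≃ₗ[ℝ] (Fin m → ℝ) := LinearEquiv.ofFinrankEq K (Fin m → ℝ) (by rw [hK]; simp)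
  obtain ⟨π, hπ⟩ := LinearMap.exists_leftInverse_of_injective K.subtype K.ker_subtype
  let Bl : (ι → ℝ) →ₗ[ℝ] (Fin m → ℝ) := e.toLinearMap ∘ₗ π
  let B : (ι → ℝ) →L[ℝ] (Fin m → ℝ) := LinearMap.toContinuousLinearMap Bl
  have hBv : ∀ v, B v = e (π v) := fun v => rfl
  let T : (ι → ℝ) →ₗ[ℝ] (Fin c → ℝ) × (Fin m → ℝ) := (A : (ι → ℝ) →ₗ[ℝ] (Fin c → ℝ)).prod Bl
  have hT : Function.Injective T := by
    rw [← LinearMap.ker_eq_bot, LinearMap.ker_eq_bot']
    intro v hv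
    have h1 : A v = 0 := congrArg Prod.fst hv
    have h2 : e (π v) = 0 := congrArg Prod.snd hv
    have h3 : π v = 0 := by simpa using h2
    have h4 : π (K.subtype ⟨v, h1⟩) = ⟨v, h1⟩ := LinearMap.congr_fun hπ ⟨v, h1⟩
    have h5 : (⟨v, h1⟩ : K) = 0 := by
      rw [← h4]
      exact h3
    exact congrArg Subtype.val h5
  let Θ : (ι → ℝ) ≃L[ℝ] (Fin c → ℝ) × (Fin m → ℝ) :=
    (LinearMap.linearEquivOfInjective T hT (by simp [← hc])).toContinuousLinearEquiv
  have hΘ : ∀ v, Θ v = (A v, B v) := fun v => rfl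
  let Φ : (ι → ℝ) → (Fin c → ℝ) × (Fin m → ℝ) := fun y => (g y, B (y - x))
  have hΦ : ContDiffOn ℝ ∞ Φ U := hg.prodMk (B.contDiff.comp (contDiff_id.sub contDiff_const)).contDiffOn
  have hd : HasFDerivAt Φ (Θ : (ι → ℝ) →L[ℝ] (Fin c → ℝ) × (Fin m → ℝ)) x := by
    have h1 : HasFDerivAt g A x := ((hg.contDiffAt hmem).differentiableAt (by simp)).hasFDerivAt
    have h2 : HasFDerivAt (fun y => B (y - x)) B x := by
      have := B.hasFDerivAt.comp x ((hasFDerivAt_id x).sub_const x)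
      simpa using this
    have h3 := h1.prodMk h2
    have h4 : (Θ : (ι → ℝ) →L[ℝ] (Fin c → ℝ) × (Fin m → ℝ)) = A.prod B := by
      ext v <;> rfl
    rw [h4]
    exact h3
  obtain ⟨H, W, hH, hxs, hWo, hxW, hWt, hWU, hWs⟩ := localInverse_contDiffOn hU hxU hΦ hd
  have hΦx : Φ x = (0, 0) := by
    show (g x, B (x - x)) = (0, 0)
    rw [hgx, sub_self, map_zero]
  let P : (Fin m → ℝ) → (ι → ℝ) := fun u => H.symm (0, u)
  let J : (Fin m → ℝ) → (Fin c → ℝ) × (Fin m → ℝ) := fun u => (0, u)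
  have hJ : Continuous J := continuous_const.prodMk continuous_id
  have hJs : ContDiff ℝ ∞ J := contDiff_const.prodMk contDiff_id
  have hJ0 : J 0 ∈ W := by
    show ((0, 0) : (Fin c → ℝ) × (Fin m → ℝ)) ∈ W
    rw [← hΦx]
    exact hxW
  have hOo : IsOpen (J ⁻¹' W) := hWo.preimage hJ
  have hPs : ∀ u ∈ J ⁻¹' W, ContDiffAt ℝ ∞ P u := fun u hu => (hWs _ hu).comp u hJs.contDiffAt
  have hP0 : P 0 = x := by
    show H.symm (0, 0) = x
    rw [← hΦx, ← hH]
    exact H.left_inv hxs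
  have hΦP : ∀ u ∈ J ⁻¹' W, Φ (P u) = J u := by
    intro u hu
    have := H.right_inv (hWt hu)
    rw [hH] at this
    exact this
  have hPd : HasFDerivAt P (fderiv ℝ P 0) 0 := ((hPs 0 hJ0).differentiableAt (by simp)).hasFDerivAt
  refine ⟨P, ⟨J ⁻¹' W, hOo, hJ0, fun u hu => (hPs u hu).contDiffWithinAt⟩, hP0, ?_, ?_⟩
  · have h1 : HasFDerivAt (Φ ∘ P) ((Θ : (ι → ℝ) →L[ℝ] (Fin c → ℝ) × (Fin m → ℝ)).comp (fderiv ℝ P 0)) 0 := by
      refine HasFDerivAt.comp (0 : Fin m → ℝ) ?_ hPd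
      rw [hP0]
      exact hd
    have h2 : HasFDerivAt J ((0 : (Fin m → ℝ) →L[ℝ] (Fin c → ℝ)).prod (ContinuousLinearMap.id ℝ (Fin m → ℝ))) 0 :=
      (hasFDerivAt_const (0 : Fin c → ℝ) (0 : Fin m → ℝ)).prodMk (hasFDerivAt_id (0 : Fin m → ℝ))
    have h3 : (Φ ∘ P) =ᶠ[𝓝 0] J := by
      filter_upwards [hOo.mem_nhds hJ0] with u hu
      exact hΦP u hu
    have h4 := h1.unique (h2.congr_of_eventuallyEq h3)
    intro a b hab
    have h5 : (Θ : (ι → ℝ) →L[ℝ] (Fin c → ℝ) × (Fin m → ℝ)) (fderiv ℝ P 0 a) =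
        (Θ : (ι → ℝ) →L[ℝ] (Fin c → ℝ) × (Fin m → ℝ)) (fderiv ℝ P 0 b) := by rw [hab]
    have h6 : ∀ a, (Θ : (ι → ℝ) →L[ℝ] (Fin c → ℝ) × (Fin m → ℝ)) (fderiv ℝ P 0 a) = (0, a) := by
      intro a
      exact DFunLike.congr_fun h4 a
    rw [h6, h6] at h5
    exact congrArg Prod.snd h5
  · apply le_antisymm
    · refine tendsto_nhdsWithin_iff.2 ⟨?_, ?_⟩
      · have h1 := hPd.continuousAt.tendsto
        rw [hP0] at h1
        exact h1
      · filter_upwards [hOo.mem_nhds hJ0] with u hu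
        refine (h0 (P u) (hWU _ hu)).2 ?_
        have h1 := hΦP u hu
        exact congrArg Prod.fst h1
    · intro s hsm
      have h1 : Tendsto (fun y => B (y - x)) (𝓝 x) (𝓝 0) := by
        have h2 : Continuous (fun y => B (y - x)) := B.continuous.comp (continuous_id.sub continuous_const)
        have h3 := h2.tendsto x
        simpa using h3
      have h2 : ∀ᶠ y in 𝓝 x, P (B (y - x)) ∈ s := h1.eventually (mem_map.1 hsm)
      rw [mem_nhdsWithin_iff_eventually]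
      filter_upwards [h2, H.open_source.mem_nhds hxs, hmem] with y hy1 hy2 hy3 hy4
      have h3 : Φ y = J (B (y - x)) := by
        show (g y, B (y - x)) = (0, B (y - x))
        rw [(h0 y hy3).1 hy4]
      have h4 : H.symm (Φ y) = y := by
        rw [← hH]
        exact H.left_inv hy2
      have h5 : P (B (y - x)) = y := by
        show H.symm (J (B (y - x))) = y
        rw [← h3, h4]
      rw [← h5]
      exact hy1

end Pool.Agent.Helper79.BP
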