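import Pool.Agent.Helper72.BP.Defs2
import Pool.Agent.Helper79.BP.KitC

/-!
PROJECT BP, bridge T4, part A: homogenisation. A polynomial `f` on the ambient space `ℝ^((ι × ι) ⊕ τ)` gives the weighted homogeneous polynomial
`hom N f = ∑_(k ≤ N) f_k(y yᵀ, t) |y|^(2 (N - k))` on the cone.
-/

set_option autoImplicit false
set_option linter.unusedSectionVars false

namespace Pool.Agent.Helper79.BP

open MvPolynomial Filter
open Pool.Agent.Helper72.BP
open scoped ContDiff Topology

section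
variable {ι τ : Type} [Fintype ι]

/-- The variables of the ambient space as polynomials on the cone. -/
noncomputable def embX : Amb ι τ → MvPolynomial (Var ι τ) ℝ :=
  Sum.elim (fun a => X (Sum.inl a.1) * X (Sum.inl a.2)) (fun s => X (Sum.inr s))

/-- Homogenisation. -/
noncomputable def hmg (N : ℕ) (f : MvPolynomial (Amb ι τ) ℝ) : MvPolynomial (Var ι τ) ℝ :=
  ∑ k ∈ Finset.range (N + 1), aeval embX (homogeneousComponent k f) *
    (∑ i : ι, X (Sum.inl i) ^ 2) ^ (N - k)

theorem aeval_embX (f : MvPolynomial (Amb ι τ) ℝ) (y : ι → ℝ) (t : τ → ℝ) :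
    aeval (Sum.elim y t : Var ι τ → ℝ) (aeval (embX : Amb ι τ → MvPolynomial (Var ι τ) ℝ) f) = eval (emb (y, t)) f := by
  have h : (aeval (Sum.elim y t : Var ι τ → ℝ)).comp (aeval (embX : Amb ι τ → MvPolynomial (Var ι τ) ℝ)) =
      aeval (emb (y, t)) := by
    refine MvPolynomial.algHom_ext fun x => ?_
    rcases x with ⟨a, b⟩ | s
    · simp [embX, emb]
    · simp [embX, emb]
  have h2 := congrArg (fun φ => φ f) h
  simpa [MvPolynomial.coe_aeval_eq_eval] using h2

theorem aeval_hmg (N : ℕ) (f : MvPolynomial (Amb ι τ) ℝ) (y : ι → ℝ) (t : τ → ℝ) :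
    aeval (Sum.elim y t : Var ι τ → ℝ) (hmg N f) =
      ∑ k ∈ Finset.range (N + 1), eval (emb (y, t)) (homogeneousComponent k f) * nsq y ^ (N - k) := by
  rw [hmg, map_sum]
  refine Finset.sum_congr rfl fun k _ => ?_
  rw [map_mul, aeval_embX, map_pow, map_sum]
  congr 2
  simp [nsq]

theorem sum_comp {σ : Type} (N : ℕ) (f : MvPolynomial σ ℝ) (hN : f.totalDegree ≤ N) :
    ∑ k ∈ Finset.range (N + 1), homogeneousComponent k f = f := by
  conv_rhs => rw [← sum_homogeneousComponent f]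
  symm
  refine Finset.sum_subset (Finset.range_mono (by omega)) fun k _ hk => ?_
  exact homogeneousComponent_eq_zero _ _ (by simpa using hk)

/-- On `|y| = 1` the homogenisation is the polynomial. -/
theorem aeval_hmg_one (N : ℕ) (f : MvPolynomial (Amb ι τ) ℝ) (hN : f.totalDegree ≤ N) (y : ι → ℝ) (t : τ → ℝ)
    (hy : nsq y = 1) : aeval (Sum.elim y t : Var ι τ → ℝ) (hmg N f) = eval (emb (y, t)) f := by
  rw [aeval_hmg]
  simp only [hy, one_pow, mul_one]
  rw [← map_sum, sum_comp N f hN]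

theorem eval_homog_smul {σ : Type} (k : ℕ) (f : MvPolynomial σ ℝ) (c : ℝ) (x : σ → ℝ) :
    eval (c • x) (homogeneousComponent k f) = c ^ k * eval x (homogeneousComponent k f) := by
  have h := homogeneousComponent_isHomogeneous k f
  rw [eval_eq, eval_eq, Finset.mul_sum]
  refine Finset.sum_congr rfl fun m hm => ?_
  have h1 : ∏ i ∈ m.support, (c • x) i ^ m i = c ^ k * ∏ i ∈ m.support, x i ^ m i := by
    have h2 : ∑ i ∈ m.support, m i = k := by
      have := h (mem_support_iff.1 hm)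
      rw [Finsupp.weight_apply, Finsupp.sum] at this
      simpa using this
    rw [← h2, ← Finset.prod_pow_eq_pow_sum, ← Finset.prod_mul_distrib]
    refine Finset.prod_congr rfl fun i _ => ?_
    rw [Pi.smul_apply, smul_eq_mul, mul_pow]
  rw [h1]
  ring

theorem emb_smul (c : ℝ) (y : ι → ℝ) (t : τ → ℝ) :
    (emb (c • y, c ^ 2 • t) : Amb ι τ → ℝ) = c ^ 2 • emb (y, t) := by
  funext x
  rcases x with ⟨a, b⟩ | s
  · simp [emb]
    ring
  · simp [emb]

theorem nsq_csmul (c : ℝ) (y : ι → ℝ) : nsq (c • y) = c ^ 2 * nsq y := by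
  simp only [nsq, Pi.smul_apply, smul_eq_mul, mul_pow, Finset.mul_sum]

theorem aeval_hmg_smul (N : ℕ) (f : MvPolynomial (Amb ι τ) ℝ) (y : ι → ℝ) (t : τ → ℝ) (c : ℝ) :
    aeval (Sum.elim (c • y) (c ^ 2 • t) : Var ι τ → ℝ) (hmg N f) =
      c ^ (2 * N) * aeval (Sum.elim y t : Var ι τ → ℝ) (hmg N f) := by
  rw [aeval_hmg, aeval_hmg, Finset.mul_sum]
  refine Finset.sum_congr rfl fun k hk => ?_
  rw [emb_smul, eval_homog_smul, nsq_csmul, mul_pow, ← pow_mul, ← pow_mul]
  have h : 2 * N = 2 * k + 2 * (N - k) := by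
    have := Finset.mem_range.1 hk
    omega
  rw [h, pow_add]
  ring

/-- The homogenisation of a polynomial vanishing on `Z'` is in the cone ideal. -/
theorem hmg_mem (N : ℕ) (f : MvPolynomial (Amb ι τ) ℝ) (hN : f.totalDegree ≤ N) (Z' : Set (Amb ι τ → ℝ))
    (hf : ∀ z ∈ Z', eval z f = 0) : hmg N f ∈ coneIdeal (lift Z') := by
  intro x hx c
  rw [aeval_hmg_smul, aeval_hmg_one N f hN x.1 x.2 hx.1, hf _ hx.2, mul_zero]

end

section
variable {ι τ : Type} [Fintype ι] [Fintype τ]

theorem emb_injective {x x' : (ι → ℝ) × (τ → ℝ)} (hx : nsq x.1 = 1) (hx' : nsq x'.1 = 1) (h : emb x = emb x') :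
    x.2 = x'.2 ∧ (x.1 = x'.1 ∨ x.1 = -x'.1) := by
  have h2 : x.2 = x'.2 := by
    funext s
    exact congrFun h (Sum.inr s)
  have h1 : ∀ a b, x.1 a * x.1 b = x'.1 a * x'.1 b := fun a b => congrFun h (Sum.inl (a, b))
  refine ⟨h2, ?_⟩
  set c : ℝ := ∑ b, x.1 b * x'.1 b with hc
  have h3 : ∀ a, c * x.1 a = x'.1 a := by
    intro a
    have : c * x.1 a = ∑ b, (x.1 a * x.1 b) * x'.1 b := by
      rw [hc, Finset.sum_mul]
      exact Finset.sum_congr rfl fun b _ => by ring
    rw [this]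
    simp only [h1]
    have : ∑ b, x'.1 a * x'.1 b * x'.1 b = x'.1 a * nsq x'.1 := by
      rw [nsq, Finset.mul_sum]
      exact Finset.sum_congr rfl fun b _ => by ring
    rw [this, hx', mul_one]
  have h4 : c ^ 2 = 1 := by
    have : nsq x'.1 = c ^ 2 * nsq x.1 := by
      rw [nsq, nsq, Finset.mul_sum]
      exact Finset.sum_congr rfl fun b _ => by rw [← h3 b]; ring
    rw [hx, hx', mul_one] at this
    exact this.symm
  have h6 : (c - 1) * (c + 1) = 0 := by linear_combination h4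
  rcases (mul_eq_zero.1 h6).imp sub_eq_zero.1 eq_neg_of_add_eq_zero_left with h5 | h5
  · left
    funext a
    rw [← h3 a, h5, one_mul]
  · right
    funext a
    rw [Pi.neg_apply, ← h3 a, h5]
    ring

end

end Pool.Agent.Helper79.BP
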