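import Pool.Agent.Helper79.BP.T4A

/-!
PROJECT BP, bridge T4, part B: the derivative of the homogenisation.
-/

set_option autoImplicit false
set_option linter.unusedSectionVars false

namespace Pool.Agent.Helper79.BP

open MvPolynomial Filter
open Pool.Agent.Helper72.BP
open scoped ContDiff Topology

theorem aev {σ : Type} (w : σ → ℝ) (f : MvPolynomial σ ℝ) : aeval w f = eval w f := rfl

/-- Derivative of a polynomial along a line. -/
theorem hasDerivAt_line {σ : Type} [Fintype σ] (f : MvPolynomial σ ℝ) {γ : ℝ → σ → ℝ} {v : σ → ℝ}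
    (hγ : HasDerivAt γ v 0) : HasDerivAt (fun s => eval (γ s) f) (∑ j, eval (γ 0) (pderiv j f) * v j) 0 := by
  have h := (hasFDerivAt_eval f (γ 0)).comp_hasDerivAt (0 : ℝ) hγ
  refine h.congr_deriv ?_
  simp

section
variable {ι τ : Type} [Fintype ι] [Fintype τ]

/-- The differential of `emb`. -/
def demb (y : ι → ℝ) (v : ι → ℝ) (u : τ → ℝ) : Amb ι τ → ℝ :=
  Sum.elim (fun b => v b.1 * y b.2 + y b.1 * v b.2) u

theorem hasDerivAt_emb (y v : ι → ℝ) (t u : τ → ℝ) :
    HasDerivAt (fun s : ℝ => (emb (y + s • v, t + s • u) : Amb ι τ → ℝ)) (demb y v u) 0 := by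
  rw [hasDerivAt_pi]
  rintro (⟨a, b⟩ | s)
  · have h1 : ∀ i, HasDerivAt (fun s : ℝ => y i + s * v i) (v i) 0 := by
      intro i
      simpa using ((hasDerivAt_id (0 : ℝ)).mul_const (v i)).const_add (y i)
    have h2 := (h1 a).fun_mul (h1 b)
    simp only [zero_mul, add_zero] at h2
    simpa [emb, demb] using h2
  · have h2 := ((hasDerivAt_id (0 : ℝ)).mul_const (u s)).const_add (t s)
    simpa [emb, demb] using h2

theorem hasDerivAt_nsq (y v : ι → ℝ) (hv : ∑ i, y i * v i = 0) :
    HasDerivAt (fun s : ℝ => nsq (y + s • v)) 0 0 := by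
  have h : (fun s : ℝ => nsq (y + s • v)) = fun s => nsq y + s * s * nsq v := by
    funext s
    simp only [nsq, Pi.add_apply, Pi.smul_apply, smul_eq_mul]
    have : ∑ i, (y i + s * v i) ^ 2 = ∑ i, y i ^ 2 + 2 * s * ∑ i, y i * v i + s * s * ∑ i, v i ^ 2 := by
      rw [Finset.mul_sum, Finset.mul_sum, ← Finset.sum_add_distrib, ← Finset.sum_add_distrib]
      exact Finset.sum_congr rfl fun i _ => by ring
    rw [this, hv]
    ring
  rw [h]
  have h2 := (((hasDerivAt_id (0 : ℝ)).mul (hasDerivAt_id (0 : ℝ))).mul_const (nsq v)).const_add (nsq y)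
  simpa using h2

/-- In directions orthogonal to `y` the homogenisation and the polynomial have the same derivative. -/
theorem grad_hmg (N : ℕ) (f : MvPolynomial (Amb ι τ) ℝ) (hN : f.totalDegree ≤ N) (y : ι → ℝ) (t : τ → ℝ)
    (hy : nsq y = 1) (v : ι → ℝ) (u : τ → ℝ) (hv : ∑ i, y i * v i = 0) :
    ∑ i, grad (Sum.elim y t) (hmg N f) (Sum.inl i) * v i + ∑ s, grad (Sum.elim y t) (hmg N f) (Sum.inr s) * u s =
      ∑ a, eval (emb (y, t)) (pderiv a f) * demb y v u a := by
  -- the curve on the cone side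
  have hγ : HasDerivAt (fun s : ℝ => (Sum.elim (y + s • v) (t + s • u) : Var ι τ → ℝ)) (Sum.elim v u) 0 := by
    rw [hasDerivAt_pi]
    rintro (i | i)
    · simpa using ((hasDerivAt_id (0 : ℝ)).mul_const (v i)).const_add (y i)
    · simpa using ((hasDerivAt_id (0 : ℝ)).mul_const (u i)).const_add (t i)
  have h1 := hasDerivAt_line (hmg N f) hγ
  simp only [zero_smul, add_zero] at h1
  rw [Fintype.sum_sum_type] at h1
  simp only [Sum.elim_inl, Sum.elim_inr] at h1
  -- the other side
  have h2 : ∀ k ∈ Finset.range (N + 1), HasDerivAt (fun s : ℝ => eval (emb (y + s • v, t + s • u))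
      (homogeneousComponent k f) * nsq (y + s • v) ^ (N - k))
      (∑ a, eval (emb (y, t)) (pderiv a (homogeneousComponent k f)) * demb y v u a) 0 := by
    intro k _
    have h3 := hasDerivAt_line (homogeneousComponent k f) (hasDerivAt_emb y v t u)
    have h4 := (hasDerivAt_nsq y v hv).fun_pow (N - k)
    have h5 := h3.fun_mul h4
    simp only [zero_smul, add_zero, hy, one_pow, mul_one, mul_zero] at h5
    exact h5
  have h6 := HasDerivAt.fun_sum h2
  have h7 : (fun s : ℝ => ∑ k ∈ Finset.range (N + 1), eval (emb (y + s • v, t + s • u))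
      (homogeneousComponent k f) * nsq (y + s • v) ^ (N - k)) =
      fun s => eval (Sum.elim (y + s • v) (t + s • u) : Var ι τ → ℝ) (hmg N f) := by
    funext s
    rw [← aev, aeval_hmg]
  rw [h7] at h6
  have h8 := h1.unique h6
  simp only [grad, aev]
  rw [h8]
  rw [Finset.sum_comm]
  refine Finset.sum_congr rfl fun a _ => ?_
  rw [← Finset.sum_mul, ← map_sum, ← map_sum, sum_comp N f hN]

end

end Pool.Agent.Helper79.BP
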