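import Pool.Agent.Helper79.BP.T4B

/-!
PROJECT BP, bridge T4, part C: the easy statements `t4_sub`, `t4_off`, `t4_I`, `t4_tan`, for a general tube.
-/

set_option autoImplicit false
set_option linter.unusedSectionVars false

namespace Pool.Agent.Helper79.BP

open MvPolynomial Filter
open Pool.Agent.Helper72.BP
open scoped ContDiff Topology

section
variable {ι τ : Type} [Fintype ι] [Fintype τ] {r : ℕ} (G : Fin r → Matrix ι ι ℝ) (ε : ℝ)
  (Z' : Set (Amb ι τ → ℝ))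

theorem nsq_neg' (y : ι → ℝ) : nsq (-y) = nsq y := by
  simp [nsq]

theorem Ffun_neg (y : ι → ℝ) (t : τ → ℝ) : Ffun G ε (-y) t = Ffun G ε y t := by
  simp [Ffun, nsq, qf]

theorem lift_sub (hZ' : Z' ⊆ Vemb G ε) : lift Z' ⊆ Vt G ε := by
  rintro x ⟨hx, hxZ⟩
  obtain ⟨x', hx', he⟩ := hZ' hxZ
  obtain ⟨h2, h1⟩ := emb_injective hx hx'.1 he.symm
  refine ⟨hx, ?_⟩
  rw [h2]
  rcases h1 with h1 | h1
  · rw [h1]
    exact hx'.2
  · rw [h1, Ffun_neg]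
    exact hx'.2

theorem lift_off (x : (ι → ℝ) × (τ → ℝ)) (hx : nsq x.1 = 1) (h : emb x ∉ zcl Z') :
    ∃ f ∈ coneIdeal (lift Z'), aeval (Sum.elim x.1 x.2 : Var ι τ → ℝ) f ≠ 0 := by
  have h1 : ∃ f : MvPolynomial (Amb ι τ) ℝ, (∀ z ∈ Z', eval z f = 0) ∧ eval (emb x) f ≠ 0 := by
    by_contra hcon
    push_neg at hcon
    exact h fun f hf => hcon f hf
  obtain ⟨f, hf, hfx⟩ := h1
  refine ⟨hmg f.totalDegree f, hmg_mem _ f le_rfl Z' hf, ?_⟩
  rw [aeval_hmg_one _ f le_rfl x.1 x.2 hx]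
  exact hfx

theorem zcl_of_isZero (x : (ι → ℝ) × (τ → ℝ)) (hx : nsq x.1 = 1) (h : IsZero (coneIdeal (lift Z')) x.1 x.2) :
    emb x ∈ zcl Z' := by
  by_contra hcon
  obtain ⟨f, hf, hfx⟩ := lift_off Z' x hx hcon
  exact hfx (h f hf)

/-- The ideal of the complement, without its homogeneity. -/
theorem lift_I (hNZ : IsAlg (zcl Z' \ Z')) :
    (∀ x ∈ lift Z', ∃ h ∈ coneIdeal (lift (zcl Z' \ Z')),
      aeval (Sum.elim x.1 x.2 : Var ι τ → ℝ) h ≠ 0) ∧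
    (∀ (y : ι → ℝ) (t : τ → ℝ), nsq y = 1 → IsZero (coneIdeal (lift Z')) y t →
      ¬ IsZero (coneIdeal (lift (zcl Z' \ Z'))) y t → (y, t) ∈ lift Z') := by
  constructor
  · intro x hx
    have h1 : emb x ∉ zcl (zcl Z' \ Z') := by
      intro hcon
      have h2 := zcl_subset hNZ (le_refl _) hcon
      exact h2.2 hx.2
    exact lift_off (zcl Z' \ Z') x hx.1 h1
  · intro y t hy h1 h2
    refine ⟨hy, ?_⟩
    by_contra hcon
    apply h2
    intro f hf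
    have h3 : (y, t) ∈ lift (zcl Z' \ Z') := ⟨hy, zcl_of_isZero Z' (y, t) hy h1, hcon⟩
    have h4 := hf _ h3 1
    simpa using h4

theorem lift_tan (x : (ι → ℝ) × (τ → ℝ)) (hx : x ∈ lift Z')
    (v : ι → ℝ) (u : τ → ℝ) (hv : ∑ i, x.1 i * v i = 0)
    (hvu : ∀ f ∈ coneIdeal (lift Z'), ∑ i, grad (Sum.elim x.1 x.2) f (Sum.inl i) * v i +
      ∑ s, grad (Sum.elim x.1 x.2) f (Sum.inr s) * u s = 0)
    (P : MvPolynomial (Amb ι τ) ℝ) (hP : ∀ z ∈ Z', eval z P = 0) :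
    ∑ a, eval (emb x) (pderiv a P) *
      (Sum.elim (fun b => v b.1 * x.1 b.2 + x.1 b.1 * v b.2) u : Amb ι τ → ℝ) a = 0 := by
  have h1 := grad_hmg P.totalDegree P le_rfl x.1 x.2 hx.1 v u hv
  rw [hvu _ (hmg_mem _ P le_rfl Z' hP)] at h1
  exact h1.symm

end

end Pool.Agent.Helper79.BP
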