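import Pool.Agent.Helper79.BP.KitG

/-!
PROJECT BP, bridge T4, part D: linear algebra (choice of `p` independent functionals) and local regular zero sets.
-/

set_option autoImplicit false
set_option linter.unusedSectionVars false

namespace Pool.Agent.Helper79.BP

open MvPolynomial Filter
open scoped ContDiff Topology

/-- Linear functionals `φ_i` whose common kernel in `T` has codimension `p`: `p` of them map `T` onto `ℝ^p`. -/
theorem exists_indices {E : Type*} [AddCommGroup E] [Module ℝ E] [FiniteDimensional ℝ E] {c : ℕ}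
    (φ : Fin c → E →ₗ[ℝ] ℝ) (T K : Submodule ℝ E) (m p : ℕ) (hT : Module.finrank ℝ T = m + p)
    (hK : Module.finrank ℝ K = m) (hKT : ∀ v, v ∈ K ↔ v ∈ T ∧ ∀ i, φ i v = 0) :
    ∃ e : Fin p → Fin c, ∀ w : Fin p → ℝ, ∃ v ∈ T, ∀ j, φ (e j) v = w j := by
  classical
  let ψ : Fin c → Module.Dual ℝ T := fun i => (φ i).comp T.subtype
  let W : Submodule ℝ (Module.Dual ℝ T) := Submodule.span ℝ (Set.range ψ)
  have h1 : Module.finrank ℝ W + Module.finrank ℝ W.dualCoannihilator = Module.finrank ℝ T :=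
    Subspace.finrank_add_finrank_dualCoannihilator_eq W
  have hKT' : K ≤ T := fun v hv => ((hKT v).1 hv).1
  have h2 : Module.finrank ℝ W.dualCoannihilator = m := by
    have h3 : W.dualCoannihilator = K.comap T.subtype := by
      ext v
      rw [Submodule.mem_dualCoannihilator, Submodule.mem_comap]
      constructor
      · intro h
        refine (hKT _).2 ⟨v.2, fun i => ?_⟩
        exact h (ψ i) (Submodule.subset_span ⟨i, rfl⟩)
      · intro h f hf
        have h4 : W ≤ LinearMap.ker (Module.Dual.eval ℝ T v) := by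
          refine Submodule.span_le.2 ?_
          rintro _ ⟨i, rfl⟩
          exact ((hKT _).1 h).2 i
        exact h4 hf
    rw [h3]
    rw [(Submodule.comapSubtypeEquivOfLe hKT').finrank_eq, hK]
  have hW : Module.finrank ℝ W = p := by omega
  obtain ⟨κ, a, ha, hspan, hli⟩ := exists_linearIndependent' ℝ ψ
  have : Finite κ := Finite.of_injective a ha
  have : Fintype κ := Fintype.ofFinite κ
  have hcard : Fintype.card κ = p := by
    have h5 := finrank_span_eq_card hli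
    rw [hspan] at h5
    rw [← h5]
    exact hW
  let e0 : Fin p ≃ κ := (Fintype.equivFinOfCardEq hcard).symm
  refine ⟨fun j => a (e0 j), fun w => ?_⟩
  let F : T →ₗ[ℝ] (Fin p → ℝ) := LinearMap.pi fun j => ψ (a (e0 j))
  have hF : LinearMap.range F = ⊤ := by
    by_contra hcon
    obtain ⟨f, hf0, hf⟩ := Submodule.exists_le_ker_of_lt_top (LinearMap.range F) (lt_top_iff_ne_top.2 hcon)
    have h6 : ∀ v, f (F v) = 0 := fun v => hf ⟨v, rfl⟩
    have h7 : ∀ u : Fin p → ℝ, f u = ∑ j, u j * f (Pi.single j 1) := by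
      intro u
      conv_lhs => rw [show u = ∑ j, u j • (Pi.single j (1 : ℝ) : Fin p → ℝ) from by
        ext i
        simp [Finset.sum_apply, Pi.single_apply]]
      rw [map_sum]
      exact Finset.sum_congr rfl fun j _ => by rw [map_smul, smul_eq_mul]
    have h8 : ∑ j, f (Pi.single j 1) • ψ (a (e0 j)) = 0 := by
      ext v
      have := h6 v
      rw [h7] at this
      simp only [LinearMap.sum_apply, LinearMap.smul_apply, smul_eq_mul, LinearMap.zero_apply]
      rw [← this]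
      exact Finset.sum_congr rfl fun j _ => mul_comm _ _
    have hli' : LinearIndependent ℝ (fun j => ψ (a (e0 j))) := hli.comp e0 e0.injective
    have h9 := Fintype.linearIndependent_iff.1 hli' (fun j => f (Pi.single j 1)) h8
    apply hf0
    refine LinearMap.ext fun u => ?_
    rw [h7]
    simp [h9]
  obtain ⟨v, hv⟩ := LinearMap.range_eq_top.1 hF w
  refine ⟨v, v.2, fun j => ?_⟩
  exact congrFun hv j

/-- Surjectivity of the differential is an open condition (right inverse of the differential at the point). -/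
theorem eventually_surjective {ι : Type} [Fintype ι] {c : ℕ} {g : (ι → ℝ) → (Fin c → ℝ)} {U : Set (ι → ℝ)}
    (hU : IsOpen U) {x : ι → ℝ} (hx : x ∈ U) (hg : ContDiffOn ℝ ∞ g U) (hs : Function.Surjective (fderiv ℝ g x)) :
    ∀ᶠ z in 𝓝 x, Function.Surjective (fderiv ℝ g z) := by
  obtain ⟨s, hs'⟩ := (fderiv ℝ g x : (ι → ℝ) →ₗ[ℝ] (Fin c → ℝ)).exists_rightInverse_of_surjective
    (LinearMap.range_eq_top.2 hs)
  let sc : (Fin c → ℝ) →L[ℝ] (ι → ℝ) := LinearMap.toContinuousLinearMap s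
  have hcont : ContinuousAt (fderiv ℝ g) x := by
    have h1 : ContinuousOn (fderiv ℝ g) U := hg.continuousOn_fderiv_of_isOpen hU (by norm_num)
    exact h1.continuousAt (hU.mem_nhds hx)
  have h2 : ContinuousAt (fun z => (fderiv ℝ g z).comp sc) x := hcont.clm_comp continuousAt_const
  have h3 : (fderiv ℝ g x).comp sc = ContinuousLinearMap.id ℝ _ := by
    ext w i
    have := congrArg (fun φ => φ w i) hs'
    simpa [sc] using this
  have h4 : ∀ᶠ z in 𝓝 x, IsUnit ((fderiv ℝ g z).comp sc) := by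
    have h5 : IsUnit ((fderiv ℝ g x).comp sc) := by
      rw [h3]
      exact isUnit_one
    exact h2.eventually (Units.isOpen.mem_nhds h5)
  filter_upwards [h4] with z hz
  intro w
  obtain ⟨u, hu⟩ := hz
  refine ⟨sc ((↑u⁻¹ : (Fin c → ℝ) →L[ℝ] (Fin c → ℝ)) w), ?_⟩
  have h6 : (u : (Fin c → ℝ) →L[ℝ] (Fin c → ℝ)) ((↑u⁻¹ : (Fin c → ℝ) →L[ℝ] (Fin c → ℝ)) w) = w := by
    exact congrArg (fun φ : (Fin c → ℝ) →L[ℝ] (Fin c → ℝ) => φ w) u.mul_inv
  rw [hu] at h6
  exact h6

/-- The zero set in `V` of `g`, near a point where `dg` is onto on `T_x V`. -/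
theorem IsSubmfd.zeros_at {ι : Type} [Fintype ι] {m p : ℕ} {V : Set (ι → ℝ)} (hV : IsSubmfd (m + p) V)
    {O : Set (ι → ℝ)} (hO : IsOpen O) {g : (ι → ℝ) → (Fin p → ℝ)} (hg : ContDiffOn ℝ ∞ g O) {x : ι → ℝ} (hx : x ∈ V)
    (hxO : x ∈ O) (hs : ∀ w, ∃ v, Tan V x v ∧ fderiv ℝ g x v = w) :
    ∃ O' : Set (ι → ℝ), IsOpen O' ∧ x ∈ O' ∧ O' ⊆ O ∧ IsSubmfd m {z | z ∈ V ∧ z ∈ O' ∧ g z = 0} := by
  obtain ⟨c, h, U, hc, hU, hxU, hh, h0, hsu⟩ := hV x hx
  have hUO : IsOpen (U ∩ O) := hU.inter hO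
  have hG : ContDiffOn ℝ ∞ (fun y => Fin.append (h y) (g y)) (U ∩ O) :=
    contDiffOn_append (hh.mono Set.inter_subset_left) (hg.mono Set.inter_subset_right)
  have hgd : ∀ z ∈ U ∩ O, DifferentiableAt ℝ g z := fun z hz =>
    (hg.contDiffAt (hO.mem_nhds hz.2)).differentiableAt (by norm_num)
  have hhd : ∀ z ∈ U ∩ O, DifferentiableAt ℝ h z := fun z hz =>
    (hh.contDiffAt (hU.mem_nhds hz.1)).differentiableAt (by norm_num)
  have hsG : Function.Surjective (fderiv ℝ (fun y => Fin.append (h y) (g y)) x) := by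
    intro w
    obtain ⟨v0, hv0⟩ := hsu (fun j => w (Fin.castAdd p j))
    obtain ⟨v1, hv1, hv1'⟩ := hs ((fun j => w (Fin.natAdd c j)) - fderiv ℝ g x v0)
    refine ⟨v0 + v1, ?_⟩
    rw [fderiv_append (hhd x ⟨hxU, hxO⟩) (hgd x ⟨hxU, hxO⟩), map_add, map_add, hv0, hv1',
      (tan_iff hU hxU hh h0 hx hsu).1 hv1]
    ext i
    refine Fin.addCases (fun j => ?_) (fun j => ?_) i <;> simp
  have hev := eventually_surjective hUO ⟨hxU, hxO⟩ hG hsG
  obtain ⟨O1, hO1, hO1o, hxO1⟩ := eventually_nhds_iff.1 hev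
  have hev2 := eventually_surjective hU hxU hh hsu
  obtain ⟨O2, hO2, hO2o, hxO2⟩ := eventually_nhds_iff.1 hev2
  refine ⟨O1 ∩ O2 ∩ (U ∩ O), (hO1o.inter hO2o).inter hUO, ⟨⟨hxO1, hxO2⟩, hxU, hxO⟩,
    fun z hz => hz.2.2, ?_⟩
  refine hV.zeros ((hO1o.inter hO2o).inter hUO) (hg.mono fun z hz => hz.2.2) ?_
  rintro z hzV ⟨⟨hz1, hz2⟩, hzU, hzO⟩ _ w
  obtain ⟨v, hv⟩ := hO1 z hz1 (Fin.append 0 w)
  rw [fderiv_append (hhd z ⟨hzU, hzO⟩) (hgd z ⟨hzU, hzO⟩)] at hv
  refine ⟨v, (tan_iff hU hzU hh h0 hzV (hO2 z hz2)).2 ?_, ?_⟩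
  · ext j
    have := congrFun hv (Fin.castAdd p j)
    simpa using this
  · ext j
    have := congrFun hv (Fin.natAdd c j)
    simpa using this

end Pool.Agent.Helper79.BP
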