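import Pool.Agent.Helper79.BP.T4C
import Pool.Agent.Helper79.BP.T4D

/-!
PROJECT BP, bridge T4, part E: NZ-subvarieties are submanifolds; tangent vectors of the embedded tube.
-/

set_option autoImplicit false
set_option linter.unusedSectionVars false

namespace Pool.Agent.Helper79.BP

open MvPolynomial Filter
open Pool.Agent.Helper72.BP
open scoped ContDiff Topology

/-- An NZ-subvariety is a smooth submanifold. -/
theorem IsNZ.isSubmfd {ι : Type} [Fintype ι] {d : ℕ} {Z : Set (ι → ℝ)} (h : IsNZ d Z) : IsSubmfd d Z := by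
  intro x hx
  obtain ⟨c, g, U, hc, hU, hxU, hg, h0, hs⟩ := ((h.2 x).1 hx).exists_local
  have hcl : IsClosed (zcl Z \ Z) := h.1.isClosed
  refine ⟨c, g, U ∩ (zcl Z \ Z)ᶜ, hc, hU.inter hcl.isOpen_compl, ⟨hxU, fun hcon => hcon.2 hx⟩,
    hg.mono Set.inter_subset_left, ?_, hs⟩
  rintro y ⟨hyU, hyc⟩
  rw [← h0 y hyU]
  constructor
  · intro hy
    exact subset_zcl hy
  · intro hy
    by_contra hcon
    exact hyc ⟨hy, hcon⟩

section
variable {ι τ : Type} [Fintype ι] [Fintype τ]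

/-- A vector killed by the differentials of the equations `Y = Yᵀ`, `Y² = Y`, `tr Y = 1` is in the image of the
differential of `emb`. -/
theorem exists_demb (y : ι → ℝ) (hy : nsq y = 1) (w : Amb ι τ → ℝ)
    (h1 : ∀ a b, w (Sum.inl (a, b)) = w (Sum.inl (b, a)))
    (h2 : ∀ a b, ∑ c, (w (Sum.inl (a, c)) * (y c * y b) + (y a * y c) * w (Sum.inl (c, b))) = w (Sum.inl (a, b)))
    (h3 : ∑ a, w (Sum.inl (a, a)) = 0) :
    ∃ (v : ι → ℝ) (u : τ → ℝ), ∑ i, y i * v i = 0 ∧ w = demb y v u := by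
  let v : ι → ℝ := fun a => ∑ c, w (Sum.inl (a, c)) * y c
  have h4 : ∀ a b, w (Sum.inl (a, b)) = v a * y b + y a * v b := by
    intro a b
    rw [← h2 a b, Finset.sum_add_distrib]
    congr 1
    · show _ = (∑ c, w (Sum.inl (a, c)) * y c) * y b
      rw [Finset.sum_mul]
      exact Finset.sum_congr rfl fun c _ => by ring
    · show _ = y a * ∑ c, w (Sum.inl (b, c)) * y c
      rw [Finset.mul_sum]
      exact Finset.sum_congr rfl fun c _ => by rw [h1 c b]; ring
  refine ⟨v, fun s => w (Sum.inr s), ?_, ?_⟩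
  · have h5 : ∑ a, w (Sum.inl (a, a)) = 2 * ∑ i, y i * v i := by
      rw [Finset.mul_sum]
      exact Finset.sum_congr rfl fun a _ => by rw [h4 a a]; ring
    rw [h3] at h5
    linarith
  · funext x
    rcases x with ⟨a, b⟩ | s
    · exact h4 a b
    · rfl

/-- The equation of the tube on the ambient space. -/
noncomputable def Fhat {r : ℕ} (G : Fin r → Matrix ι ι ℝ) (ε : ℝ) : MvPolynomial (Amb ι τ) ℝ :=
  ∑ s : τ, X (Sum.inr s) ^ 2 + ∑ l, (∑ i, ∑ j, C (G l i j) * X (Sum.inl (i, j))) ^ 2 -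
    C ε * (∑ i, X (Sum.inl (i, i))) ^ 2

theorem eval_Fhat {r : ℕ} (G : Fin r → Matrix ι ι ℝ) (ε : ℝ) (y : ι → ℝ) (t : τ → ℝ) :
    eval (emb (y, t)) (Fhat G ε) = Ffun G ε y t := by
  simp only [Fhat, map_sub, map_add, map_sum, map_pow, map_mul, eval_X, eval_C, emb, Sum.elim_inr, Sum.elim_inl,
    Ffun, nsq, qf, Algebra.algebraMap_self, RingHom.id_apply]
  congr 1
  · congr 1
    refine Finset.sum_congr rfl fun l _ => ?_
    congr 1
    exact Finset.sum_congr rfl fun i _ => Finset.sum_congr rfl fun j _ => by ring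
  · congr 2
    exact Finset.sum_congr rfl fun i _ => by ring

theorem isHomogeneous_Fhat {r : ℕ} (G : Fin r → Matrix ι ι ℝ) (ε : ℝ) :
    (Fhat G ε : MvPolynomial (Amb ι τ) ℝ).IsHomogeneous 2 := by
  have hX : ∀ x : Amb ι τ, (X x : MvPolynomial (Amb ι τ) ℝ).IsHomogeneous 1 := fun x => isHomogeneous_X _ _
  have h1 : ∀ s : τ, ((X (Sum.inr s) : MvPolynomial (Amb ι τ) ℝ) ^ 2).IsHomogeneous 2 := fun s => by
    simpa using (hX (Sum.inr s)).pow 2
  have h2 : ∀ l, ((∑ i, ∑ j, C (G l i j) * X (Sum.inl (i, j)) : MvPolynomial (Amb ι τ) ℝ) ^ 2).IsHomogeneous 2 := by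
    intro l
    have : (∑ i, ∑ j, C (G l i j) * X (Sum.inl (i, j)) : MvPolynomial (Amb ι τ) ℝ).IsHomogeneous 1 := by
      refine IsHomogeneous.sum _ _ _ fun i _ => IsHomogeneous.sum _ _ _ fun j _ => ?_
      simpa using (isHomogeneous_C _ (G l i j)).mul (hX (Sum.inl (i, j)))
    simpa using this.pow 2
  have h3 : ((∑ i, X (Sum.inl (i, i)) : MvPolynomial (Amb ι τ) ℝ) ^ 2).IsHomogeneous 2 := by
    have : (∑ i, X (Sum.inl (i, i)) : MvPolynomial (Amb ι τ) ℝ).IsHomogeneous 1 :=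
      IsHomogeneous.sum _ _ _ fun i _ => hX _
    simpa using this.pow 2
  have h4 : (C ε * (∑ i, X (Sum.inl (i, i)) : MvPolynomial (Amb ι τ) ℝ) ^ 2).IsHomogeneous 2 := by
    simpa using (isHomogeneous_C _ ε).mul h3
  exact ((IsHomogeneous.sum _ _ _ fun s _ => h1 s).add (IsHomogeneous.sum _ _ _ fun l _ => h2 l)).sub h4

end

end Pool.Agent.Helper79.BP
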