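import Pool.Agent.Helper79.BP.T4E

/-!
PROJECT BP, bridge T4, part F: the regular points of a lifted NZ-subvariety.
-/

set_option autoImplicit false
set_option linter.unusedSectionVars false

namespace Pool.Agent.Helper79.BP

open MvPolynomial Filter
open Pool.Agent.Helper72.BP
open scoped ContDiff Topology

section
variable {ι τ : Type} [Fintype ι] [Fintype τ] {r : ℕ} (G : Fin r → Matrix ι ι ℝ) (ε : ℝ)

theorem aeval_embX_Fhat : aeval (embX : Amb ι τ → MvPolynomial (Var ι τ) ℝ) (Fhat G ε) = Fpol G ε := by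
  have e1 : aeval (embX : Amb ι τ → MvPolynomial (Var ι τ) ℝ) (∑ s : τ, (X (Sum.inr s) : MvPolynomial (Amb ι τ) ℝ) ^ 2) =
      nsq (fun s : τ => (X (Sum.inr s) : MvPolynomial (Var ι τ) ℝ)) := by
    simp only [map_sum, map_pow, aeval_X, embX, Sum.elim_inr, nsq]
  have e2 : ∀ l, aeval (embX : Amb ι τ → MvPolynomial (Var ι τ) ℝ) (∑ i, ∑ j,
      (C (G l i j) : MvPolynomial (Amb ι τ) ℝ) * X (Sum.inl (i, j))) = qf (G l) (fun i : ι => (X (Sum.inl i) : MvPolynomial (Var ι τ) ℝ)) := by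
    intro l
    simp only [map_sum, map_mul, aeval_X, aeval_C, embX, Sum.elim_inl, qf]
    refine Finset.sum_congr rfl fun i _ => Finset.sum_congr rfl fun j _ => ?_
    rw [mul_assoc]
  have e3 : aeval (embX : Amb ι τ → MvPolynomial (Var ι τ) ℝ) (∑ i, (X (Sum.inl (i, i)) : MvPolynomial (Amb ι τ) ℝ)) =
      nsq (fun i : ι => (X (Sum.inl i) : MvPolynomial (Var ι τ) ℝ)) := by
    simp only [map_sum, aeval_X, embX, Sum.elim_inl, nsq, _root_.sq]
  rw [Fhat, map_sub, map_add, e1, map_sum, map_mul, map_pow, e3, aeval_C, Fpol, Ffun]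
  congr 2
  refine Finset.sum_congr rfl fun l _ => ?_
  rw [map_pow, e2]

theorem hmg_Fhat : hmg 2 (Fhat G ε : MvPolynomial (Amb ι τ) ℝ) = Fpol G ε := by
  have h1 : ∀ k, homogeneousComponent k (Fhat G ε : MvPolynomial (Amb ι τ) ℝ) = if k = 2 then Fhat G ε else 0 := by
    intro k
    rw [homogeneousComponent_of_mem ((mem_homogeneousSubmodule _ _).2 (isHomogeneous_Fhat G ε))]
  rw [hmg, Finset.sum_eq_single 2]
  · rw [h1, if_pos rfl, Nat.sub_self, pow_zero, mul_one, aeval_embX_Fhat]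
  · intro k _ hk
    rw [h1, if_neg hk, map_zero, zero_mul]
  · intro h
    exact absurd (Finset.mem_range.2 (by norm_num)) h

/-- The tangent vectors of the embedded tube. -/
theorem tan_Vemb {x : (ι → ℝ) × (τ → ℝ)} (hx : x ∈ Vt G ε) {w : Amb ι τ → ℝ} (hw : Tan (Vemb G ε) (emb x) w) :
    ∃ (v : ι → ℝ) (u : τ → ℝ), ∑ i, x.1 i * v i = 0 ∧ w = demb x.1 v u ∧
      ∑ i, grad (Sum.elim x.1 x.2) (Fpol G ε) (Sum.inl i) * v i +
        ∑ s, grad (Sum.elim x.1 x.2) (Fpol G ε) (Sum.inr s) * u s = 0 := by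
  classical
  -- the differential of every polynomial vanishing on the tube kills `w`
  have key : ∀ f : MvPolynomial (Amb ι τ) ℝ, (∀ z ∈ Vemb G ε, eval z f = 0) →
      ∑ a, eval (emb x) (pderiv a f) * w a = 0 := by
    intro f hf
    rw [← fderiv_eval]
    exact hw _ (contDiff_eval f) hf
  have e1 : ∀ a b, w (Sum.inl (a, b)) = w (Sum.inl (b, a)) := by
    intro a b
    have h := key (X (Sum.inl (a, b)) - X (Sum.inl (b, a))) (by
      rintro _ ⟨z, hz, rfl⟩
      simp [emb, mul_comm])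
    simp only [map_sub, pderiv_X, Pi.single_apply, sub_mul, Finset.sum_sub_distrib] at h
    simpa [apply_ite, sub_eq_zero] using h
  have e2 : ∀ a b, ∑ c, (w (Sum.inl (a, c)) * (x.1 c * x.1 b) + (x.1 a * x.1 c) * w (Sum.inl (c, b))) =
      w (Sum.inl (a, b)) := by
    intro a b
    have h := key (∑ c, X (Sum.inl (a, c)) * X (Sum.inl (c, b)) - X (Sum.inl (a, b))) (by
      rintro _ ⟨z, hz, rfl⟩
      simp only [map_sub, map_sum, map_mul, eval_X, emb, Sum.elim_inl]
      have : ∑ c, z.1 a * z.1 c * (z.1 c * z.1 b) = z.1 a * z.1 b * nsq z.1 := by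
        rw [nsq, Finset.mul_sum]
        exact Finset.sum_congr rfl fun c _ => by ring
      rw [this, hz.1]
      ring)
    rw [← fderiv_eval] at h
    have h2 : HasFDerivAt (fun z : Amb ι τ → ℝ => eval z (∑ c, X (Sum.inl (a, c)) * X (Sum.inl (c, b)) -
        X (Sum.inl (a, b)))) (∑ c, (emb x (Sum.inl (a, c)) • (ContinuousLinearMap.proj (Sum.inl (c, b)) :
          (Amb ι τ → ℝ) →L[ℝ] ℝ) + emb x (Sum.inl (c, b)) • ContinuousLinearMap.proj (Sum.inl (a, c))) -
          ContinuousLinearMap.proj (Sum.inl (a, b))) (emb x) := by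
      have h3 : ∀ y : Amb ι τ, HasFDerivAt (fun z : Amb ι τ → ℝ => z y)
          (ContinuousLinearMap.proj y : (Amb ι τ → ℝ) →L[ℝ] ℝ) (emb x) := fun y =>
        (ContinuousLinearMap.proj y : (Amb ι τ → ℝ) →L[ℝ] ℝ).hasFDerivAt
      have h4 := (HasFDerivAt.fun_sum (u := Finset.univ) fun c _ =>
        (h3 (Sum.inl (a, c))).mul (h3 (Sum.inl (c, b)))).sub (h3 (Sum.inl (a, b)))
      refine h4.congr_of_eventuallyEq (Eventually.of_forall fun z => ?_)
      simp
    rw [h2.fderiv] at h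
    simp only [emb, Sum.elim_inl] at h
    have h5 : ∑ c, (x.1 a * x.1 c * w (Sum.inl (c, b)) + x.1 c * x.1 b * w (Sum.inl (a, c))) - w (Sum.inl (a, b)) =
        0 := by
      rw [← h]
      simp
    rw [← sub_eq_zero, ← h5]
    congr 1
    exact Finset.sum_congr rfl fun c _ => by ring
  have e3 : ∑ a, w (Sum.inl (a, a)) = 0 := by
    have h := key (∑ c, X (Sum.inl (c, c)) - 1) (by
      rintro _ ⟨z, hz, rfl⟩
      simp only [map_sub, map_sum, eval_X, emb, Sum.elim_inl, map_one]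
      have : ∑ c, z.1 c * z.1 c = nsq z.1 := by
        rw [nsq]
        exact Finset.sum_congr rfl fun c _ => by ring
      rw [this, hz.1]
      ring)
    rw [← fderiv_eval] at h
    have h2 : HasFDerivAt (fun z : Amb ι τ → ℝ => eval z (∑ c, X (Sum.inl (c, c)) - 1))
        (∑ c, (ContinuousLinearMap.proj (Sum.inl (c, c)) : (Amb ι τ → ℝ) →L[ℝ] ℝ)) (emb x) := by
      have h3 : ∀ y : Amb ι τ, HasFDerivAt (fun z : Amb ι τ → ℝ => z y)
          (ContinuousLinearMap.proj y : (Amb ι τ → ℝ) →L[ℝ] ℝ) (emb x) := fun y =>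
        (ContinuousLinearMap.proj y : (Amb ι τ → ℝ) →L[ℝ] ℝ).hasFDerivAt
      have h4 := (HasFDerivAt.fun_sum (u := Finset.univ) fun c (_ : c ∈ Finset.univ) =>
        (h3 (Sum.inl (c, c)))).sub_const 1
      refine h4.congr_of_eventuallyEq (Eventually.of_forall fun z => ?_)
      simp
    rw [h2.fderiv] at h
    rw [← h]
    simp
  obtain ⟨v, u, hv, hwv⟩ := exists_demb x.1 hx.1 w e1 e2 e3
  refine ⟨v, u, hv, hwv, ?_⟩
  rw [← hmg_Fhat, grad_hmg 2 (Fhat G ε) (isHomogeneous_Fhat G ε).totalDegree_le x.1 x.2 hx.1 v u hv]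
  rw [← hwv]
  refine key _ ?_
  rintro _ ⟨z, hz, rfl⟩
  rw [show z = (z.1, z.2) from rfl, eval_Fhat]
  exact hz.2

end

end Pool.Agent.Helper79.BP
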