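import Pool.Agent.Helper79.BP.T4F

/-!
PROJECT BP, bridge T4, part G: regular points of a lifted NZ-subvariety (`p` forms of the cone ideal which together with `F` have independent
gradients and cut out the cone locally).
-/

set_option autoImplicit false
set_option linter.unusedSectionVars false

namespace Pool.Agent.Helper79.BP

open MvPolynomial Filter
open Pool.Agent.Helper72.BP
open scoped ContDiff Topology

section
variable {ι τ : Type} [Fintype ι] [Fintype τ] {r : ℕ} (G : Fin r → Matrix ι ι ℝ) (ε : ℝ)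

/-- The data found at a point of an NZ-subvariety of the tube. -/
theorem exists_eqs {p d : ℕ} (hV : IsSubmfd (d + p) (Vemb G ε : Set (Amb ι τ → ℝ))) (Z' : Set (Amb ι τ → ℝ))
    (hZ' : Z' ⊆ Vemb G ε) (hNZ : IsNZ d Z') {z0 : Amb ι τ → ℝ} (hz0 : z0 ∈ Z') :
    ∃ (f : Fin p → MvPolynomial (Amb ι τ) ℝ), (∀ j, ∀ z ∈ Z', eval z (f j) = 0) ∧
      (∀ w : Fin p → ℝ, ∃ v, Tan (Vemb G ε) z0 v ∧ ∀ j, ∑ a, eval z0 (pderiv a (f j)) * v a = w j) ∧
      ∃ U : Set (Amb ι τ → ℝ), IsOpen U ∧ z0 ∈ U ∧ ∀ z ∈ U, z ∈ Vemb G ε → (∀ j, eval z (f j) = 0) → z ∈ Z' := by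
  obtain ⟨hxz, c, f', U, hc, hvan, hli, hU, hzU, hloc⟩ := (hNZ.2 z0).1 hz0
  have hz0V := hZ' hz0
  have hsurj := surjective_fderiv_evm f' z0 hli
  have hcl : IsClosed (zcl Z' \ Z') := hNZ.1.isClosed
  have hzc : z0 ∈ (zcl Z' \ Z')ᶜ := fun hcon => hcon.2 hz0
  have hfd : ∀ (i : Fin c) (v : Amb ι τ → ℝ), fderiv ℝ (fun y : Amb ι τ → ℝ => eval y (f' i)) z0 v =
      ∑ a, eval z0 (pderiv a (f' i)) * v a := fun i v => fderiv_eval _ _ _
  -- characterisation of the tangent space of `Z'`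
  have hK : ∀ v, v ∈ tsp Z' z0 ↔ v ∈ tsp (Vemb G ε) z0 ∧
      ∀ i, (fderiv ℝ (fun y : Amb ι τ → ℝ => eval y (f' i)) z0 : (Amb ι τ → ℝ) →ₗ[ℝ] ℝ) v = 0 := by
    intro v
    constructor
    · intro hv
      refine ⟨Tan.mono hZ' hv, fun i => ?_⟩
      exact hv _ (contDiff_eval _) fun z hz => hvan i z (subset_zcl hz)
    · rintro ⟨-, h2⟩
      have h3 : Tan (zcl Z') z0 v := by
        refine (tan_iff hU hzU (contDiff_evm f').contDiffOn ?_ hxz hsurj).2 ?_
        · intro y hy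
          constructor
          · intro hyz
            ext i
            exact hvan i y hyz
          · intro h0
            exact hloc y hy fun i => congrFun h0 i
        · ext i
          rw [fderiv_evm]
          have := h2 i
          rw [ContinuousLinearMap.coe_coe, hfd] at this
          exact this
      refine Tan.germ hcl.isOpen_compl hzc (fun y hy hyz => ?_) h3
      by_contra hcon
      exact hy ⟨hyz, hcon⟩
  obtain ⟨e, he⟩ := exists_indices
    (fun i => (fderiv ℝ (fun y : Amb ι τ → ℝ => eval y (f' i)) z0 : (Amb ι τ → ℝ) →ₗ[ℝ] ℝ))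
    (tsp (Vemb G ε) z0) (tsp Z' z0) d p (hV.finrank_tsp hz0V) ((hNZ.isSubmfd).finrank_tsp hz0) hK
  have he' : ∀ w : Fin p → ℝ, ∃ v, Tan (Vemb G ε) z0 v ∧
      ∀ j, ∑ a, eval z0 (pderiv a (f' (e j))) * v a = w j := by
    intro w
    obtain ⟨v, hv, hvw⟩ := he w
    refine ⟨v, hv, fun j => ?_⟩
    rw [← hfd]
    exact hvw j
  obtain ⟨O', hO', hzO', -, hA⟩ := hV.zeros_at isOpen_univ (contDiff_evm (fun j => f' (e j))).contDiffOn hz0V
    (Set.mem_univ _) (by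
      intro w
      obtain ⟨v, hv, hvw⟩ := he' w
      refine ⟨v, hv, ?_⟩
      ext j
      rw [fderiv_evm]
      exact hvw j)
  have hB : IsSubmfd d (Z' ∩ O') := hNZ.isSubmfd.inter hO'
  have hBA : Z' ∩ O' ⊆ {z | z ∈ Vemb G ε ∧ z ∈ O' ∧ evm (fun j => f' (e j)) z = 0} := by
    rintro z ⟨hz, hzO⟩
    refine ⟨hZ' hz, hzO, ?_⟩
    ext j
    exact hvan (e j) z (subset_zcl hz)
  obtain ⟨U1, hU1, hzU1, hloc1⟩ := hA.local_eq hB hBA ⟨hz0, hzO'⟩
  refine ⟨fun j => f' (e j), fun j z hz => hvan (e j) z (subset_zcl hz), he', U1 ∩ O', hU1.inter hO', ⟨hzU1, hzO'⟩, ?_⟩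
  rintro z ⟨hz1, hz2⟩ hzV h0
  exact (hloc1 z hz1 ⟨hzV, hz2, funext fun j => h0 j⟩).1

/-- Independence of the gradients on the cone. -/
theorem indep_cone {p : ℕ} {x : (ι → ℝ) × (τ → ℝ)} (hx : x ∈ Vt G ε)
    (hF : grad (Sum.elim x.1 x.2) (Fpol G ε) ≠ 0) (f : Fin p → MvPolynomial (Amb ι τ) ℝ)
    (hs : ∀ w : Fin p → ℝ, ∃ v, Tan (Vemb G ε) (emb x) v ∧ ∀ j, ∑ a, eval (emb x) (pderiv a (f j)) * v a = w j) :
    LinearIndependent ℝ (Fin.cons (grad (Sum.elim x.1 x.2) (Fpol G ε))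
      (fun j => grad (Sum.elim x.1 x.2) (hmg (f j).totalDegree (f j))) : Fin (p + 1) → (Var ι τ → ℝ)) := by
  rw [Fintype.linearIndependent_iff]
  intro g hg
  rw [Fin.sum_univ_succ] at hg
  simp only [Fin.cons_zero, Fin.cons_succ] at hg
  have h1 : ∀ j, g (Fin.succ j) = 0 := by
    intro j
    obtain ⟨w, hw, hwj⟩ := hs (Pi.single j 1)
    obtain ⟨v, u, hv, hwv, hFv⟩ := tan_Vemb G ε hx hw
    have h2 : ∀ k : Fin p, ∑ i, grad (Sum.elim x.1 x.2) (hmg (f k).totalDegree (f k)) (Sum.inl i) * v i +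
        ∑ s, grad (Sum.elim x.1 x.2) (hmg (f k).totalDegree (f k)) (Sum.inr s) * u s =
        (Pi.single j (1 : ℝ) : Fin p → ℝ) k := by
      intro k
      rw [grad_hmg _ _ le_rfl x.1 x.2 hx.1 v u hv, ← hwj k, hwv]
    have h3 : g 0 * (∑ i, grad (Sum.elim x.1 x.2) (Fpol G ε) (Sum.inl i) * v i +
        ∑ s, grad (Sum.elim x.1 x.2) (Fpol G ε) (Sum.inr s) * u s) +
        ∑ k : Fin p, g k.succ * (∑ i, grad (Sum.elim x.1 x.2) (hmg (f k).totalDegree (f k)) (Sum.inl i) * v i +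
        ∑ s, grad (Sum.elim x.1 x.2) (hmg (f k).totalDegree (f k)) (Sum.inr s) * u s) = 0 := by
      have h4 : ∀ a : Var ι τ, g 0 * grad (Sum.elim x.1 x.2) (Fpol G ε) a +
          ∑ k : Fin p, g k.succ * grad (Sum.elim x.1 x.2) (hmg (f k).totalDegree (f k)) a = 0 := by
        intro a
        have := congrFun hg a
        simpa [Finset.sum_apply] using this
      have h5 : ∑ i, (g 0 * grad (Sum.elim x.1 x.2) (Fpol G ε) (Sum.inl i) +
          ∑ k : Fin p, g k.succ * grad (Sum.elim x.1 x.2) (hmg (f k).totalDegree (f k)) (Sum.inl i)) * v i = 0 :=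
        Finset.sum_eq_zero fun i _ => by rw [h4, zero_mul]
      have h6 : ∑ s, (g 0 * grad (Sum.elim x.1 x.2) (Fpol G ε) (Sum.inr s) +
          ∑ k : Fin p, g k.succ * grad (Sum.elim x.1 x.2) (hmg (f k).totalDegree (f k)) (Sum.inr s)) * u s = 0 :=
        Finset.sum_eq_zero fun i _ => by rw [h4, zero_mul]
      simp only [add_mul, Finset.sum_add_distrib, Finset.sum_mul] at h5 h6
      rw [Finset.sum_comm] at h5 h6
      simp only [mul_add, Finset.sum_add_distrib, Finset.mul_sum, ← mul_assoc]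
      linear_combination h5 + h6
    rw [hFv, mul_zero, zero_add] at h3
    simp only [h2] at h3
    simpa [Pi.single_apply] using h3
  intro i
  refine Fin.cases ?_ h1 i
  simp only [h1, zero_smul, Finset.sum_const_zero, add_zero] at hg
  exact (smul_eq_zero.1 hg).resolve_right hF

/-- Near a point of the lift the common zeros of `F` and the forms are killed by the cone ideal. -/
theorem eventually_cone {p : ℕ} (Z' : Set (Amb ι τ → ℝ)) {x : (ι → ℝ) × (τ → ℝ)} (hx : nsq x.1 = 1)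
    (f : Fin p → MvPolynomial (Amb ι τ) ℝ)
    (hU : ∃ U : Set (Amb ι τ → ℝ), IsOpen U ∧ emb x ∈ U ∧
      ∀ z ∈ U, z ∈ Vemb G ε → (∀ j, eval z (f j) = 0) → z ∈ Z') (h : MvPolynomial (Var ι τ) ℝ)
    (hh : h ∈ coneIdeal (lift Z')) :
    ∀ᶠ w in 𝓝 (Sum.elim x.1 x.2 : Var ι τ → ℝ), eval w (Fpol G ε) = 0 →
      (∀ j, eval w (hmg (f j).totalDegree (f j)) = 0) → eval w h = 0 := by
  obtain ⟨U, hU, hxU, hloc⟩ := hU
  let ν : (Var ι τ → ℝ) → ℝ := fun w => nsq fun i => w (Sum.inl i)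
  have hνc : Continuous ν := by
    unfold ν nsq
    fun_prop
  have hν0 : ν (Sum.elim x.1 x.2) = 1 := hx
  let Ψ : (Var ι τ → ℝ) → (Amb ι τ → ℝ) := fun w =>
    (ν w)⁻¹ • emb (fun i => w (Sum.inl i), fun s => w (Sum.inr s))
  have hΨc : ContinuousAt Ψ (Sum.elim x.1 x.2) := by
    refine ContinuousAt.smul (hνc.continuousAt.inv₀ (by rw [hν0]; norm_num)) ?_
    refine continuousAt_pi.2 fun a => ?_
    rcases a with ⟨a, b⟩ | s
    · simp only [emb, Sum.elim_inl]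
      fun_prop
    · simp only [emb, Sum.elim_inr]
      exact (continuous_apply (Sum.inr s)).continuousAt
  have hΨ0 : Ψ (Sum.elim x.1 x.2) = emb x := by
    show (ν (Sum.elim x.1 x.2))⁻¹ • emb (x.1, x.2) = emb x
    rw [hν0, inv_one, one_smul]
  have h1 : ∀ᶠ w in 𝓝 (Sum.elim x.1 x.2 : Var ι τ → ℝ), Ψ w ∈ U := by
    have := hΨc.tendsto
    rw [hΨ0] at this
    exact this.eventually (hU.mem_nhds hxU)
  have h2 : ∀ᶠ w in 𝓝 (Sum.elim x.1 x.2 : Var ι τ → ℝ), 0 < ν w := by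
    refine hνc.continuousAt.eventually (lt_mem_nhds ?_)
    rw [hν0]
    norm_num
  filter_upwards [h1, h2] with w hw1 hw2 hF hf
  set y : ι → ℝ := fun i => w (Sum.inl i) with hy
  set t : τ → ℝ := fun s => w (Sum.inr s) with ht
  have hw : w = Sum.elim y t := by
    funext a
    rcases a with a | a <;> rfl
  have hνy : nsq y = ν w := rfl
  set c : ℝ := (Real.sqrt (ν w))⁻¹ with hc
  have hsq : 0 < Real.sqrt (ν w) := Real.sqrt_pos.2 hw2
  have hc0 : c ≠ 0 := inv_ne_zero hsq.ne'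
  have hc2 : c ^ 2 = (ν w)⁻¹ := by
    rw [hc, inv_pow, Real.sq_sqrt hw2.le]
  have hny : nsq (c • y) = 1 := by
    rw [nsq_csmul, hc2, hνy]
    exact inv_mul_cancel₀ hw2.ne'
  have hemb : emb (c • y, c ^ 2 • t) = Ψ w := by
    rw [emb_smul, hc2]
  have hFc : Ffun G ε (c • y) (c ^ 2 • t) = 0 := by
    rw [← eval_Fhat, ← aeval_hmg_one 2 (Fhat G ε) (isHomogeneous_Fhat G ε).totalDegree_le _ _ hny, aeval_hmg_smul,
      hmg_Fhat, aev, ← hw, hF, mul_zero]
  have hmem : Ψ w ∈ Vemb G ε := by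
    rw [← hemb]
    exact ⟨_, ⟨hny, hFc⟩, rfl⟩
  have hZ : Ψ w ∈ Z' := by
    refine hloc _ hw1 hmem fun j => ?_
    rw [← hemb, ← aeval_hmg_one _ (f j) le_rfl _ _ hny, aeval_hmg_smul, aev, ← hw, hf j, mul_zero]
  have hl : ((c • y, c ^ 2 • t) : (ι → ℝ) × (τ → ℝ)) ∈ lift Z' := ⟨hny, by rw [hemb]; exact hZ⟩
  have h3 := hh _ hl c⁻¹
  have h4 : c⁻¹ • (c • y) = y := inv_smul_smul₀ hc0 y
  have h5 : c⁻¹ ^ 2 • (c ^ 2 • t) = t := by
    rw [smul_smul, ← mul_pow, inv_mul_cancel₀ hc0, one_pow, one_smul]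
  simp only [h4, h5] at h3
  rw [hw]
  exact h3

end

end Pool.Agent.Helper79.BP
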