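import Pool.Agent.Helper79.BP.T4B

/-!
PROJECT BP, bridge T4, part H: the gradient of `F` does not vanish on the tube.
-/

set_option autoImplicit false
set_option linter.unusedSectionVars false

namespace Pool.Agent.Helper79.BP

open MvPolynomial Filter
open Pool.Agent.Helper72.BP
open scoped ContDiff Topology

section
variable {ι τ : Type} [Fintype ι] [Fintype τ] {r : ℕ} (G : Fin r → Matrix ι ι ℝ) (ε : ℝ)

theorem hasDerivAt_qf (A : Matrix ι ι ℝ) (hA : ∀ i j, A i j = A j i) (y v : ι → ℝ) :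
    HasDerivAt (fun s : ℝ => qf A (y + s • v)) (2 * ∑ i, ∑ j, A i j * y i * v j) 0 := by
  have h : (fun s : ℝ => qf A (y + s • v)) = fun s => qf A y + (s * (2 * ∑ i, ∑ j, A i j * y i * v j) +
      s * s * qf A v) := by
    funext s
    have e : ∑ i, ∑ j, A i j * v i * y j = ∑ i, ∑ j, A i j * y i * v j := by
      rw [Finset.sum_comm]
      refine Finset.sum_congr rfl fun i _ => Finset.sum_congr rfl fun j _ => ?_
      rw [hA j i]
      ring
    have e2 : qf A (y + s • v) = qf A y + s * ∑ i, ∑ j, A i j * y i * v j + s * ∑ i, ∑ j, A i j * v i * y j +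
        s * s * qf A v := by
      simp only [qf, Finset.mul_sum, ← Finset.sum_add_distrib]
      refine Finset.sum_congr rfl fun i _ => Finset.sum_congr rfl fun j _ => ?_
      simp only [Pi.add_apply, Pi.smul_apply, smul_eq_mul, Algebra.algebraMap_self, RingHom.id_apply]
      ring
    rw [e2, e]
    ring
  rw [h]
  have h1 := (hasDerivAt_id (0 : ℝ)).mul_const (2 * ∑ i, ∑ j, A i j * y i * v j)
  have h2 := (((hasDerivAt_id (0 : ℝ)).mul (hasDerivAt_id (0 : ℝ))).mul_const (qf A v))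
  have h3 := (h1.add h2).const_add (qf A y)
  simpa using h3

theorem hasDerivAt_nsq_gen (y v : ι → ℝ) :
    HasDerivAt (fun s : ℝ => nsq (y + s • v)) (2 * ∑ i, y i * v i) 0 := by
  have h : (fun s : ℝ => nsq (y + s • v)) = fun s => nsq y + (s * (2 * ∑ i, y i * v i) + s * s * nsq v) := by
    funext s
    simp only [nsq, Pi.add_apply, Pi.smul_apply, smul_eq_mul]
    have : ∑ i, (y i + s * v i) ^ 2 = ∑ i, y i ^ 2 + 2 * s * ∑ i, y i * v i + s * s * ∑ i, v i ^ 2 := by
      rw [Finset.mul_sum, Finset.mul_sum, ← Finset.sum_add_distrib, ← Finset.sum_add_distrib]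
      exact Finset.sum_congr rfl fun i _ => by ring
    rw [this]
    ring
  rw [h]
  have h1 := (hasDerivAt_id (0 : ℝ)).mul_const (2 * ∑ i, y i * v i)
  have h2 := (((hasDerivAt_id (0 : ℝ)).mul (hasDerivAt_id (0 : ℝ))).mul_const (nsq v))
  have h3 := (h1.add h2).const_add (nsq y)
  simpa using h3

theorem aeval_Fpol' (y : ι → ℝ) (t : τ → ℝ) :
    eval (Sum.elim y t : Var ι τ → ℝ) (Fpol G ε) = Ffun G ε y t := by
  simp [Fpol, Ffun, nsq, qf]

/-- The differential of `F` in directions orthogonal to `y`. -/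
theorem grad_Fpol (hG : ∀ l i j, G l i j = G l j i) (y v : ι → ℝ) (t u : τ → ℝ) (hv : ∑ i, y i * v i = 0) :
    ∑ i, grad (Sum.elim y t) (Fpol G ε) (Sum.inl i) * v i + ∑ s, grad (Sum.elim y t) (Fpol G ε) (Sum.inr s) * u s =
      2 * ∑ s, t s * u s + 4 * ∑ l, qf (G l) y * ∑ i, ∑ j, G l i j * y i * v j := by
  have hγ : HasDerivAt (fun s : ℝ => (Sum.elim (y + s • v) (t + s • u) : Var ι τ → ℝ)) (Sum.elim v u) 0 := by
    rw [hasDerivAt_pi]
    rintro (i | i)
    · simpa using ((hasDerivAt_id (0 : ℝ)).mul_const (v i)).const_add (y i)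
    · simpa using ((hasDerivAt_id (0 : ℝ)).mul_const (u i)).const_add (t i)
  have h1 := hasDerivAt_line (Fpol G ε) hγ
  simp only [zero_smul, add_zero] at h1
  rw [Fintype.sum_sum_type] at h1
  simp only [Sum.elim_inl, Sum.elim_inr, aeval_Fpol'] at h1
  have h2 : HasDerivAt (fun s : ℝ => Ffun G ε (y + s • v) (t + s • u))
      (2 * ∑ s, t s * u s + ∑ l, 2 * qf (G l) y * (2 * ∑ i, ∑ j, G l i j * y i * v j) - 0) 0 := by
    have h3 := hasDerivAt_nsq_gen t u
    have h4 : HasDerivAt (fun s : ℝ => ∑ l, qf (G l) (y + s • v) ^ 2)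
        (∑ l, 2 * qf (G l) y * (2 * ∑ i, ∑ j, G l i j * y i * v j)) 0 := by
      refine HasDerivAt.fun_sum fun l _ => ?_
      have h5 := (hasDerivAt_qf (G l) (hG l) y v).fun_pow 2
      simpa using h5
    have h6 : HasDerivAt (fun s : ℝ => ε * nsq (y + s • v) ^ 2) 0 0 := by
      have h7 := ((hasDerivAt_nsq_gen y v).fun_pow 2).const_mul ε
      simpa [hv] using h7
    have h8 := (h3.fun_add h4).fun_sub h6
    simpa [Ffun] using h8
  have h3 := h1.unique h2
  simp only [grad, aev]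
  rw [h3, sub_zero, Finset.mul_sum (s := (Finset.univ : Finset (Fin r)))]
  congr 1
  refine Finset.sum_congr rfl fun l _ => ?_
  ring

theorem grad_F_ne (hG : ∀ l i j, G l i j = G l j i)
    (hreg : ∀ y : ι → ℝ, nsq y = 1 → ∑ l, qf (G l) y ^ 2 = ε →
      ∃ v : ι → ℝ, ∑ i, y i * v i = 0 ∧ ∑ l, qf (G l) y * ∑ i, ∑ j, G l i j * y i * v j ≠ 0)
    (x : (ι → ℝ) × (τ → ℝ)) (hx : x ∈ Vt G ε) : grad (Sum.elim x.1 x.2) (Fpol G ε) ≠ 0 := by
  intro h0
  by_cases ht : x.2 = 0
  · have h1 : ∑ l, qf (G l) x.1 ^ 2 = ε := by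
      have h2 := hx.2
      have h3 := hx.1
      simp only [Ffun] at h2
      rw [h3, ht] at h2
      have h4 : nsq (0 : τ → ℝ) = 0 := by simp [nsq]
      rw [h4] at h2
      simp only [Algebra.algebraMap_self, RingHom.id_apply] at h2
      linarith
    obtain ⟨v, hv, hne⟩ := hreg x.1 hx.1 h1
    have h5 := grad_Fpol G ε hG x.1 v x.2 0 hv
    rw [h0, ht] at h5
    simp only [Pi.zero_apply, zero_mul, mul_zero, Finset.sum_const_zero, zero_add, add_zero] at h5
    apply hne
    linarith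
  · have h5 := grad_Fpol G ε hG x.1 0 x.2 x.2 (by simp)
    rw [h0] at h5
    simp only [Pi.zero_apply, zero_mul, mul_zero, Finset.sum_const_zero, zero_add, add_zero] at h5
    apply ht
    have h6 : ∑ s, x.2 s * x.2 s = 0 := by linarith
    rw [Finset.sum_eq_zero_iff_of_nonneg (fun s _ => mul_self_nonneg _)] at h6
    funext s
    exact mul_self_eq_zero.1 (h6 s (Finset.mem_univ _))

end

end Pool.Agent.Helper79.BP
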