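import Pool.Agent.Helper79.BP.T4C
import Pool.Agent.Helper79.BP.T4G
import Pool.Agent.Helper79.BP.T4H
import Pool.Agent.Helper1.BP.LocMem
import Pool.Agent.Helper6.BP.NonsV
import Pool.Agent.Helper72.BP.O.Cone
import Pool.Agent.Helper72.BP.TDefs

/-!
PROJECT BP, the bridge T4 (helper79): NZ-subvarieties and homogeneous ideals; the five statements of `Helper72/BP/IfT4.lean`.
-/

set_option autoImplicit false
set_option linter.unusedSectionVars false

namespace Pool.Agent.Helper79.BP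

open MvPolynomial Filter
open Pool.Agent.Helper72.BP
open scoped Topology

section bridge

variable {p m r : ℕ} {κ : Type} [Fintype κ] [DecidableEq κ] (G : Fin r → Matrix (Ix p κ) (Ix p κ) ℝ)
  (q : (Fin m → ℂ) → Ix p κ → ℝ) (ε : ℝ) (hT : IsTube G q ε) (d : ℕ)
  (hd : d + p + 2 = Fintype.card (Ix p κ) + Fintype.card (Tx p r κ))
  (Z' : Set (Amb (Ix p κ) (Tx p r κ) → ℝ)) (hZ' : Z' ⊆ Vemb G ε) (hNZ : IsNZ d Z')

include hT hd hZ' hNZ

theorem t4_sub : lift Z' ⊆ Vt G ε := lift_sub G ε Z' hZ'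

/-- off the Zariski closure some element of the ideal does not vanish. -/
theorem t4_off (x : (Ix p κ → ℝ) × (Tx p r κ → ℝ)) (hx : x ∈ Vt G ε) (h : emb x ∉ zcl Z') :
    ∃ f ∈ coneIdeal (lift Z'), aeval (Sum.elim x.1 x.2 : Var (Ix p κ) (Tx p r κ) → ℝ) f ≠ 0 :=
  lift_off Z' x hx.1 h

/-- regular points. -/
theorem t4_reg (x : (Ix p κ → ℝ) × (Tx p r κ → ℝ)) (hx : x ∈ lift Z') :
    ∃ f : Fin p → MvPolynomial (Var (Ix p κ) (Tx p r κ)) ℝ, (∀ j, f j ∈ coneIdeal (lift Z')) ∧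
      LinearIndependent ℝ (Fin.cons (grad (Sum.elim x.1 x.2) (Fpol G ε)) (fun j => grad (Sum.elim x.1 x.2) (f j)) :
        Fin (p + 1) → (Var (Ix p κ) (Tx p r κ) → ℝ)) ∧
      ∀ h ∈ coneIdeal (lift Z'), ∃ D : MvPolynomial (Var (Ix p κ) (Tx p r κ)) ℝ,
        aeval (Sum.elim x.1 x.2 : Var (Ix p κ) (Tx p r κ) → ℝ) D ≠ 0 ∧
          D * h ∈ Ideal.span (insert (Fpol G ε) (Set.range f)) := by
  have hxV : x ∈ Vt G ε := lift_sub G ε Z' hZ' hx
  have hcnv : IsCNV (d + p) (Vemb G ε : Set (Amb (Ix p κ) (Tx p r κ) → ℝ)) :=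
    Pool.Agent.Helper6.BP.isCNV_Vemb G q ε hT hd
  obtain ⟨f, hf0, hfs, hU⟩ := exists_eqs G ε hcnv.isSubmfd Z' hZ' hNZ hx.2
  have hgrad := grad_F_ne G ε hT.symm hT.reg x hxV
  have hind := indep_cone G ε hxV hgrad f hfs
  refine ⟨fun j => hmg (f j).totalDegree (f j), fun j => hmg_mem _ (f j) le_rfl Z' (hf0 j), hind, ?_⟩
  intro h hh
  have hev := eventually_cone G ε Z' hx.1 f hU h hh
  classical
  let a : Fin (p + 1) → MvPolynomial (Var (Ix p κ) (Tx p r κ)) ℝ :=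
    Fin.cons (Fpol G ε) (fun j => hmg (f j).totalDegree (f j))
  have hA : ∀ i, eval (Sum.elim x.1 x.2 : Var (Ix p κ) (Tx p r κ) → ℝ) (a i) = 0 := by
    intro i
    refine Fin.cases ?_ (fun j => ?_) i
    · simp only [a, Fin.cons_zero]
      rw [aeval_Fpol']
      exact hxV.2
    · simp only [a, Fin.cons_succ]
      have h1 := hmg_mem _ (f j) le_rfl Z' (hf0 j) x hx 1
      simpa [aev] using h1
  have hB : LinearIndependent ℝ (fun i : Fin (p + 1) => fun z : Var (Ix p κ) (Tx p r κ) =>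
      eval (Sum.elim x.1 x.2 : Var (Ix p κ) (Tx p r κ) → ℝ) (pderiv z (a i))) := by
    convert hind using 1
    funext i
    refine Fin.cases ?_ (fun j => ?_) i
    · simp only [a, Fin.cons_zero]
      rfl
    · simp only [a, Fin.cons_succ]
      rfl
  have hC : ∀ᶠ w : Var (Ix p κ) (Tx p r κ) → ℝ in nhds (Sum.elim x.1 x.2),
      (∀ i, eval w (a i) = 0) → eval w h = 0 := by
    filter_upwards [hev] with w hw h0
    refine hw ?_ fun j => ?_
    · simpa [a] using h0 0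
    · simpa [a] using h0 j.succ
  obtain ⟨δ, hδ, hmem⟩ := Pool.Agent.Helper1.BP.local_mem a (Sum.elim x.1 x.2) hA hB h hC
  rw [show a = Fin.cons (Fpol G ε) (fun j => hmg (f j).totalDegree (f j)) from rfl, Fin.range_cons] at hmem
  exact ⟨δ, hδ, hmem⟩

/-- the ideal of the complement. -/
theorem t4_I : ∃ I : Ideal (MvPolynomial (Var (Ix p κ) (Tx p r κ)) ℝ),
    (∀ f ∈ I, ∀ n, weightedHomogeneousComponent (wt : Var (Ix p κ) (Tx p r κ) → ℕ) n f ∈ I) ∧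
    (∀ x ∈ lift Z', ∃ h ∈ I, aeval (Sum.elim x.1 x.2 : Var (Ix p κ) (Tx p r κ) → ℝ) h ≠ 0) ∧
    (∀ (y : Ix p κ → ℝ) (t : Tx p r κ → ℝ), nsq y = 1 → IsZero (coneIdeal (lift Z')) y t → ¬ IsZero I y t →
      (y, t) ∈ lift Z') :=
  ⟨coneIdeal (lift (zcl Z' \ Z')), fun f hf n => coneIdeal_comp _ f hf n, (lift_I Z' hNZ.1).1, (lift_I Z' hNZ.1).2⟩

/-- vectors killed by the whole cone ideal at a point of the cone are mapped to vectors killed by all polynomials vanishing on `Z'`. -/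
theorem t4_tan (x : (Ix p κ → ℝ) × (Tx p r κ → ℝ)) (hx : x ∈ lift Z')
    (v : Ix p κ → ℝ) (u : Tx p r κ → ℝ) (hv : ∑ i, x.1 i * v i = 0)
    (hvu : ∀ f ∈ coneIdeal (lift Z'), ∑ i, grad (Sum.elim x.1 x.2) f (Sum.inl i) * v i +
      ∑ s, grad (Sum.elim x.1 x.2) f (Sum.inr s) * u s = 0)
    (P : MvPolynomial (Amb (Ix p κ) (Tx p r κ)) ℝ) (hP : ∀ z ∈ Z', eval z P = 0) :
    ∑ a, eval (emb x) (pderiv a P) *
      (Sum.elim (fun b => v b.1 * x.1 b.2 + x.1 b.1 * v b.2) u : Amb (Ix p κ) (Tx p r κ) → ℝ) a = 0 :=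
  lift_tan Z' x hx v u hv hvu P hP

end bridge

end Pool.Agent.Helper79.BP
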